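import Pool.Agent.Lib.MP_8b575b_co.Tor.SpecB

/-! Tor/Pc: the coefficients of `pu`. -/

set_option autoImplicit false

namespace Pool.Agent.MP8bT

open Finset Polynomial

open scoped Classical

private theorem pc_prod0 {K : Type} [Field K] [Fintype K] :
    ∏ c : K, (X - C c : K[X]) = X ^ Fintype.card K - X := by
  have h1 : (X ^ Fintype.card K - X : K[X]).Monic := by
    refine monic_X_pow_sub ?_
    rw [degree_X]
    exact_mod_cast Fintype.one_lt_card (α := K)
  have h2 := FiniteField.roots_X_pow_card_sub_X K
  have h3 := prod_multiset_X_sub_C_of_monic_of_roots_card_eq h1 (by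
    rw [h2, FiniteField.X_pow_card_sub_X_natDegree_eq K Fintype.one_lt_card]
    rfl)
  rw [h2] at h3
  exact h3

private theorem pc_prod {K F : Type} [Field K] [Fintype K] [CommRing F] [Algebra K F] (t : F) :
    ∏ c : K, (t - algebraMap K F c) = t ^ Fintype.card K - t := by
  have h := congrArg (aeval t) (pc_prod0 (K := K))
  rw [map_prod] at h
  simpa using h

private theorem pc_hom {K R : Type} [Field K] [Fintype K] [CommRing R] [IsDomain R]
    [Algebra K R] (A B : R) (hB : B ≠ 0) :
    ∏ c : K, (A - algebraMap K R c * B) =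
      A ^ Fintype.card K - B ^ (Fintype.card K - 1) * A := by
  have hinj := IsFractionRing.injective R (FractionRing R)
  apply hinj
  obtain ⟨i, hi⟩ : ∃ i : R →+* FractionRing R, i = algebraMap R (FractionRing R) := ⟨_, rfl⟩
  rw [← hi] at hinj ⊢
  have hb : i B ≠ 0 := fun h => hB (hinj (by rw [h, map_zero]))
  have h1 := pc_prod (K := K) (i A / i B)
  have hq : Fintype.card K = (Fintype.card K - 1) + 1 := by
    have := Fintype.card_pos (α := K)
    omega
  have h2 : ∀ c : K, i (A - algebraMap K R c * B) =
      i B * (i A / i B - algebraMap K (FractionRing R) c) := by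
    intro c
    rw [map_sub, map_mul, IsScalarTower.algebraMap_apply K R (FractionRing R), ← hi]
    field_simp
  rw [map_prod, Finset.prod_congr rfl fun c _ => h2 c, Finset.prod_mul_distrib, h1,
    Finset.prod_const, Finset.card_univ, map_sub, map_mul, map_pow, map_pow]
  obtain ⟨m, hm⟩ : ∃ m, m = Fintype.card K - 1 := ⟨_, rfl⟩
  rw [← hm] at hq ⊢
  rw [hq, div_pow, mul_sub, mul_div_cancel₀ _ (pow_ne_zero _ hb)]
  congr 1
  rw [pow_succ]
  field_simp

private theorem pc_frob {K R : Type} [Field K] [Fintype K] [CommRing R] [Algebra K R] (t : R) :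
    (1 - t) ^ Fintype.card K = 1 - t ^ Fintype.card K := by
  have h1 := FiniteField.expand_card (1 - X : K[X])
  simp only [map_sub, map_one, expand_X] at h1
  have h2 := congrArg (aeval t) h1
  simp only [map_sub, map_one, map_pow, aeval_X] at h2
  exact h2.symm

theorem tPc : S_Pa → S_Pc := by
  intro hPa K L _ _ _ _ _ k U hq3 hfr hU hUa
  obtain ⟨pa1, pa2, pa3, pa4, pa5⟩ := hPa K L
  have hfin : Module.Finite K L := Module.Finite.of_finite
  obtain ⟨f, hf⟩ : ∃ f : U →ₗ[K] L, ∀ u, f u = (u : L × L).1 :=
    ⟨(LinearMap.fst K L L) ∘ₗ U.subtype, fun u => rfl⟩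
  by_cases hcase : ∀ y : L, ((0 : L), y) ∈ U → y = 0
  · -- a graph
    have hinj : Function.Injective f := by
      rw [injective_iff_map_eq_zero]
      intro u hu
      rw [hf] at hu
      obtain ⟨⟨a, b⟩, hab⟩ := u
      change a = 0 at hu
      subst hu
      have := hcase b hab
      subst this
      rfl
    have hsur : Function.Surjective f :=
      (LinearMap.injective_iff_surjective_of_finrank_eq_finrank (by rw [hU, hfr])).1 hinj
    obtain ⟨g, hg⟩ := f.exists_rightInverse_of_surjective (LinearMap.range_eq_top.2 hsur)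
    obtain ⟨ψ, hψ⟩ : ∃ ψ : L →ₗ[K] L, ∀ x, ψ x = ((g x : U) : L × L).2 :=
      ⟨(LinearMap.snd K L L) ∘ₗ U.subtype ∘ₗ g, fun x => rfl⟩
    have hmem : ∀ x y : L, (x, y) ∈ U ↔ y = ψ x := by
      intro x y
      have h1 : f (g x) = x := congrArg (fun h => h x) hg
      have h2 : ((g x : U) : L × L) = (x, ψ x) := by
        rw [hf] at h1
        exact Prod.ext h1 (hψ x).symm
      have h3 : (x, ψ x) ∈ U := by
        rw [← h2]
        exact (g x).2
      constructor
      · intro h
        have h4 := U.sub_mem h h3
        have h5 : ((x, y) : L × L) - (x, ψ x) = (0, y - ψ x) := by simp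
        rw [h5] at h4
        exact sub_eq_zero.1 (hcase _ h4)
      · rintro rfl
        exact h3
    have hpu : ∀ x, pu U x = 1 - C (ψ x) * X := by
      intro x
      unfold pu
      have h1 : univ.filter (fun y => (x, y) ∈ U) = {ψ x} := by
        ext y
        simp [hmem]
      rw [h1, Finset.prod_singleton]
    have hc0 : ∀ x, (pu U x).coeff 0 = 1 := by
      intro x
      rw [hpu]
      simp
    have hc1 : ∀ x, (pu U x).coeff 1 = (-ψ) x := by
      intro x
      rw [hpu]
      simp [coeff_one]
    have hc2 : ∀ x j, 2 ≤ j → (pu U x).coeff j = 0 := by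
      intro x j hj
      rw [hpu]
      refine coeff_eq_zero_of_natDegree_lt (lt_of_le_of_lt ?_ (show 1 < j by omega))
      compute_degree
    refine ⟨fun j _ => ?_, -ψ, hc1⟩
    rcases Nat.lt_or_ge j 2 with hj2 | hj2
    · interval_cases j
      · simp only [hc0]
        exact pa1 1
      · simp only [hc1]
        exact pa4 (-ψ)
    · have : (fun x => (pu U x).coeff j) = 0 := by
        funext x
        exact hc2 x j hj2
      rw [this]
      exact Submodule.zero_mem _
  · -- a vector on the second axis
    push Not at hcase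
    obtain ⟨e, heU, he0⟩ := hcase
    have hKe : ∀ y : L, ((0 : L), y) ∈ U → ∃ c : K, y = algebraMap K L c * e := by
      intro y hy
      obtain ⟨v, hv⟩ := finrank_le_one_iff.1 hUa
      obtain ⟨c, hc⟩ := hv ⟨(0, e), heU, ⟨e, rfl⟩⟩
      obtain ⟨c', hc'⟩ := hv ⟨(0, y), hy, ⟨y, rfl⟩⟩
      have h1 := congrArg (fun t => (t : L × L).2) (congrArg Subtype.val hc)
      have h2 := congrArg (fun t => (t : L × L).2) (congrArg Subtype.val hc')
      change c • (v : L × L).2 = e at h1
      change c' • (v : L × L).2 = y at h2
      have hc0 : c ≠ 0 := by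
        rintro rfl
        rw [zero_smul] at h1
        exact he0 h1.symm
      refine ⟨c' / c, ?_⟩
      rw [← h1, ← h2, ← Algebra.smul_def, smul_smul, div_mul_cancel₀ _ hc0]
    -- the first projection
    have hker1 : Module.finrank K (LinearMap.ker f) = 1 := by
      refine le_antisymm ?_ ?_
      · refine le_trans ?_ hUa
        have h1 : ∀ u : LinearMap.ker f, ((u : U) : L × L) ∈ U ⊓ ax2 K L := by
          intro u
          refine ⟨(u : U).2, ⟨((u : U) : L × L).2, ?_⟩⟩
          have h2 : f u = 0 := u.2
          rw [hf] at h2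
          exact Prod.ext h2.symm rfl
        have h2 : Function.Injective (LinearMap.codRestrict (U ⊓ ax2 K L)
            (U.subtype ∘ₗ (LinearMap.ker f).subtype) h1) := by
          intro a b hab
          have := congrArg Subtype.val hab
          exact Subtype.ext (Subtype.ext this)
        exact LinearMap.finrank_le_finrank_of_injective h2
      · rcases Nat.eq_zero_or_pos (Module.finrank K (LinearMap.ker f)) with h | h
        · have hb := Submodule.finrank_eq_zero.1 h
          have h1 : (⟨(0, e), heU⟩ : U) ∈ LinearMap.ker f := by rw [LinearMap.mem_ker, hf]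
          rw [hb, Submodule.mem_bot] at h1
          exact absurd (congrArg (fun t : U => (t : L × L).2) h1) he0
        · exact h
    have hrank := LinearMap.finrank_range_add_finrank_ker f
    rw [hker1, hU] at hrank
    have hlt : LinearMap.range f < ⊤ := by
      rw [lt_top_iff_ne_top]
      intro h
      rw [h, finrank_top, hfr] at hrank
      omega
    obtain ⟨lam, hl0, hle⟩ := Submodule.exists_le_ker_of_lt_top _ hlt
    have hkl := Module.Dual.finrank_ker_add_one_of_ne_zero hl0
    rw [hfr] at hkl
    have hY : LinearMap.range f = LinearMap.ker lam :=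
      Submodule.eq_of_le_of_finrank_eq hle (by omega)
    obtain ⟨g, hg⟩ := f.rangeRestrict.exists_rightInverse_of_surjective f.range_rangeRestrict
    obtain ⟨χ, hχ⟩ := LinearMap.exists_extend ((LinearMap.snd K L L) ∘ₗ U.subtype ∘ₗ g)
    have hχU : ∀ x, lam x = 0 → (x, χ x) ∈ U := by
      intro x hx
      have hxr : x ∈ LinearMap.range f := by
        rw [hY]
        exact hx
      have h1 : ((f.rangeRestrict (g ⟨x, hxr⟩) : LinearMap.range f) : L) = x := by
        have h2 : f.rangeRestrict (g ⟨x, hxr⟩) = ⟨x, hxr⟩ :=
          congrArg (fun h => h ⟨x, hxr⟩) hg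
        rw [h2]
      have h3 : ((g ⟨x, hxr⟩ : U) : L × L).1 = x := by
        rw [← hf]
        exact h1
      have h4 : χ x = ((g ⟨x, hxr⟩ : U) : L × L).2 :=
        congrArg (fun h => h ⟨x, hxr⟩) hχ
      have h5 : (x, χ x) = ((g ⟨x, hxr⟩ : U) : L × L) := Prod.ext h3.symm h4
      rw [h5]
      exact (g ⟨x, hxr⟩).2
    obtain ⟨q, hqe⟩ : ∃ q, q = Fintype.card K := ⟨_, rfl⟩
    have hpu1 : ∀ x, lam x ≠ 0 → pu U x = 1 := by
      intro x hx
      unfold pu
      have h1 : univ.filter (fun y => (x, y) ∈ U) = ∅ := by
        rw [Finset.filter_eq_empty_iff]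
        intro y _ hy
        apply hx
        have h2 : x ∈ LinearMap.range f := ⟨⟨(x, y), hy⟩, hf _⟩
        rw [hY] at h2
        exact h2
      rw [h1, Finset.prod_empty]
    have hpu0 : ∀ x, lam x = 0 → pu U x = 1 - C (e ^ (q - 1)) * X ^ (q - 1) +
        C (e ^ (q - 1) * χ x - χ x ^ q) * X ^ q := by
      intro x hx
      unfold pu
      have h1 : univ.filter (fun y => (x, y) ∈ U) =
          univ.image (fun c : K => χ x + algebraMap K L c * e) := by
        ext y
        rw [Finset.mem_filter, Finset.mem_image]
        constructor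
        · rintro ⟨-, hy⟩
          have h4 := U.sub_mem hy (hχU x hx)
          have h5 : ((x, y) : L × L) - (x, χ x) = (0, y - χ x) := by simp
          rw [h5] at h4
          obtain ⟨c, hc⟩ := hKe _ h4
          exact ⟨c, Finset.mem_univ _, by rw [← hc]; ring⟩
        · rintro ⟨c, -, rfl⟩
          refine ⟨Finset.mem_univ _, ?_⟩
          have h4 := U.add_mem (hχU x hx) (U.smul_mem c heU)
          have h5 : ((x, χ x) : L × L) + c • ((0 : L), e) = (x, χ x + algebraMap K L c * e) := by
            rw [Prod.smul_mk, Prod.mk_add_mk, smul_zero, add_zero, Algebra.smul_def]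
          rwa [h5] at h4
      have hinj : Function.Injective (fun c : K => χ x + algebraMap K L c * e) := by
        intro c c' h
        have h2 := mul_right_cancel₀ he0 (add_left_cancel h)
        exact (algebraMap K L).injective h2
      rw [h1, Finset.prod_image fun a _ b _ hab => hinj hab]
      have h2 : ∀ c : K, (1 - C (χ x + algebraMap K L c * e) * X : L[X]) =
          (1 - C (χ x) * X) - algebraMap K L[X] c * (C e * X) := by
        intro c
        have h3 : algebraMap K L[X] c = C (algebraMap K L c) := rfl
        rw [h3, C_add, C_mul]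
        ring
      rw [Finset.prod_congr rfl fun c _ => h2 c, pc_hom (K := K) _ _
        (mul_ne_zero (C_ne_zero.2 he0) X_ne_zero), pc_frob (K := K), ← hqe]
      obtain ⟨m, rfl⟩ : ∃ m, q = m + 1 := ⟨q - 1, by omega⟩
      rw [Nat.add_sub_cancel, mul_pow, mul_pow]
      simp only [map_sub, map_mul, map_pow]
      ring
    have hone : ∀ c : K, c ≠ 0 → c ^ (q - 1) = 1 := by
      intro c hc
      rw [hqe]
      exact FiniteField.pow_card_sub_one_eq_one c hc
    have hcoef : ∀ x j, lam x = 0 → (pu U x).coeff j = (if j = 0 then 1 else 0) -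
        (if j = q - 1 then e ^ (q - 1) else 0) +
          (if j = q then e ^ (q - 1) * χ x - χ x ^ q else 0) := by
      intro x j hx
      rw [hpu0 x hx, coeff_add, coeff_sub, coeff_one, coeff_C_mul, coeff_C_mul, coeff_X_pow,
        coeff_X_pow]
      split_ifs <;> simp
    have hcoef1 : ∀ x j, lam x ≠ 0 → (pu U x).coeff j = (if j = 0 then 1 else 0) := by
      intro x j hx
      rw [hpu1 x hx, coeff_one]
    have hlam : (fun x => algebraMap K L (lam x ^ (q - 1))) ∈ Pd K L (q - 1) := by
      refine Submodule.subset_span ⟨List.replicate (q - 1) lam, by simp, ?_⟩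
      funext x
      rw [List.map_replicate, List.prod_replicate]
    have hlam1 : (fun x => 1 - algebraMap K L (lam x ^ (q - 1))) ∈ Pd K L (q - 1) :=
      Submodule.sub_mem _ (pa3 0 _ (Nat.zero_le _) (pa1 1)) hlam
    have hval : ∀ x, (lam x = 0 → 1 - algebraMap K L (lam x ^ (q - 1)) = 1) ∧
        (lam x ≠ 0 → 1 - algebraMap K L (lam x ^ (q - 1)) = 0) := by
      intro x
      refine ⟨fun h => ?_, fun h => ?_⟩
      · rw [h, zero_pow (by omega), map_zero, sub_zero]
      · rw [hone _ h, map_one, sub_self]
    have hlin : ∃ θ : L →ₗ[K] L, ∀ x, θ x = e ^ (q - 1) * χ x - χ x ^ q := by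
      refine ⟨(LinearMap.mulLeft K (e ^ (q - 1))) ∘ₗ χ -
        (FiniteField.frobeniusAlgHom K L).toLinearMap ∘ₗ χ, fun x => ?_⟩
      rw [LinearMap.sub_apply, LinearMap.comp_apply, LinearMap.comp_apply,
        LinearMap.mulLeft_apply, AlgHom.toLinearMap_apply, FiniteField.coe_frobeniusAlgHom, hqe]
    obtain ⟨θ, hθ⟩ := hlin
    refine ⟨fun j hj => ?_, 0, fun x => ?_⟩
    · rw [← hqe] at hj
      by_cases hj0 : j = 0
      · have h1 : (fun x => (pu U x).coeff j) = fun _ => 1 := by
          funext x
          by_cases hx : lam x = 0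
          · rw [hcoef x j hx, if_pos hj0, if_neg (by omega), if_neg (by omega)]
            simp
          · rw [hcoef1 x j hx, if_pos hj0]
        rw [h1]
        exact pa3 0 _ (Nat.zero_le _) (pa1 1)
      by_cases hj1 : j = q - 1
      · have h1 : (fun x => (pu U x).coeff j) =
            fun x => (1 - algebraMap K L (lam x ^ (q - 1))) * (-(e ^ (q - 1))) := by
          funext x
          by_cases hx : lam x = 0
          · rw [hcoef x j hx, if_neg hj0, if_pos hj1, if_neg (by omega), (hval x).1 hx]
            ring
          · rw [hcoef1 x j hx, if_neg hj0, (hval x).2 hx, zero_mul]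
        rw [h1, hj1]
        have h2 := pa2 (q - 1) 0 _ _ hlam1 (pa1 (-(e ^ (q - 1))))
        rw [add_zero] at h2
        exact h2
      by_cases hj2 : j = q
      · have h1 : (fun x => (pu U x).coeff j) =
            fun x => (1 - algebraMap K L (lam x ^ (q - 1))) * θ x := by
          funext x
          by_cases hx : lam x = 0
          · rw [hcoef x j hx, if_neg hj0, if_neg hj1, if_pos hj2, (hval x).1 hx, hθ]
            ring
          · rw [hcoef1 x j hx, if_neg hj0, (hval x).2 hx, zero_mul]
        rw [h1, hj2]
        exact pa3 _ _ (by omega) (pa2 (q - 1) 1 _ _ hlam1 (pa4 θ))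
      · have h1 : (fun x => (pu U x).coeff j) = 0 := by
          funext x
          by_cases hx : lam x = 0
          · rw [hcoef x j hx, if_neg hj0, if_neg hj1, if_neg hj2]
            simp
          · rw [hcoef1 x j hx, if_neg hj0]
            rfl
        rw [h1]
        exact Submodule.zero_mem _
    · by_cases hx : lam x = 0
      · rw [hcoef x 1 hx, if_neg (by omega), if_neg (by omega), if_neg (by omega)]
        simp
      · rw [hcoef1 x 1 hx, if_neg (by omega)]
        rfl

end Pool.Agent.MP8bT
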