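import Pool.Agent.Lib.MP_8b575b_co.Tor.SpecB

set_option autoImplicit false

namespace Pool.Agent.MP8bT

open Finset Polynomial

open scoped Classical

/-- The good families of polynomials: the coefficient `j` is in `Pd j` for `j ≤ q`, the coefficient of `X` is linear,
the constant coefficient is one. -/
private def PiG (K L : Type) [Field K] [Fintype K] [Field L] [Algebra K L] (P : L → L[X]) :
    Prop :=
  (∀ j ≤ Fintype.card K, (fun x => (P x).coeff j) ∈ Pd K L j) ∧
  (∃ ψ : L →ₗ[K] L, ∀ x, (P x).coeff 1 = ψ x) ∧ ∀ x, (P x).coeff 0 = 1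

private theorem pi_mul {K L : Type} [Field K] [Fintype K] [Field L] [Fintype L] [Algebra K L]
    (hPa : S_Pa) (P Q : L → L[X]) (hP : PiG K L P) (hQ : PiG K L Q) :
    PiG K L (fun x => P x * Q x) := by
  obtain ⟨h1, h2, h3, h4, h5⟩ := hPa K L
  obtain ⟨p1, ⟨ψ, p2⟩, p3⟩ := hP
  obtain ⟨q1, ⟨χ, q2⟩, q3⟩ := hQ
  refine ⟨?_, ⟨ψ + χ, ?_⟩, ?_⟩
  · intro j hj
    have : (fun x => (P x * Q x).coeff j) =
        ∑ i ∈ antidiagonal j, fun x => (P x).coeff i.1 * (Q x).coeff i.2 := by
      funext x
      rw [Polynomial.coeff_mul, Finset.sum_apply]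
    rw [this]
    refine Submodule.sum_mem _ fun i hi => ?_
    have hi' : i.1 + i.2 = j := by simpa using hi
    have := h2 i.1 i.2 _ _ (p1 i.1 (by omega)) (q1 i.2 (by omega))
    rwa [hi'] at this
  · intro x
    rw [Polynomial.coeff_mul, show antidiagonal 1 = {(0, 1), (1, 0)} from rfl,
      Finset.sum_pair (by simp)]
    simp only [p2, q2, p3, q3, LinearMap.add_apply]
    ring
  · intro x
    rw [Polynomial.mul_coeff_zero, p3, q3, mul_one]

private theorem pi_prod {K L : Type} [Field K] [Fintype K] [Field L] [Fintype L] [Algebra K L]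
    (hPa : S_Pa) (R : Finset (Submodule K (L × L)))
    (h : ∀ U ∈ R, PiG K L (fun x => pu U x)) : PiG K L (fun x => ∏ U ∈ R, pu U x) := by
  induction R using Finset.induction_on with
  | empty =>
    obtain ⟨h1, h2, h3, h4, h5⟩ := hPa K L
    refine ⟨?_, ⟨0, ?_⟩, ?_⟩
    · intro j hj
      have : (fun x : L => (∏ U ∈ (∅ : Finset (Submodule K (L × L))), pu U x).coeff j) =
          fun _ => if j = 0 then (1 : L) else 0 := by
        funext x
        simp [Polynomial.coeff_one]
      rw [this]
      exact h3 0 j (Nat.zero_le _) (h1 _)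
    · intro x; simp [Polynomial.coeff_one]
    · intro x; simp
  | insert U R hU ih =>
    have := pi_mul hPa _ _ (h U (Finset.mem_insert_self _ _))
      (ih fun W hW => h W (Finset.mem_insert_of_mem hW))
    convert this using 2 with x
    rw [Finset.prod_insert hU]

/-- The coefficients of the inverse. -/
private noncomputable def piE {L : Type} [Field L] (P : L → L[X]) : ℕ → L → L
  | 0, _ => 1
  | n + 1, x => - ∑ i : Fin (n + 1), (P x).coeff (n + 1 - i) * piE P i x

theorem tPi : S_Pa → S_Pc → S_Pi := by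
  intro hPa hPc K L _ _ _ _ _ k R hq hk hR
  have hG : PiG K L (fun x => ∏ U ∈ R, pu U x) := by
    refine pi_prod hPa R fun U hU => ?_
    obtain ⟨a, b⟩ := hPc K L k U hq hk (hR U hU).1 (hR U hU).2
    refine ⟨a, b, fun x => ?_⟩
    change (pu U x).coeff 0 = 1
    unfold pu
    rw [Polynomial.coeff_zero_prod]
    exact Finset.prod_eq_one fun y _ => by simp
  obtain ⟨h1, h2, h3, h4, h5⟩ := hPa K L
  obtain ⟨g1, ⟨ψ, g2⟩, g3⟩ := hG
  set P : L → L[X] := fun x => ∏ U ∈ R, pu U x with hP
  refine ⟨piE P, ?_, ?_, ⟨-ψ, ?_⟩, ?_⟩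
  · intro j
    induction j using Nat.strong_induction_on with
    | _ j ih =>
      intro hj
      rcases j with _ | n
      · have : piE P 0 = fun _ => (1 : L) := by funext x; simp [piE]
        rw [this]; exact h1 1
      · have : piE P (n + 1) = - ∑ i : Fin (n + 1),
            fun x => (P x).coeff (n + 1 - i) * piE P i x := by
          funext x
          simp [piE]
        rw [this]
        refine Submodule.neg_mem _ (Submodule.sum_mem _ fun i _ => ?_)
        have hi := i.2
        have := h2 (n + 1 - i) i _ _ (g1 (n + 1 - i) (by omega)) (ih i (by omega) (by omega))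
        rwa [Nat.sub_add_cancel (by omega)] at this
  · intro x; simp [piE]
  · intro x
    have : piE P 1 x = - (P x).coeff 1 := by
      simp [piE]
    rw [this, g2]; simp
  · intro x j hj
    obtain ⟨n, rfl⟩ : ∃ n, j = n + 1 := ⟨j - 1, by omega⟩
    change (P x * ∑ i ∈ range (n + 1 + 1), C (piE P i x) * X ^ i).coeff (n + 1) = 0
    rw [Finset.mul_sum, Polynomial.finsetSum_coeff, Finset.sum_range_succ]
    have ha : ∀ i ≤ n + 1, (P x * (C (piE P i x) * X ^ i)).coeff (n + 1) =
        (P x).coeff (n + 1 - i) * piE P i x := by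
      intro i hi
      rw [← mul_assoc, Polynomial.coeff_mul_X_pow', if_pos hi, Polynomial.coeff_mul_C]
    rw [ha (n + 1) le_rfl, Nat.sub_self, g3, one_mul]
    have hb : piE P (n + 1) x = - ∑ i ∈ range (n + 1), (P x).coeff (n + 1 - i) * piE P i x := by
      rw [piE, Finset.sum_range]
    rw [hb, Finset.sum_congr rfl fun i hi => ha i (by
      have := Finset.mem_range.1 hi; omega)]
    ring

end Pool.Agent.MP8bT
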