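import Pool.Agent.Lib.MP_8b575b_co.Tor.SpecC

/-! Tor/Aa: a factor of degree at most `k - 2`. -/

set_option autoImplicit false

namespace Pool.Agent.MP8bT

open Finset Polynomial

open scoped Classical

section Star

variable {K V : Type} [Field K] [Fintype K] [AddCommGroup V] [Module K V] [Fintype V]

private theorem aa_card (W : Submodule K V) :
    (univ.filter fun v : V => v ∈ W).card = Fintype.card K ^ Module.finrank K W := by
  have h1 : Fintype.card W = Fintype.card K ^ Module.finrank K W := Module.card_eq_pow_finrank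
  rw [← h1, Fintype.card_subtype]

private theorem aa_star {k : ℕ} {D : Finset (Submodule K V)}
    (hk : ∀ U ∈ D, Module.finrank K U = k)
    (hD : ∀ U ∈ D, ∀ W ∈ D, U ≠ W → Module.finrank K ↥(U ⊓ W) ≤ 1) (S : Submodule K V)
    (hS : ∀ U ∈ D, U ≤ S) (e : V) (he : e ≠ 0) :
    (D.filter fun U => e ∈ U).card * (Fintype.card K ^ k - Fintype.card K) ≤
      Fintype.card K ^ Module.finrank K S := by
  have c1 : ∀ U ∈ D.filter (fun U => e ∈ U), Fintype.card K ^ k - Fintype.card K ≤
      (univ.filter fun v : V => v ∈ U ∧ v ∉ Submodule.span K {e}).card := by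
    intro U hU
    obtain ⟨h1, h2⟩ := Finset.mem_filter.1 hU
    have e1 := aa_card U
    rw [hk U h1] at e1
    have e2 := aa_card (Submodule.span K {e})
    rw [finrank_span_singleton he, pow_one] at e2
    have e4 := Finset.card_filter_add_card_filter_not (s := univ.filter fun v : V => v ∈ U)
      (fun v => v ∈ Submodule.span K {e})
    rw [Finset.filter_filter, Finset.filter_filter, e1] at e4
    have e5 : (univ.filter fun v : V => v ∈ U ∧ v ∈ Submodule.span K {e}).card ≤
        (univ.filter fun v : V => v ∈ Submodule.span K {e}).card := by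
      refine Finset.card_le_card fun v hv => ?_
      rw [Finset.mem_filter] at hv ⊢
      exact ⟨hv.1, hv.2.2⟩
    omega
  have c2 : ((D.filter fun U => e ∈ U).biUnion
      fun U => univ.filter fun v : V => v ∈ U ∧ v ∉ Submodule.span K {e}).card =
      ∑ U ∈ D.filter (fun U => e ∈ U),
        (univ.filter fun v : V => v ∈ U ∧ v ∉ Submodule.span K {e}).card := by
    refine Finset.card_biUnion ?_
    intro U hU W hW hUW
    refine Finset.disjoint_left.2 fun v hv hv' => ?_
    obtain ⟨h1, h2⟩ := Finset.mem_filter.1 hU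
    obtain ⟨h3, h4⟩ := Finset.mem_filter.1 hW
    obtain ⟨-, hv1, hv2⟩ := Finset.mem_filter.1 hv
    obtain ⟨-, hv3, -⟩ := Finset.mem_filter.1 hv'
    have h5 := hD U h1 W h3 hUW
    have hli : LinearIndependent K ![(⟨e, h2, h4⟩ : ↥(U ⊓ W)), ⟨v, hv1, hv3⟩] := by
      rw [LinearIndependent.pair_iff]
      intro s t hst
      have hst' : s • e + t • v = 0 := congrArg Subtype.val hst
      have ht : t = 0 := by
        by_contra ht
        apply hv2
        have : v = t⁻¹ • (- (s • e)) := by
          rw [← eq_neg_of_add_eq_zero_right hst', inv_smul_smul₀ ht]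
        rw [this]
        exact Submodule.smul_mem _ _ (Submodule.neg_mem _ (Submodule.smul_mem _ _
          (Submodule.mem_span_singleton_self e)))
      refine ⟨?_, ht⟩
      rw [ht, zero_smul, add_zero] at hst'
      exact (smul_eq_zero.1 hst').resolve_right he
    have h6 := hli.fintype_card_le_finrank
    rw [Fintype.card_fin] at h6
    omega
  have c3 : ((D.filter fun U => e ∈ U).biUnion
      fun U => univ.filter fun v : V => v ∈ U ∧ v ∉ Submodule.span K {e}).card ≤
      (univ.filter fun v : V => v ∈ S).card := by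
    refine Finset.card_le_card ?_
    intro v hv
    obtain ⟨U, hU, hv⟩ := Finset.mem_biUnion.1 hv
    exact Finset.mem_filter.2 ⟨Finset.mem_univ _,
      hS U (Finset.mem_filter.1 hU).1 (Finset.mem_filter.1 hv).2.1⟩
  have c5 := Finset.card_nsmul_le_sum _ _ _ c1
  rw [smul_eq_mul, ← c2] at c5
  rw [← aa_card S]
  exact c5.trans c3

private theorem aa_pairs {k : ℕ} {D : Finset (Submodule K V)}
    (hk : ∀ U ∈ D, Module.finrank K U = k)
    (hD : ∀ U ∈ D, ∀ W ∈ D, U ≠ W → Module.finrank K ↥(U ⊓ W) ≤ 1) (S : Submodule K V)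
    (hS : ∀ U ∈ D, U ≤ S) :
    D.card * (Fintype.card K ^ k - 1) * (Fintype.card K ^ k - Fintype.card K) ≤
      Fintype.card K ^ Module.finrank K S * Fintype.card K ^ Module.finrank K S := by
  obtain ⟨T, hT⟩ : ∃ T : Finset V, T = univ.filter fun v : V => v ∈ S ∧ v ≠ 0 := ⟨_, rfl⟩
  have h1 := Finset.sum_card_bipartiteAbove_eq_sum_card_bipartiteBelow (s := D) (t := T)
    (fun (U : Submodule K V) (v : V) => v ∈ U)
  have h2 : ∀ U ∈ D, (T.bipartiteAbove (fun (U : Submodule K V) (v : V) => v ∈ U) U).card =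
      Fintype.card K ^ k - 1 := by
    intro U hU
    have e1 := aa_card U
    rw [hk U hU] at e1
    have e2 : T.bipartiteAbove (fun (U : Submodule K V) (v : V) => v ∈ U) U =
        (univ.filter fun v : V => v ∈ U).erase 0 := by
      ext v
      rw [Finset.bipartiteAbove, hT, Finset.mem_filter, Finset.mem_filter, Finset.mem_erase,
        Finset.mem_filter]
      constructor
      · rintro ⟨⟨-, -, h3⟩, h4⟩
        exact ⟨h3, Finset.mem_univ _, h4⟩
      · rintro ⟨h3, -, h4⟩
        exact ⟨⟨Finset.mem_univ _, hS U hU h4, h3⟩, h4⟩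
    rw [e2, Finset.card_erase_of_mem (Finset.mem_filter.2 ⟨Finset.mem_univ _, U.zero_mem⟩), e1]
  rw [Finset.sum_congr rfl h2, Finset.sum_const, smul_eq_mul] at h1
  rw [h1, Finset.sum_mul]
  have hTc : T.card ≤ Fintype.card K ^ Module.finrank K S := by
    rw [← aa_card S, hT]
    refine Finset.card_le_card fun v hv => ?_
    rw [Finset.mem_filter] at hv ⊢
    exact ⟨hv.1, hv.2.1⟩
  calc _ ≤ ∑ _v ∈ T, Fintype.card K ^ Module.finrank K S := by
        refine Finset.sum_le_sum fun v hv => ?_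
        rw [hT, Finset.mem_filter] at hv
        exact aa_star hk hD S hS v hv.2.2
    _ = T.card * Fintype.card K ^ Module.finrank K S := by rw [Finset.sum_const, smul_eq_mul]
    _ ≤ _ := Nat.mul_le_mul_right _ hTc

end Star

private theorem aa_big {L : Type} [Field L] [Fintype L] (h : 2 < Fintype.card L) (y z : L) :
    ∃ w : L, w ≠ y ∧ z - w ≠ y := by
  have h1 : ({y, z - y} : Finset L).card < (univ : Finset L).card :=
    lt_of_le_of_lt Finset.card_le_two (by rw [Finset.card_univ]; exact h)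
  obtain ⟨w, _, hw⟩ := Finset.exists_mem_notMem_of_card_lt_card h1
  rw [Finset.mem_insert, Finset.mem_singleton, not_or] at hw
  refine ⟨w, hw.1, ?_⟩
  intro h2
  apply hw.2
  rw [← h2]
  ring

private theorem aa_ar (q Q M d₁ d₂ : ℕ) (hq : 2 ≤ q) (hQ : 2 * q + 2 ≤ Q) (hM : q * M ≤ Q * Q)
    (h1 : d₁ * (Q - 1) * (Q - q) ≤ M * M) (h2 : d₂ * (Q - q) ≤ Q * Q) : d₁ + d₂ ≤ Q * Q := by
  obtain ⟨R, rfl⟩ : ∃ R, Q = R + q + 1 := ⟨Q - (q + 1), by omega⟩
  have e1 : R + q + 1 - 1 = R + q := by omega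
  have e2 : R + q + 1 - q = R + 1 := by omega
  rw [e1, e2] at h1
  rw [e2] at h2
  obtain ⟨Q, hQe⟩ : ∃ Q, Q = R + q + 1 := ⟨_, rfl⟩
  rw [← hQe] at hQ hM h2 ⊢
  have hR : q + 1 ≤ R := by omega
  have a1 : Q * Q ≤ q * q * ((R + q) * R) := by
    have b1 : Q ≤ 2 * (R + q) := by omega
    have b2 : Q ≤ 2 * R := by omega
    calc Q * Q ≤ (2 * (R + q)) * (2 * R) := Nat.mul_le_mul b1 b2
      _ = (2 * 2) * ((R + q) * R) := by ring
      _ ≤ q * q * ((R + q) * R) := Nat.mul_le_mul_right _ (Nat.mul_le_mul hq hq)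
  have a2 : (d₁ + d₂) * (q * q * ((R + q) * (R + 1))) ≤
      (Q * Q) * (q * q * ((R + q) * (R + 1))) := by
    calc (d₁ + d₂) * (q * q * ((R + q) * (R + 1))) =
          q * q * (d₁ * (R + q) * (R + 1)) + q * q * (R + q) * (d₂ * (R + 1)) := by ring
      _ ≤ q * q * (M * M) + q * q * (R + q) * (Q * Q) :=
          Nat.add_le_add (Nat.mul_le_mul_left _ h1) (Nat.mul_le_mul_left _ h2)
      _ = (q * M) * (q * M) + q * q * (R + q) * (Q * Q) := by ring
      _ ≤ (Q * Q) * (Q * Q) + q * q * (R + q) * (Q * Q) :=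
          Nat.add_le_add_right (Nat.mul_le_mul hM hM) _
      _ ≤ (Q * Q) * (q * q * ((R + q) * R)) + q * q * (R + q) * (Q * Q) :=
          Nat.add_le_add_right (Nat.mul_le_mul_left _ a1) _
      _ = _ := by ring
  exact Nat.le_of_mul_le_mul_right a2 (by positivity)

theorem tAa : S_Aa := by
  intro K ι _ _ _ F _ _ _ k i D hk4 hfr hFc hFn hD
  obtain ⟨hDk, hDi, hDu⟩ := hD
  obtain ⟨n, hn⟩ : ∃ n, n = Module.finrank K (F i) := ⟨_, rfl⟩
  rw [← hn] at hFn
  have hn1 : 1 ≤ n := by
    rw [hn]
    exact Module.finrank_pos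
  obtain ⟨W, hW⟩ : ∃ W : Submodule K (∀ j, F j), W = LinearMap.ker (LinearMap.proj i) :=
    ⟨_, rfl⟩
  have hWm : ∀ x : ∀ j, F j, x ∈ W ↔ x i = 0 := by
    intro x
    rw [hW, LinearMap.mem_ker]
    rfl
  have hWd : Module.finrank K W + n = 2 * k := by
    have h1 := LinearMap.finrank_range_add_finrank_ker
      (LinearMap.proj i : (∀ j, F j) →ₗ[K] F i)
    have h2 : LinearMap.range (LinearMap.proj i : (∀ j, F j) →ₗ[K] F i) = ⊤ :=
      LinearMap.range_eq_top.2 (Function.surjective_eval i)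
    rw [h2, finrank_top, ← hn, ← hW, hfr] at h1
    omega
  have hUW : ∀ U ∈ D, 2 ≤ Module.finrank K ↥(U ⊓ W) := by
    intro U hU
    have h1 := Submodule.finrank_sup_add_finrank_inf_eq U W
    have h2 := Submodule.finrank_le (U ⊔ W)
    rw [hDk U hU] at h1
    rw [hfr] at h2
    omega
  have hkey : ∀ U ∈ D, ∀ x ∈ U, ∀ z : F i, x i ≠ 0 → z ≠ - x i → Pi.single i z ∈ U := by
    intro U hU x hx z hxi hz
    obtain ⟨β, hβ⟩ : ∃ β, β = z / x i + 1 := ⟨_, rfl⟩
    have hβ0 : β ≠ 0 := by
      intro h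
      apply hz
      rw [h, eq_comm, add_eq_zero_iff_eq_neg, div_eq_iff hxi] at hβ
      rw [hβ]
      ring
    obtain ⟨a, ha⟩ : ∃ a : ∀ j, F j, a = Function.update (1 : ∀ j, F j) i β := ⟨_, rfl⟩
    have hai : a i = β := by rw [ha, Function.update_self]
    have haj : ∀ j, j ≠ i → a j = 1 := by
      intro j hj
      rw [ha, Function.update_of_ne hj]
      rfl
    have hau : IsUnit a := by
      rw [Pi.isUnit_iff]
      intro j
      by_cases hj : j = i
      · subst hj
        rw [hai]
        exact isUnit_iff_ne_zero.2 hβ0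
      · rw [haj j hj]
        exact isUnit_one
    have hfix : U.map (LinearMap.mulLeft K a) = U := by
      by_contra hne
      have h1 := hDi _ (hDu a hau U hU) U hU hne
      have h2 : U ⊓ W ≤ U.map (LinearMap.mulLeft K a) ⊓ U := by
        intro y hy
        refine ⟨⟨y, hy.1, ?_⟩, hy.1⟩
        have h3 := (hWm y).1 hy.2
        rw [LinearMap.mulLeft_apply]
        funext j
        rw [Pi.mul_apply]
        by_cases hj : j = i
        · subst hj
          rw [h3, mul_zero]
        · rw [haj j hj, one_mul]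
      have h3 := Submodule.finrank_mono h2
      have h4 := hUW U hU
      omega
    have h1 : a * x ∈ U := by
      rw [← hfix]
      exact ⟨x, hx, rfl⟩
    have h2 := U.sub_mem h1 hx
    have h3 : a * x - x = Pi.single i z := by
      funext j
      rw [Pi.sub_apply, Pi.mul_apply]
      by_cases hj : j = i
      · subst hj
        rw [hai, hβ, Pi.single_eq_same]
        field_simp
        ring
      · rw [haj j hj, one_mul, sub_self, Pi.single_eq_of_ne hj]
    rwa [h3] at h2
  have hsplit : ∀ U ∈ D, U ≤ W ∨ Pi.single i (1 : F i) ∈ U := by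
    intro U hU
    by_cases h : U ≤ W
    · exact Or.inl h
    · right
      obtain ⟨x, hx, hxW⟩ := SetLike.not_le_iff_exists.1 h
      rw [hWm] at hxW
      obtain ⟨w, hw1, hw2⟩ := aa_big hFc (-x i) 1
      have h1 := U.add_mem (hkey U hU x hx w hxW hw1) (hkey U hU x hx (1 - w) hxW hw2)
      rw [← Pi.single_add] at h1
      have h2 : w + (1 - w) = 1 := by ring
      rwa [h2] at h1
  obtain ⟨q, hq⟩ : ∃ q, q = Fintype.card K := ⟨_, rfl⟩
  have hq2 : 2 ≤ q := by
    rw [hq]
    exact Fintype.one_lt_card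
  have he0 : (Pi.single i (1 : F i) : ∀ j, F j) ≠ 0 := by
    intro h
    have h1 := congrArg (fun x => x i) h
    simp at h1
  have h1 := aa_pairs (D := D.filter fun U => U ≤ W) (k := k)
    (fun U hU => hDk U (Finset.mem_filter.1 hU).1)
    (fun U hU U' hU' => hDi U (Finset.mem_filter.1 hU).1 U' (Finset.mem_filter.1 hU').1) W
    (fun U hU => (Finset.mem_filter.1 hU).2)
  have h2 := aa_star (D := D) (k := k) hDk hDi ⊤ (fun U _ => le_top) (Pi.single i (1 : F i)) he0
  rw [finrank_top, hfr, ← hq] at h2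
  rw [← hq] at h1 ⊢
  have h3 : D.card ≤ (D.filter fun U => U ≤ W).card +
      (D.filter fun U => Pi.single i (1 : F i) ∈ U).card := by
    refine le_trans (Finset.card_le_card ?_) (Finset.card_union_le _ _)
    intro U hU
    rw [Finset.mem_union, Finset.mem_filter, Finset.mem_filter]
    rcases hsplit U hU with h | h
    · exact Or.inl ⟨hU, h⟩
    · exact Or.inr ⟨hU, h⟩
  have e1 : q ^ (2 * k) = q ^ k * q ^ k := by rw [two_mul, pow_add]
  rw [e1] at h2 ⊢
  refine h3.trans (aa_ar q (q ^ k) (q ^ Module.finrank K W) _ _ hq2 ?_ ?_ h1 h2)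
  · have h4 : q ^ 4 ≤ q ^ k := Nat.pow_le_pow_right (by omega) hk4
    have h5 : 2 * 2 * 2 * q ≤ q ^ 4 := by
      have : q ^ 4 = q * q * q * q := by ring
      rw [this]
      gcongr
    omega
  · rw [← e1, ← pow_succ']
    exact Nat.pow_le_pow_right (by omega) (by omega)

end Pool.Agent.MP8bT
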