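import Pool.Agent.Lib.MP_8b575b_co.Tor.SpecC

/-! Tor/Ab: two factors of degrees `k + 1` and `k - 1`. -/

set_option autoImplicit false

namespace Pool.Agent.MP8bT

open Finset Polynomial

open scoped Classical

section Star

variable {K V : Type} [Field K] [Fintype K] [AddCommGroup V] [Module K V] [Fintype V]

private theorem ab_card (W : Submodule K V) :
    (univ.filter fun v : V => v ∈ W).card = Fintype.card K ^ Module.finrank K W := by
  have h1 : Fintype.card W = Fintype.card K ^ Module.finrank K W := Module.card_eq_pow_finrank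
  rw [← h1, Fintype.card_subtype]

private theorem ab_star {k : ℕ} {D : Finset (Submodule K V)}
    (hk : ∀ U ∈ D, Module.finrank K U = k)
    (hD : ∀ U ∈ D, ∀ W ∈ D, U ≠ W → Module.finrank K ↥(U ⊓ W) ≤ 1) (S : Submodule K V)
    (hS : ∀ U ∈ D, U ≤ S) (e : V) (he : e ≠ 0) :
    (D.filter fun U => e ∈ U).card * (Fintype.card K ^ k - Fintype.card K) ≤
      Fintype.card K ^ Module.finrank K S := by
  have c1 : ∀ U ∈ D.filter (fun U => e ∈ U), Fintype.card K ^ k - Fintype.card K ≤
      (univ.filter fun v : V => v ∈ U ∧ v ∉ Submodule.span K {e}).card := by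
    intro U hU
    obtain ⟨h1, h2⟩ := Finset.mem_filter.1 hU
    have e1 := ab_card U
    rw [hk U h1] at e1
    have e2 := ab_card (Submodule.span K {e})
    rw [finrank_span_singleton he, pow_one] at e2
    have e4 := Finset.card_filter_add_card_filter_not (s := univ.filter fun v : V => v ∈ U)
      (fun v => v ∈ Submodule.span K {e})
    rw [Finset.filter_filter, Finset.filter_filter, e1] at e4
    have e5 : (univ.filter fun v : V => v ∈ U ∧ v ∈ Submodule.span K {e}).card ≤
        (univ.filter fun v : V => v ∈ Submodule.span K {e}).card := by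
      refine Finset.card_le_card fun v hv => ?_
      rw [Finset.mem_filter] at hv ⊢
      exact ⟨hv.1, hv.2.2⟩
    omega
  have c2 : ((D.filter fun U => e ∈ U).biUnion
      fun U => univ.filter fun v : V => v ∈ U ∧ v ∉ Submodule.span K {e}).card =
      ∑ U ∈ D.filter (fun U => e ∈ U),
        (univ.filter fun v : V => v ∈ U ∧ v ∉ Submodule.span K {e}).card := by
    refine Finset.card_biUnion ?_
    intro U hU W hW hUW
    refine Finset.disjoint_left.2 fun v hv hv' => ?_
    obtain ⟨h1, h2⟩ := Finset.mem_filter.1 hU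
    obtain ⟨h3, h4⟩ := Finset.mem_filter.1 hW
    obtain ⟨-, hv1, hv2⟩ := Finset.mem_filter.1 hv
    obtain ⟨-, hv3, -⟩ := Finset.mem_filter.1 hv'
    have h5 := hD U h1 W h3 hUW
    have hli : LinearIndependent K ![(⟨e, h2, h4⟩ : ↥(U ⊓ W)), ⟨v, hv1, hv3⟩] := by
      rw [LinearIndependent.pair_iff]
      intro s t hst
      have hst' : s • e + t • v = 0 := congrArg Subtype.val hst
      have ht : t = 0 := by
        by_contra ht
        apply hv2
        have : v = t⁻¹ • (- (s • e)) := by
          rw [← eq_neg_of_add_eq_zero_right hst', inv_smul_smul₀ ht]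
        rw [this]
        exact Submodule.smul_mem _ _ (Submodule.neg_mem _ (Submodule.smul_mem _ _
          (Submodule.mem_span_singleton_self e)))
      refine ⟨?_, ht⟩
      rw [ht, zero_smul, add_zero] at hst'
      exact (smul_eq_zero.1 hst').resolve_right he
    have h6 := hli.fintype_card_le_finrank
    rw [Fintype.card_fin] at h6
    omega
  have c3 : ((D.filter fun U => e ∈ U).biUnion
      fun U => univ.filter fun v : V => v ∈ U ∧ v ∉ Submodule.span K {e}).card ≤
      (univ.filter fun v : V => v ∈ S).card := by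
    refine Finset.card_le_card ?_
    intro v hv
    obtain ⟨U, hU, hv⟩ := Finset.mem_biUnion.1 hv
    exact Finset.mem_filter.2 ⟨Finset.mem_univ _,
      hS U (Finset.mem_filter.1 hU).1 (Finset.mem_filter.1 hv).2.1⟩
  have c5 := Finset.card_nsmul_le_sum _ _ _ c1
  rw [smul_eq_mul, ← c2] at c5
  rw [← ab_card S]
  exact c5.trans c3

private theorem ab_eq {k : ℕ} {D : Finset (Submodule K V)}
    (hD : ∀ U ∈ D, ∀ W ∈ D, U ≠ W → Module.finrank K ↥(U ⊓ W) ≤ 1)
    (U W : Submodule K V) (hU : U ∈ D) (hW : W ∈ D) (e v : V) (heU : e ∈ U) (heW : e ∈ W)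
    (hvU : v ∈ U) (hvW : v ∈ W) (hli : ∀ s t : K, s • e + t • v = 0 → s = 0 ∧ t = 0) : U = W := by
  by_contra hne
  have h5 := hD U hU W hW hne
  have hli' : LinearIndependent K ![(⟨e, heU, heW⟩ : ↥(U ⊓ W)), ⟨v, hvU, hvW⟩] := by
    rw [LinearIndependent.pair_iff]
    intro s t hst
    exact hli s t (congrArg Subtype.val hst)
  have h6 := hli'.fintype_card_le_finrank
  rw [Fintype.card_fin] at h6
  omega

end Star

/-- A free action. -/
private theorem ab_div {G α : Type} [Group G] [Fintype G] (P : Finset α) (act : G → α → α)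
    (h1 : ∀ x ∈ P, act 1 x = x) (hm : ∀ g h, ∀ x ∈ P, act (g * h) x = act g (act h x))
    (hP : ∀ g, ∀ x ∈ P, act g x ∈ P) (hf : ∀ g, g ≠ 1 → ∀ x ∈ P, act g x ≠ x) :
    Fintype.card G ∣ P.card := by
  let inst : MulAction G {x // x ∈ P} :=
    { smul := fun g x => ⟨act g x, hP g x x.2⟩
      one_smul := fun x => Subtype.ext (h1 x x.2)
      mul_smul := fun g h x => Subtype.ext (hm g h x x.2) }
  have hb := MulAction.sum_card_fixedBy_eq_card_orbits_mul_card_group G {x // x ∈ P}
  rw [Finset.sum_eq_single (1 : G)] at hb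
  · have h2 : Fintype.card (MulAction.fixedBy {x // x ∈ P} (1 : G)) = P.card := by
      rw [← Fintype.card_coe P]
      refine Fintype.card_congr (Equiv.ofBijective (fun x => x.1) ⟨Subtype.val_injective, ?_⟩)
      intro x
      exact ⟨⟨x, one_smul G x⟩, rfl⟩
    rw [← h2, hb]
    exact Dvd.intro_left _ rfl
  · intro g _ hg
    rw [Fintype.card_eq_zero_iff]
    refine ⟨fun x => ?_⟩
    have h3 : g • x.1 = x.1 := x.2
    exact hf g hg x.1.1 x.1.2 (congrArg Subtype.val h3)
  · intro h
    exact absurd (Finset.mem_univ _) h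

private theorem ab_big {L : Type} [Field L] [Fintype L] (h : 2 < Fintype.card L) (y z : L) :
    ∃ w : L, w ≠ y ∧ z - w ≠ y := by
  have h1 : ({y, z - y} : Finset L).card < (univ : Finset L).card :=
    lt_of_le_of_lt Finset.card_le_two (by rw [Finset.card_univ]; exact h)
  obtain ⟨w, _, hw⟩ := Finset.exists_mem_notMem_of_card_lt_card h1
  rw [Finset.mem_insert, Finset.mem_singleton, not_or] at hw
  refine ⟨w, hw.1, ?_⟩
  intro h2
  apply hw.2
  rw [← h2]
  ring

private theorem ab_ar (q Q r p j d A B : ℕ) (hq : 2 ≤ q) (hQ : 2 * (q * q) ≤ Q)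
    (hQA : Q = q * (A + 1)) (hB : B + 1 = q * Q) (hp : p = A * j) (h1 : d * (q - 1) = B * p)
    (h2 : d * (Q - q) = B * A * r) (h3 : r * (Q - q) ≤ Q * Q) : d ≤ Q * Q := by
  have hA0 : 0 < A := by
    rcases Nat.eq_zero_or_pos A with h | h
    · rw [h] at hQA
      nlinarith
    · exact h
  have hB0 : 0 < B := by nlinarith
  have hQq : Q - q = q * A := by
    rw [hQA]
    have : q * (A + 1) = q * A + q := by ring
    omega
  rw [hQq] at h2 h3
  obtain ⟨m, rfl⟩ : ∃ m, q = m + 1 := ⟨q - 1, by omega⟩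
  have e1 : m + 1 - 1 = m := by omega
  rw [e1] at h1
  have h4 : d * (m + 1) = B * r := by
    refine Nat.eq_of_mul_eq_mul_right hA0 ?_
    calc d * (m + 1) * A = d * ((m + 1) * A) := by ring
      _ = B * A * r := h2
      _ = B * r * A := by ring
  have h5 : r * m = j * (m + 1) * A := by
    refine Nat.eq_of_mul_eq_mul_left hB0 ?_
    calc B * (r * m) = (B * r) * m := by ring
      _ = d * (m + 1) * m := by rw [h4]
      _ = (d * m) * (m + 1) := by ring
      _ = B * p * (m + 1) := by rw [h1]
      _ = B * (j * (m + 1) * A) := by rw [hp]; ring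
  have hj : j ≤ m := by
    by_contra hj
    push Not at hj
    have h6 : (m + 1) * (m + 1) * A ≤ r * m := by
      rw [h5]
      gcongr
      exact hj
    have h7 : (m + 1) * (m + 1) * A * ((m + 1) * A) ≤ m * (Q * Q) := by
      calc (m + 1) * (m + 1) * A * ((m + 1) * A) ≤ r * m * ((m + 1) * A) :=
            Nat.mul_le_mul_right _ h6
        _ = m * (r * ((m + 1) * A)) := by ring
        _ ≤ m * (Q * Q) := Nat.mul_le_mul_left _ h3
    rw [hQA] at h7 hQ
    have h8 : 2 * (m + 1) ≤ A + 1 := by
      have : (m + 1) * (2 * (m + 1)) ≤ (m + 1) * (A + 1) := by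
        calc (m + 1) * (2 * (m + 1)) = 2 * ((m + 1) * (m + 1)) := by ring
          _ ≤ _ := hQ
      exact Nat.le_of_mul_le_mul_left this (by omega)
    have h9 : (m + 1) * (m + 1) * ((m + 1) * (A * A)) ≤
        (m + 1) * (m + 1) * (m * ((A + 1) * (A + 1))) := by
      calc (m + 1) * (m + 1) * ((m + 1) * (A * A)) =
            (m + 1) * (m + 1) * A * ((m + 1) * A) := by ring
        _ ≤ _ := h7
        _ = _ := by ring
    have h10 := Nat.le_of_mul_le_mul_left h9 (by positivity)
    nlinarith
  have h11 : d * m ≤ (Q * Q) * m := by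
    calc d * m = B * p := h1
      _ = B * A * j := by rw [hp]; ring
      _ ≤ B * A * m := Nat.mul_le_mul_left _ hj
      _ ≤ (Q * Q) * m := by
        refine Nat.mul_le_mul_right _ ?_
        calc B * A ≤ ((m + 1) * Q) * A := Nat.mul_le_mul_right _ (by omega)
          _ = Q * ((m + 1) * A) := by ring
          _ ≤ Q * Q := by
            refine Nat.mul_le_mul_left _ ?_
            rw [hQA]
            gcongr
            omega
  exact Nat.le_of_mul_le_mul_right h11 (by omega)

theorem tAb : S_Ab := by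
  intro K M N _ _ _ _ _ _ _ _ k D hk4 hM hN hD
  obtain ⟨hDk, hDi, hDu⟩ := hD
  have hfr : Module.finrank K (M × N) = 2 * k := by
    rw [Module.finrank_prod, hM]
    omega
  obtain ⟨q, hq⟩ : ∃ q, q = Fintype.card K := ⟨_, rfl⟩
  have hq2 : 2 ≤ q := by
    rw [hq]
    exact Fintype.one_lt_card
  have hNc : Fintype.card N = q ^ (k - 1) := by
    rw [Module.card_eq_pow_finrank (K := K) (V := N), ← hq]
    congr 1
    omega
  have hMc : Fintype.card M = q ^ (k + 1) := by
    rw [Module.card_eq_pow_finrank (K := K) (V := M), ← hq, hM]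
  have hN2 : 2 < Fintype.card N := by
    rw [hNc]
    have h1 : 2 ^ 3 ≤ 2 ^ (k - 1) := Nat.pow_le_pow_right (by norm_num) (by omega)
    have h2 : 2 ^ (k - 1) ≤ q ^ (k - 1) := Nat.pow_le_pow_left hq2 _
    omega
  obtain ⟨f, hf⟩ : ∃ f : M → N → (M × N) →ₗ[K] (M × N),
      ∀ a b v, f a b v = (a * v.1, b * v.2) :=
    ⟨fun a b => LinearMap.mulLeft K ((a, b) : M × N), fun a b v => rfl⟩
  have hfD : ∀ a b, a ≠ 0 → b ≠ 0 → ∀ U ∈ D, U.map (f a b) ∈ D := by
    intro a b ha hb U hU
    have h1 := hDu ((a, b) : M × N) (Prod.isUnit_iff.2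
      ⟨isUnit_iff_ne_zero.2 ha, isUnit_iff_ne_zero.2 hb⟩) U hU
    have h2 : LinearMap.mulLeft K ((a, b) : M × N) = f a b := by
      refine LinearMap.ext fun v => ?_
      rw [hf]
      rfl
    rwa [h2] at h1
  obtain ⟨A₁, hA₁⟩ : ∃ A₁ : Submodule K (M × N), A₁ = LinearMap.ker (LinearMap.snd K M N) :=
    ⟨_, rfl⟩
  obtain ⟨A₂, hA₂⟩ : ∃ A₂ : Submodule K (M × N), A₂ = LinearMap.ker (LinearMap.fst K M N) :=
    ⟨_, rfl⟩
  have m1 : ∀ v : M × N, v ∈ A₁ ↔ v.2 = 0 := by
    intro v
    rw [hA₁]
    exact Iff.rfl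
  have m2 : ∀ v : M × N, v ∈ A₂ ↔ v.1 = 0 := by
    intro v
    rw [hA₂]
    exact Iff.rfl
  have d1 : Module.finrank K A₁ = k + 1 := by
    have h1 := LinearMap.finrank_range_add_finrank_ker (LinearMap.snd K M N)
    rw [LinearMap.range_eq_top.2 LinearMap.snd_surjective, finrank_top, ← hA₁, hfr] at h1
    omega
  have d2 : Module.finrank K A₂ + 1 = k := by
    have h1 := LinearMap.finrank_range_add_finrank_ker (LinearMap.fst K M N)
    rw [LinearMap.range_eq_top.2 LinearMap.fst_surjective, finrank_top, ← hA₂, hfr, hM] at h1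
    omega
  have hUA1 : ∀ U ∈ D, 1 ≤ Module.finrank K ↥(U ⊓ A₁) := by
    intro U hU
    have h1 := Submodule.finrank_sup_add_finrank_inf_eq U A₁
    have h2 := Submodule.finrank_le (U ⊔ A₁)
    rw [hDk U hU, d1] at h1
    rw [hfr] at h2
    omega
  -- invariance under the first factor
  have hinv1 : ∀ U : Submodule K (M × N), (∀ a : M, a ≠ 0 → U.map (f a 1) = U) →
      ∀ s : M, s ≠ 0 → ((s, 0) : M × N) ∈ U → A₁ ≤ U := by
    intro U hU s hs hsU v hv
    rw [m1] at hv
    by_cases hv1 : v.1 = 0
    · have : v = 0 := Prod.ext hv1 hv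
      rw [this]
      exact U.zero_mem
    · have h1 := hU (v.1 / s) (div_ne_zero hv1 hs)
      rw [← h1]
      refine ⟨(s, 0), hsU, ?_⟩
      rw [hf]
      refine Prod.ext ?_ ?_
      · change v.1 / s * s = v.1
        exact div_mul_cancel₀ _ hs
      · change (1 : N) * 0 = v.2
        rw [mul_zero, hv]
  have hdiff : ∀ U : Submodule K (M × N), ∀ b : N, U.map (f 1 b) = U → ∀ v ∈ U,
      ((0, (1 - b) * v.2) : M × N) ∈ U := by
    intro U b hU v hv
    have h1 : f 1 b v ∈ U := by
      rw [← hU]
      exact ⟨v, hv, rfl⟩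
    have h2 := U.sub_mem hv h1
    rw [hf] at h2
    have h3 : v - (1 * v.1, b * v.2) = ((0, (1 - b) * v.2) : M × N) := by
      refine Prod.ext ?_ ?_
      · change v.1 - 1 * v.1 = 0
        ring
      · change v.2 - b * v.2 = (1 - b) * v.2
        ring
    rwa [h3] at h2
  -- (1)
  have h1 : ∀ U ∈ D, Module.finrank K ↥(U ⊓ A₁) = 1 := by
    intro U hU
    by_contra hne
    have h2 : 2 ≤ Module.finrank K ↥(U ⊓ A₁) := by
      have := hUA1 U hU
      omega
    have hfix : ∀ b : N, b ≠ 0 → U.map (f 1 b) = U := by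
      intro b hb
      by_contra hne'
      have h3 := hDi _ (hfD 1 b one_ne_zero hb U hU) U hU hne'
      have h4 : U ⊓ A₁ ≤ U.map (f 1 b) ⊓ U := by
        intro x hx
        refine ⟨⟨x, hx.1, ?_⟩, hx.1⟩
        have h5 := (m1 x).1 hx.2
        rw [hf, h5, mul_zero, one_mul]
        exact Prod.ext rfl h5.symm
      have h5 := Submodule.finrank_mono h4
      omega
    by_cases hy : ∃ v ∈ U, v.2 ≠ 0
    · obtain ⟨v, hv, hv0⟩ := hy
      have h3 : ∀ z : N, z ≠ v.2 → ((0, z) : M × N) ∈ U := by
        intro z hz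
        have h4 : (1 - z / v.2) ≠ 0 := by
          intro h
          rw [sub_eq_zero, eq_comm, div_eq_one_iff_eq hv0] at h
          exact hz h
        have h5 := hdiff U _ (hfix _ h4) v hv
        have h6 : (1 - (1 - z / v.2)) * v.2 = z := by
          field_simp
          ring
        rwa [h6] at h5
      have h4 : A₂ ≤ U := by
        intro x hx
        rw [m2] at hx
        obtain ⟨w, hw1, hw2⟩ := ab_big hN2 v.2 x.2
        have h5 := U.add_mem (h3 w hw1) (h3 _ hw2)
        have h6 : ((0, w) : M × N) + (0, x.2 - w) = x := by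
          refine Prod.ext ?_ ?_
          · change (0 : M) + 0 = x.1
            rw [add_zero, hx]
          · change w + (x.2 - w) = x.2
            ring
        rwa [h6] at h5
      have h5 := Submodule.finrank_sup_add_finrank_inf_eq (U ⊓ A₁) A₂
      have h6 : (U ⊓ A₁) ⊓ A₂ = ⊥ := by
        rw [eq_bot_iff]
        intro x hx
        rw [Submodule.mem_bot]
        exact Prod.ext ((m2 x).1 hx.2) ((m1 x).1 hx.1.2)
      have h7 : (U ⊓ A₁) ⊔ A₂ ≤ U := sup_le inf_le_left h4
      have h8 := Submodule.finrank_mono h7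
      rw [h6, finrank_bot] at h5
      rw [hDk U hU] at h8
      omega
    · push Not at hy
      have h3 : U ≤ A₁ := fun v hv => (m1 v).2 (hy v hv)
      have h4 : ∀ a : M, a ≠ 0 → U.map (f a 1) = U := by
        intro a ha
        by_contra hne'
        have h5 := hfD a 1 ha one_ne_zero U hU
        have h6 := hDi _ h5 U hU hne'
        have h7 := Submodule.finrank_sup_add_finrank_inf_eq (U.map (f a 1)) U
        have h8 : U.map (f a 1) ⊔ U ≤ A₁ := by
          refine sup_le ?_ h3
          rintro _ ⟨v, hv, rfl⟩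
          rw [m1, hf]
          change (1 : N) * v.2 = 0
          rw [hy v hv, mul_zero]
        have h9 := Submodule.finrank_mono h8
        rw [hDk _ h5, hDk U hU] at h7
        rw [d1] at h9
        omega
      obtain ⟨v, hv, hv0⟩ : ∃ v ∈ U, v ≠ 0 := by
        by_contra hno
        push Not at hno
        have : U = ⊥ := by
          rw [eq_bot_iff]
          intro v hv
          rw [Submodule.mem_bot]
          exact hno v hv
        have h5 := hDk U hU
        rw [this, finrank_bot] at h5
        omega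
      have hv1 : v.1 ≠ 0 := fun h => hv0 (Prod.ext h (hy v hv))
      have h5 := hinv1 U h4 v.1 hv1 (by
        have : ((v.1, 0) : M × N) = v := Prod.ext rfl (hy v hv).symm
        rw [this]
        exact hv)
      have h6 := Submodule.finrank_mono h5
      rw [d1, hDk U hU] at h6
      omega
  have hs : ∀ U ∈ D, ∃ s : M, s ≠ 0 ∧ ((s, 0) : M × N) ∈ U := by
    intro U hU
    by_contra hno
    push Not at hno
    have : U ⊓ A₁ = ⊥ := by
      rw [eq_bot_iff]
      intro v hv
      rw [Submodule.mem_bot]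
      have h2 := (m1 v).1 hv.2
      by_contra hv0
      have hv1 : v.1 ≠ 0 := fun h => hv0 (Prod.ext h h2)
      refine hno v.1 hv1 ?_
      have : ((v.1, 0) : M × N) = v := Prod.ext rfl h2.symm
      rw [this]
      exact hv.1
    have h2 := h1 U hU
    rw [this, finrank_bot] at h2
    omega
  have hsur : ∀ U ∈ D, ∀ y : N, ∃ x : M, ((x, y) : M × N) ∈ U := by
    intro U hU
    have h2 := LinearMap.finrank_range_add_finrank_ker ((LinearMap.snd K M N).domRestrict U)
    have e2 : Module.finrank K (LinearMap.ker ((LinearMap.snd K M N).domRestrict U)) ≤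
        Module.finrank K ↥(U ⊓ A₁) := by
      rw [LinearEquiv.finrank_eq ((Submodule.equivSubtypeMap U
        (LinearMap.ker ((LinearMap.snd K M N).domRestrict U))))]
      refine Submodule.finrank_mono ?_
      rintro _ ⟨v, hv, rfl⟩
      exact ⟨v.2, (m1 _).2 (by simpa using hv)⟩
    rw [h1 U hU] at e2
    rw [hDk U hU] at h2
    have h3 := Submodule.finrank_le (LinearMap.range ((LinearMap.snd K M N).domRestrict U))
    have h4 : LinearMap.range ((LinearMap.snd K M N).domRestrict U) = ⊤ :=
      Submodule.eq_top_of_finrank_eq (by omega)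
    intro y
    obtain ⟨v, hv⟩ := LinearMap.range_eq_top.1 h4 y
    refine ⟨(v : M × N).1, ?_⟩
    have h5 : (((v : M × N).1, y) : M × N) = (v : M × N) := Prod.ext rfl hv.symm
    rw [h5]
    exact v.2
  -- (2)
  have h2 : ∀ U ∈ D, ∀ b : N, b ≠ 1 → U.map (f 1 b) ≠ U := by
    intro U hU b hb h
    have hb1 : 1 - b ≠ 0 := sub_ne_zero.2 hb.symm
    have h3 : A₂ ≤ U := by
      intro x hx
      rw [m2] at hx
      obtain ⟨z, hz⟩ := hsur U hU (x.2 / (1 - b))
      have h4 := hdiff U b h _ hz
      have h5 : ((0, (1 - b) * (x.2 / (1 - b))) : M × N) = x := by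
        refine Prod.ext hx.symm ?_
        change (1 - b) * (x.2 / (1 - b)) = x.2
        exact mul_div_cancel₀ _ hb1
      rwa [h5] at h4
    have h4 : ∀ a : M, a ≠ 0 → U.map (f a 1) = U := by
      intro a ha
      by_contra hne
      have h5 := hDi _ (hfD a 1 ha one_ne_zero U hU) U hU hne
      have h6 : A₂ ≤ U.map (f a 1) ⊓ U := by
        intro x hx
        refine ⟨⟨x, h3 hx, ?_⟩, h3 hx⟩
        rw [m2] at hx
        rw [hf, hx, mul_zero, one_mul]
        exact Prod.ext hx.symm rfl
      have h7 := Submodule.finrank_mono h6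
      omega
    obtain ⟨s, hs0, hsU⟩ := hs U hU
    have h5 : A₁ ≤ U ⊓ A₁ := le_inf (hinv1 U h4 s hs0 hsU) le_rfl
    have h6 := Submodule.finrank_mono h5
    rw [d1, h1 U hU] at h6
    omega
  -- (3)
  have h3 : ∀ U ∈ D, ∀ y : N, ((0, y) : M × N) ∈ U → y = 0 := by
    intro U hU y hy
    by_contra hy0
    obtain ⟨s, hs0, hsU⟩ := hs U hU
    obtain ⟨w, hw⟩ : ∃ w : N, w ∉ Submodule.span K {y} := by
      by_contra hno
      push Not at hno
      have h4 : Submodule.span K {y} = ⊤ := by
        rw [eq_top_iff]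
        intro w _
        exact hno w
      have h5 := finrank_span_singleton (K := K) hy0
      rw [h4, finrank_top] at h5
      omega
    have hw0 : w ≠ 0 := by
      rintro rfl
      exact hw (Submodule.zero_mem _)
    have hwy : w + y ≠ 0 := by
      intro h
      apply hw
      rw [eq_neg_of_add_eq_zero_left h]
      exact Submodule.neg_mem _ (Submodule.mem_span_singleton_self y)
    obtain ⟨u, hu⟩ := hsur U hU w
    obtain ⟨b, hb⟩ : ∃ b, b = (w + y) / w := ⟨_, rfl⟩
    have hb0 : b ≠ 0 := by rw [hb]; exact div_ne_zero hwy hw0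
    have hb1 : b ≠ 1 := by
      intro h
      rw [hb, div_eq_one_iff_eq hw0] at h
      exact hy0 (by
        have := sub_eq_zero.2 h
        have e : w + y - w = y := by ring
        rwa [e] at this)
    have huw : ((u, w + y) : M × N) ∈ U := by
      have h4 := U.add_mem hu hy
      have h5 : ((u, w) : M × N) + (0, y) = (u, w + y) := by
        rw [Prod.mk_add_mk, add_zero]
      rwa [h5] at h4
    refine h2 U hU b hb1 ?_
    refine ab_eq (k := k) hDi _ _ (hfD 1 b one_ne_zero hb0 U hU) hU (s, 0) (u, w + y) ?_ hsU ?_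
      huw ?_
    · refine ⟨(s, 0), hsU, ?_⟩
      rw [hf]
      refine Prod.ext ?_ ?_
      · change 1 * s = s
        rw [one_mul]
      · change b * 0 = 0
        rw [mul_zero]
    · refine ⟨(u, w), hu, ?_⟩
      rw [hf]
      refine Prod.ext ?_ ?_
      · change 1 * u = u
        rw [one_mul]
      · change b * w = w + y
        rw [hb, div_mul_cancel₀ _ hw0]
    · intro s' t hst
      have e2 : s' • (0 : N) + t • (w + y) = 0 := congrArg Prod.snd hst
      have e1 : s' • s + t • u = 0 := congrArg Prod.fst hst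
      rw [smul_zero, zero_add] at e2
      have ht := (smul_eq_zero.1 e2).resolve_right hwy
      rw [ht, zero_smul, add_zero] at e1
      exact ⟨(smul_eq_zero.1 e1).resolve_right hs0, ht⟩
  -- (4)
  have hc1 : ∀ (a : M) (b : N), a ≠ 0 → b ≠ 0 → ∀ v : M × N,
      (D.filter fun U => v ∈ U).card ≤
        (D.filter fun U => ((a * v.1, b * v.2) : M × N) ∈ U).card := by
    intro a b ha hb v
    refine Finset.card_le_card_of_injOn (fun U => U.map (f a b)) ?_ ?_
    · intro U hU
      obtain ⟨hU1, hU2⟩ := Finset.mem_filter.1 hU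
      exact Finset.mem_coe.2 (Finset.mem_filter.2 ⟨hfD a b ha hb U hU1, ⟨v, hU2, hf a b v⟩⟩)
    · intro U _ W _ h
      refine Submodule.map_injective_of_injective ?_ h
      intro x y hxy
      rw [hf, hf] at hxy
      exact Prod.ext (mul_left_cancel₀ ha (Prod.ext_iff.1 hxy).1)
        (mul_left_cancel₀ hb (Prod.ext_iff.1 hxy).2)
  have hc : ∀ (a : M) (b : N), a ≠ 0 → b ≠ 0 → ∀ v : M × N,
      (D.filter fun U => ((a * v.1, b * v.2) : M × N) ∈ U).card =
      (D.filter fun U => v ∈ U).card := by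
    intro a b ha hb v
    refine le_antisymm ?_ (hc1 a b ha hb v)
    have h4 := hc1 a⁻¹ b⁻¹ (inv_ne_zero ha) (inv_ne_zero hb) (a * v.1, b * v.2)
    have h5 : ((a⁻¹ * (a * v.1), b⁻¹ * (b * v.2)) : M × N) = v := by
      rw [inv_mul_cancel_left₀ ha, inv_mul_cancel_left₀ hb]
    simp only [h5] at h4
    exact h4
  obtain ⟨p, hp⟩ : ∃ p, p = (D.filter fun U => ((1, 0) : M × N) ∈ U).card := ⟨_, rfl⟩
  obtain ⟨r, hr⟩ : ∃ r, r = (D.filter fun U => ((1, 1) : M × N) ∈ U).card := ⟨_, rfl⟩
  have hcA1 := ab_card A₁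
  rw [d1, ← hq] at hcA1
  have e1 : D.card * (q - 1) = (q ^ (k + 1) - 1) * p := by
    obtain ⟨T, hT⟩ : ∃ T : Finset (M × N), T = (univ.filter fun v : M × N => v ∈ A₁).erase 0 :=
      ⟨_, rfl⟩
    have b1 := Finset.sum_card_bipartiteAbove_eq_sum_card_bipartiteBelow (s := D) (t := T)
      (fun (U : Submodule K (M × N)) (v : M × N) => v ∈ U)
    have b2 : ∀ U ∈ D,
        (T.bipartiteAbove (fun (U : Submodule K (M × N)) (v : M × N) => v ∈ U) U).card = q - 1 := by
      intro U hU
      have c1 := ab_card (U ⊓ A₁)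
      rw [h1 U hU, pow_one, ← hq] at c1
      have c2 : T.bipartiteAbove (fun (U : Submodule K (M × N)) (v : M × N) => v ∈ U) U =
          (univ.filter fun v : M × N => v ∈ U ⊓ A₁).erase 0 := by
        ext v
        rw [Finset.bipartiteAbove, hT, Finset.mem_filter, Finset.mem_erase, Finset.mem_erase,
          Finset.mem_filter, Finset.mem_filter, Submodule.mem_inf]
        tauto
      rw [c2, Finset.card_erase_of_mem (Finset.mem_filter.2 ⟨Finset.mem_univ _,
        Submodule.zero_mem _⟩), c1]
    have b3 : ∀ v ∈ T,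
        (D.bipartiteBelow (fun (U : Submodule K (M × N)) (v : M × N) => v ∈ U) v).card = p := by
      intro v hv
      rw [hT, Finset.mem_erase, Finset.mem_filter, m1] at hv
      have hv1 : v.1 ≠ 0 := fun h => hv.1 (Prod.ext h hv.2.2)
      have c1 := hc v.1 1 hv1 one_ne_zero (1, 0)
      have c2 : ((v.1 * 1, 1 * 0) : M × N) = v := by
        rw [mul_one, one_mul]
        exact Prod.ext rfl hv.2.2.symm
      simp only [c2] at c1
      rw [Finset.bipartiteBelow, c1, hp]
    rw [Finset.sum_congr rfl b2, Finset.sum_congr rfl b3, Finset.sum_const, Finset.sum_const,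
      smul_eq_mul, smul_eq_mul] at b1
    rw [b1, hT, Finset.card_erase_of_mem (Finset.mem_filter.2 ⟨Finset.mem_univ _,
        Submodule.zero_mem _⟩), hcA1]
  have e2 : D.card * (q ^ k - q) = (q ^ (k + 1) - 1) * (q ^ (k - 1) - 1) * r := by
    obtain ⟨T, hT⟩ : ∃ T : Finset (M × N), T = (univ.filter fun x : M => x ≠ 0) ×ˢ
      (univ.filter fun y : N => y ≠ 0) := ⟨_, rfl⟩
    have hTm : ∀ v : M × N, v ∈ T ↔ v.1 ≠ 0 ∧ v.2 ≠ 0 := by
      intro v
      rw [hT, Finset.mem_product, Finset.mem_filter, Finset.mem_filter]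
      simp
    have b1 := Finset.sum_card_bipartiteAbove_eq_sum_card_bipartiteBelow (s := D) (t := T)
      (fun (U : Submodule K (M × N)) (v : M × N) => v ∈ U)
    have b2 : ∀ U ∈ D,
        (T.bipartiteAbove (fun (U : Submodule K (M × N)) (v : M × N) => v ∈ U) U).card =
          q ^ k - q := by
      intro U hU
      have c1 := ab_card (U ⊓ A₁)
      rw [h1 U hU, pow_one, ← hq] at c1
      have c3 := ab_card U
      rw [hDk U hU, ← hq] at c3
      have c2 : T.bipartiteAbove (fun (U : Submodule K (M × N)) (v : M × N) => v ∈ U) U =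
          (univ.filter fun v : M × N => v ∈ U) \ (univ.filter fun v : M × N => v ∈ U ⊓ A₁) := by
        ext v
        rw [Finset.bipartiteAbove, Finset.mem_filter, hTm, Finset.mem_sdiff,
          Finset.mem_filter, Finset.mem_filter, Submodule.mem_inf, m1]
        constructor
        · rintro ⟨⟨g1, g2⟩, g3⟩
          exact ⟨⟨Finset.mem_univ _, g3⟩, fun h => g2 h.2.2⟩
        · rintro ⟨⟨-, g3⟩, g4⟩
          have g2 : v.2 ≠ 0 := fun h => g4 ⟨Finset.mem_univ _, g3, h⟩
          refine ⟨⟨fun h => g2 ?_, g2⟩, g3⟩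
          refine h3 U hU v.2 ?_
          have : ((0, v.2) : M × N) = v := Prod.ext h.symm rfl
          rw [this]
          exact g3
      rw [c2, Finset.card_sdiff_of_subset, c1, c3]
      intro v hv
      rw [Finset.mem_filter] at hv ⊢
      exact ⟨hv.1, hv.2.1⟩
    have b3 : ∀ v ∈ T,
        (D.bipartiteBelow (fun (U : Submodule K (M × N)) (v : M × N) => v ∈ U) v).card = r := by
      intro v hv
      rw [hTm] at hv
      have c1 := hc v.1 v.2 hv.1 hv.2 (1, 1)
      have c2 : ((v.1 * 1, v.2 * 1) : M × N) = v := by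
        rw [mul_one, mul_one]
      simp only [c2] at c1
      rw [Finset.bipartiteBelow, c1, hr]
    have b4 : T.card = (q ^ (k + 1) - 1) * (q ^ (k - 1) - 1) := by
      rw [hT, Finset.card_product, Finset.filter_ne', Finset.filter_ne',
        Finset.card_erase_of_mem (Finset.mem_univ _), Finset.card_erase_of_mem (Finset.mem_univ _),
        Finset.card_univ, Finset.card_univ, hMc, hNc]
    rw [Finset.sum_congr rfl b2, Finset.sum_congr rfl b3, Finset.sum_const, Finset.sum_const,
      smul_eq_mul, smul_eq_mul, b4] at b1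
    exact b1
  have e3 : r * (q ^ k - q) ≤ q ^ k * q ^ k := by
    have b1 := ab_star (D := D) (k := k) hDk hDi ⊤ (fun U _ => le_top) ((1, 1) : M × N) (by
      intro h
      exact one_ne_zero (congrArg Prod.fst h))
    rw [finrank_top, hfr, ← hq, ← hr, two_mul, pow_add] at b1
    exact b1
  obtain ⟨j, hj⟩ : q ^ (k - 1) - 1 ∣ p := by
    have b1 := ab_div (G := Nˣ) (D.filter fun U => ((1, 0) : M × N) ∈ U)
      (fun g U => U.map (f 1 (g : N))) (fun U _ => ?_) (fun g h U _ => ?_) (fun g U hU => ?_)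
      (fun g hg U hU => ?_)
    · rw [Fintype.card_units, hNc, ← hp] at b1
      exact b1
    · have : f 1 ((1 : Nˣ) : N) = LinearMap.id := by
        refine LinearMap.ext fun v => ?_
        rw [hf, Units.val_one, one_mul, one_mul]
        rfl
      rw [this, Submodule.map_id]
    · rw [← Submodule.map_comp]
      congr 1
      refine LinearMap.ext fun v => ?_
      rw [LinearMap.comp_apply, hf, hf, hf, Units.val_mul]
      simp only [one_mul, mul_assoc]
    · obtain ⟨hU1, hU2⟩ := Finset.mem_filter.1 hU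
      refine Finset.mem_filter.2 ⟨hfD 1 _ one_ne_zero g.ne_zero U hU1, ⟨(1, 0), hU2, ?_⟩⟩
      rw [hf]
      refine Prod.ext ?_ ?_
      · change (1 : M) * 1 = 1
        rw [one_mul]
      · change (g : N) * 0 = 0
        rw [mul_zero]
    · obtain ⟨hU1, -⟩ := Finset.mem_filter.1 hU
      exact h2 U hU1 g (fun h => hg (Units.ext h))
  rw [← hq, two_mul, pow_add]
  have hkk : q ^ k = q * q ^ (k - 1) := by
    rw [← pow_succ']
    congr 1
    omega
  have hpos : 1 ≤ q ^ (k - 1) := Nat.one_le_pow _ _ (by omega)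
  refine ab_ar q (q ^ k) r p j D.card (q ^ (k - 1) - 1) (q ^ (k + 1) - 1) hq2 ?_ ?_ ?_ hj e1 e2 e3
  · have b1 : q ^ 4 ≤ q ^ k := Nat.pow_le_pow_right (by omega) hk4
    have b2 : 2 * 2 * (q * q) ≤ q ^ 4 := by
      have : q ^ 4 = q * q * (q * q) := by ring
      rw [this]
      gcongr
    omega
  · rw [Nat.sub_add_cancel hpos, hkk]
  · have : 1 ≤ q ^ (k + 1) := Nat.one_le_pow _ _ (by omega)
    rw [Nat.sub_add_cancel this, pow_succ']

end Pool.Agent.MP8bT
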