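import Pool.Agent.Lib.MP_8b575b_co.Tor.SpecC

/-! # MP_8b575b_co, Tor/Ac: assembly for all maximal tori (helper56) -/

set_option autoImplicit false

namespace Pool.Agent.MP8bT

open Finset Polynomial

open scoped Classical

/-- finite extensions of the same degree are isomorphic -/
private theorem Ac_iso (K L L' : Type) [Field K] [Fintype K] [Field L] [Fintype L] [Algebra K L]
    [Field L'] [Fintype L'] [Algebra K L'] (h : Module.finrank K L = Module.finrank K L') :
    Nonempty (L ≃ₐ[K] L') := by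
  have h1 : Fintype.card L = Fintype.card L' := by
    rw [Module.card_eq_pow_finrank (K := K) (V := L), Module.card_eq_pow_finrank (K := K) (V := L'),
      h]
  have i1 : IsSplittingField K L (X ^ Fintype.card L - X) := FiniteField.isSplittingField_sub L K
  have i2 : IsSplittingField K L' (X ^ Fintype.card L - X) := by
    rw [h1]
    exact FiniteField.isSplittingField_sub L' K
  exact ⟨(IsSplittingField.algEquiv L (X ^ Fintype.card L - X : K[X])).trans
    (IsSplittingField.algEquiv L' (X ^ Fintype.card L - X : K[X])).symm⟩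

variable {K ι : Type} [Field K] [Fintype K] [Fintype ι] {F : ι → Type} [∀ i, Field (F i)]
    [∀ i, Fintype (F i)] [∀ i, Algebra K (F i)]

omit [Fintype K] [Fintype ι] [∀ i, Fintype (F i)] in
private theorem Ac_one (i₀ : ι) (h : ∀ j, j = i₀) : Nonempty ((∀ i, F i) ≃ₐ[K] F i₀) := by
  refine ⟨AlgEquiv.ofBijective (Pi.evalAlgHom K F i₀) ⟨?_, ?_⟩⟩
  · intro x y hxy
    funext j
    rw [h j]
    exact hxy
  · intro x
    exact ⟨Pi.single i₀ x, Pi.single_eq_same i₀ x⟩

omit [Fintype K] [Fintype ι] [∀ i, Fintype (F i)] in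
private theorem Ac_two (i₀ i₁ : ι) (hne : i₀ ≠ i₁) (h : ∀ j, j = i₀ ∨ j = i₁) :
    Nonempty ((∀ i, F i) ≃ₐ[K] F i₁ × F i₀) := by
  refine ⟨AlgEquiv.ofBijective ((Pi.evalAlgHom K F i₁).prod (Pi.evalAlgHom K F i₀)) ⟨?_, ?_⟩⟩
  · intro x y hxy
    have h1 : x i₁ = y i₁ := congrArg Prod.fst hxy
    have h0 : x i₀ = y i₀ := congrArg Prod.snd hxy
    funext j
    rcases h j with rfl | rfl
    · exact h0
    · exact h1
  · rintro ⟨x, y⟩
    refine ⟨Pi.single i₁ x + Pi.single i₀ y, ?_⟩
    refine Prod.ext ?_ ?_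
    · show (Pi.single i₁ x + Pi.single i₀ y : ∀ i, F i) i₁ = x
      rw [Pi.add_apply, Pi.single_eq_same, Pi.single_eq_of_ne hne.symm, add_zero]
    · show (Pi.single i₁ x + Pi.single i₀ y : ∀ i, F i) i₀ = y
      rw [Pi.add_apply, Pi.single_eq_same, Pi.single_eq_of_ne hne, zero_add]

theorem tAc : Pool.Agent.MP8b.S_Fie → S_Tg → S_Tr → S_Aa → S_Ab → S_Ac := by
  intro hFie hTg hTr hAa hAb K ι _ _ _ F _ _ _ k hk hfin hF2 D hD1 hD2 hD3
  have hCd : Cd k D := by
    refine ⟨hD1, hD2, fun a ha U hU => hD3 a (fun i => ?_) U hU⟩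
    exact ((Pi.isUnit_iff.1 ha) i).ne_zero
  have hsum : ∑ i, Module.finrank K (F i) = 2 * k := by
    rw [← hfin]
    exact (Module.finrank_pi_fintype K).symm
  have hne : Nonempty ι := by
    by_contra h
    rw [not_nonempty_iff] at h
    rw [Finset.univ_eq_empty, Finset.sum_empty] at hsum
    omega
  obtain ⟨i₀, hi₀⟩ := Finite.exists_min (fun i => Module.finrank K (F i))
  by_cases hA : Module.finrank K (F i₀) + 2 ≤ k
  · have h1 := hAa K ι F k i₀ D hk hfin (hF2 i₀) hA hCd
    omega
  have hB : ∀ i, k - 1 ≤ Module.finrank K (F i) := by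
    intro i
    have := hi₀ i
    omega
  have hcard : Fintype.card ι ≤ 2 := by
    by_contra h
    have h1 : Fintype.card ι * (k - 1) ≤ 2 * k := by
      rw [← hsum]
      have h2 := Finset.card_nsmul_le_sum (univ : Finset ι) (fun i => Module.finrank K (F i))
        (k - 1) (fun i _ => hB i)
      rwa [smul_eq_mul, Finset.card_univ] at h2
    have h3 : 3 * (k - 1) ≤ Fintype.card ι * (k - 1) := Nat.mul_le_mul_right _ (by omega)
    omega
  by_cases hone : ∀ j, j = i₀
  · obtain ⟨φ⟩ := Ac_one (K := K) (F := F) i₀ hone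
    obtain ⟨D', hD', hc⟩ := hTr K _ _ k φ D hCd
    rw [← hc]
    have hfr : Module.finrank K (F i₀) = 2 * k := by
      rw [← φ.toLinearEquiv.finrank_eq, hfin]
    have hcF : Fintype.card (F i₀) = Fintype.card K ^ (2 * k) := by
      rw [← hfr]
      exact Module.card_eq_pow_finrank
    have h1 := hFie K (F i₀) k D' (by omega)
      ⟨hcF, hD'.1, hD'.2.1, fun a ha U hU => hD'.2.2 a ha.isUnit U hU⟩
    omega
  · push Not at hone
    obtain ⟨i₁, hi₁⟩ := hone
    have htwo : ∀ j, j = i₀ ∨ j = i₁ := by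
      intro j
      by_contra hj
      push Not at hj
      have h1 : ({i₀, i₁, j} : Finset ι).card = 3 := by
        rw [Finset.card_eq_three]
        exact ⟨i₀, i₁, j, hi₁.symm, hj.1.symm, hj.2.symm, rfl⟩
      have h2 := Finset.card_le_univ ({i₀, i₁, j} : Finset ι)
      omega
    have hsum2 : Module.finrank K (F i₀) + Module.finrank K (F i₁) = 2 * k := by
      rw [← hsum]
      have h1 : (univ : Finset ι) = {i₀, i₁} := by
        ext j
        simp only [Finset.mem_univ, Finset.mem_insert, Finset.mem_singleton, true_iff]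
        exact htwo j
      rw [h1, Finset.sum_pair hi₁.symm]
    obtain ⟨φ⟩ := Ac_two (K := K) (F := F) i₀ i₁ hi₁.symm htwo
    have hle := hi₀ i₁
    by_cases hk1 : Module.finrank K (F i₀) + 1 = k
    · obtain ⟨D', hD', hc⟩ := hTr K _ _ k φ D hCd
      rw [← hc]
      have h1 := hAb K (F i₁) (F i₀) k D' hk (by omega) hk1 hD'
      omega
    · have hk2 : Module.finrank K (F i₀) = k := by omega
      have hk3 : Module.finrank K (F i₁) = k := by omega
      obtain ⟨ψ⟩ := Ac_iso K (F i₁) (F i₀) (by omega)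
      obtain ⟨D', hD', hc⟩ := hTr K _ _ k
        (φ.trans (AlgEquiv.prodCongr ψ (AlgEquiv.refl (R := K) (A₁ := F i₀)))) D hCd
      rw [← hc]
      refine hTg K (F i₀) k hk hk2 D' hD'.1 hD'.2.1 ?_
      intro a b ha hb U hU
      have h1 := hD'.2.2 (a, b) (Prod.isUnit_iff.2 ⟨ha.isUnit, hb.isUnit⟩) U hU
      exact h1

end Pool.Agent.MP8bT
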