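import Pool.Agent.Lib.MP_8b575b_co.Tor.Spec

set_option autoImplicit false

namespace Pool.Agent.MP8bT

open Finset

open scoped Classical

private theorem Ax_big {L : Type} [Field L] [Fintype L] (h : 2 < Fintype.card L) (y z : L) :
    ∃ w : L, w ≠ y ∧ z - w ≠ y := by
  have h1 : ({y, z - y} : Finset L).card < (univ : Finset L).card :=
    lt_of_le_of_lt Finset.card_le_two (by rw [Finset.card_univ]; exact h)
  obtain ⟨w, _, hw⟩ := Finset.exists_mem_notMem_of_card_lt_card h1
  rw [Finset.mem_insert, Finset.mem_singleton, not_or] at hw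
  refine ⟨w, hw.1, ?_⟩
  intro h2
  apply hw.2
  rw [← h2]
  ring

theorem tAx : S_Ax := by
  intro K L _ _ _ _ _ k D hT U hU
  obtain ⟨hk, hL, hfr, hint, hinv⟩ := hT
  have hU' := Finset.mem_filter.mp hU
  obtain ⟨hUD, hU1, hU2⟩ := hU'
  have hfd : FiniteDimensional K L := inferInstance
  have hcL : 2 < Fintype.card L := by
    rw [Module.card_eq_pow_finrank (K := K) (V := L), hL]
    have h1 : 2 ^ 4 ≤ 2 ^ k := Nat.pow_le_pow_right (by norm_num) hk
    have h2 : 2 ^ k ≤ Fintype.card K ^ k := Nat.pow_le_pow_left Fintype.one_lt_card k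
    omega
  have hax1 : ∀ v : L × L, v ∈ ax1 K L ↔ v.2 = 0 := by
    intro v
    unfold ax1
    rw [LinearMap.mem_range]
    constructor
    · rintro ⟨x, rfl⟩
      rfl
    · intro h
      exact ⟨v.1, Prod.ext rfl h.symm⟩
  have hax2 : ∀ v : L × L, v ∈ ax2 K L ↔ v.1 = 0 := by
    intro v
    unfold ax2
    rw [LinearMap.mem_range]
    constructor
    · rintro ⟨x, rfl⟩
      rfl
    · intro h
      exact ⟨v.2, Prod.ext h.symm rfl⟩
  have hd1 : Module.finrank K (ax1 K L) = k := by
    unfold ax1
    rw [LinearMap.finrank_range_of_inj LinearMap.inl_injective, hL]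
  have hd2 : Module.finrank K (ax2 K L) = k := by
    unfold ax2
    rw [LinearMap.finrank_range_of_inj LinearMap.inr_injective, hL]
  have hsc : ∀ (a b : L) (v : L × L), sc K a b v = (a * v.1, b * v.2) := fun a b v => rfl
  constructor
  · by_contra hcon
    rw [not_le] at hcon
    have hfix : ∀ b : L, b ≠ 0 → U.map (sc K 1 b) = U := by
      intro b hb
      by_contra hne
      have h1 := hint _ (hinv 1 b one_ne_zero hb U hUD) U hUD hne
      have h2 : U ⊓ ax1 K L ≤ U.map (sc K 1 b) ⊓ U := by
        intro x hx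
        refine ⟨⟨x, hx.1, ?_⟩, hx.1⟩
        have h3 := (hax1 x).mp hx.2
        rw [hsc, h3, mul_zero, one_mul]
        exact Prod.ext rfl h3.symm
      have h3 := Submodule.finrank_mono h2
      omega
    obtain ⟨v, hv, hv0⟩ : ∃ v ∈ U, v.2 ≠ 0 := by
      by_contra h
      push Not at h
      apply hU1
      apply Submodule.eq_of_le_of_finrank_eq
      · intro v hv
        exact (hax1 v).mpr (h v hv)
      · rw [hfr U hUD, hd1]
    have hz : ∀ z : L, z ≠ v.2 → ((0, z) : L × L) ∈ U := by
      intro z hz
      have hb : 1 - z / v.2 ≠ 0 := by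
        intro h
        apply hz
        have h4 : z / v.2 = 1 := (sub_eq_zero.mp h).symm
        exact (div_eq_one_iff_eq hv0).mp h4
      have h5 : sc K 1 (1 - z / v.2) v ∈ U := by
        have h6 : sc K 1 (1 - z / v.2) v ∈ U.map (sc K 1 (1 - z / v.2)) := ⟨v, hv, rfl⟩
        rwa [hfix _ hb] at h6
      have h7 := U.sub_mem hv h5
      have h8 : v - sc K 1 (1 - z / v.2) v = (0, z) := by
        rw [hsc]
        apply Prod.ext
        · simp
        · change v.2 - (1 - z / v.2) * v.2 = z
          field_simp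
          ring
      rwa [h8] at h7
    have hle : ax2 K L ≤ U := by
      rintro ⟨x, z⟩ hx
      have h1 : x = 0 := (hax2 _).mp hx
      subst h1
      obtain ⟨w, hw1, hw2⟩ := Ax_big hcL v.2 z
      have h2 := U.add_mem (hz w hw1) (hz (z - w) hw2)
      have h3 : ((0, w) : L × L) + (0, z - w) = (0, z) := by
        apply Prod.ext
        · simp
        · change w + (z - w) = z
          ring
      rwa [h3] at h2
    exact hU2 (Submodule.eq_of_le_of_finrank_eq hle (by rw [hfr U hUD, hd2])).symm
  · by_contra hcon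
    rw [not_le] at hcon
    have hfix : ∀ b : L, b ≠ 0 → U.map (sc K b 1) = U := by
      intro b hb
      by_contra hne
      have h1 := hint _ (hinv b 1 hb one_ne_zero U hUD) U hUD hne
      have h2 : U ⊓ ax2 K L ≤ U.map (sc K b 1) ⊓ U := by
        intro x hx
        refine ⟨⟨x, hx.1, ?_⟩, hx.1⟩
        have h3 := (hax2 x).mp hx.2
        rw [hsc, h3, mul_zero, one_mul]
        exact Prod.ext h3.symm rfl
      have h3 := Submodule.finrank_mono h2
      omega
    obtain ⟨v, hv, hv0⟩ : ∃ v ∈ U, v.1 ≠ 0 := by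
      by_contra h
      push Not at h
      apply hU2
      apply Submodule.eq_of_le_of_finrank_eq
      · intro v hv
        exact (hax2 v).mpr (h v hv)
      · rw [hfr U hUD, hd2]
    have hz : ∀ z : L, z ≠ v.1 → ((z, 0) : L × L) ∈ U := by
      intro z hz
      have hb : 1 - z / v.1 ≠ 0 := by
        intro h
        apply hz
        have h4 : z / v.1 = 1 := (sub_eq_zero.mp h).symm
        exact (div_eq_one_iff_eq hv0).mp h4
      have h5 : sc K (1 - z / v.1) 1 v ∈ U := by
        have h6 : sc K (1 - z / v.1) 1 v ∈ U.map (sc K (1 - z / v.1) 1) := ⟨v, hv, rfl⟩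
        rwa [hfix _ hb] at h6
      have h7 := U.sub_mem hv h5
      have h8 : v - sc K (1 - z / v.1) 1 v = (z, 0) := by
        rw [hsc]
        apply Prod.ext
        · change v.1 - (1 - z / v.1) * v.1 = z
          field_simp
          ring
        · simp
      rwa [h8] at h7
    have hle : ax1 K L ≤ U := by
      rintro ⟨z, x⟩ hx
      have h1 : x = 0 := (hax1 _).mp hx
      subst h1
      obtain ⟨w, hw1, hw2⟩ := Ax_big hcL v.1 z
      have h2 := U.add_mem (hz w hw1) (hz (z - w) hw2)
      have h3 : ((w, 0) : L × L) + (z - w, 0) = (z, 0) := by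
        apply Prod.ext
        · change w + (z - w) = z
          ring
        · simp
      rwa [h3] at h2
    exact hU1 (Submodule.eq_of_le_of_finrank_eq hle (by rw [hfr U hUD, hd1])).symm

end Pool.Agent.MP8bT
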