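import Pool.Agent.Lib.MP_8b575b_co.Tor.SpecB

/-! MP_8b575b_co, module `Cm`: counting, sharper form. -/

set_option autoImplicit false

namespace Pool.Agent.MP8bT

open Finset Polynomial

open scoped Classical

section aux

variable {K L : Type} [Field K] [Field L] [Algebra K L]

private theorem Cm_sc_apply (a b : L) (v : L × L) : sc K a b v = (a * v.1, b * v.2) := rfl

private theorem Cm_mem_ax1 (v : L × L) : v ∈ ax1 K L ↔ v.2 = 0 := by
  unfold ax1
  rw [LinearMap.mem_range]
  constructor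
  · rintro ⟨x, rfl⟩
    rfl
  · intro h
    refine ⟨v.1, ?_⟩
    rw [LinearMap.inl_apply, ← h]

private theorem Cm_mem_ax2 (v : L × L) : v ∈ ax2 K L ↔ v.1 = 0 := by
  unfold ax2
  rw [LinearMap.mem_range]
  constructor
  · rintro ⟨x, rfl⟩
    rfl
  · intro h
    refine ⟨v.2, ?_⟩
    rw [LinearMap.inr_apply, ← h]

private theorem Cm_sc_inj {a b : L} (ha : a ≠ 0) (hb : b ≠ 0) :
    Function.Injective (sc K a b) := by
  intro v w h
  rw [Cm_sc_apply, Cm_sc_apply] at h
  have h1 := congrArg Prod.fst h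
  have h2 := congrArg Prod.snd h
  exact Prod.ext (mul_left_cancel₀ ha h1) (mul_left_cancel₀ hb h2)

private theorem Cm_map_ax1 {a b : L} (ha : a ≠ 0) :
    (ax1 K L).map (sc K a b) = ax1 K L := by
  ext v
  rw [Submodule.mem_map, Cm_mem_ax1]
  constructor
  · rintro ⟨w, hw, rfl⟩
    rw [Cm_mem_ax1] at hw
    rw [Cm_sc_apply, hw, mul_zero]
  · intro h
    refine ⟨(a⁻¹ * v.1, 0), ?_, ?_⟩
    · rw [Cm_mem_ax1]
    · rw [Cm_sc_apply]
      refine Prod.ext ?_ ?_
      · exact mul_inv_cancel_left₀ ha v.1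
      · change b * 0 = v.2
        rw [mul_zero, h]

private theorem Cm_map_ax2 {a b : L} (hb : b ≠ 0) :
    (ax2 K L).map (sc K a b) = ax2 K L := by
  ext v
  rw [Submodule.mem_map, Cm_mem_ax2]
  constructor
  · rintro ⟨w, hw, rfl⟩
    rw [Cm_mem_ax2] at hw
    rw [Cm_sc_apply, hw, mul_zero]
  · intro h
    refine ⟨(0, b⁻¹ * v.2), ?_, ?_⟩
    · rw [Cm_mem_ax2]
    · rw [Cm_sc_apply]
      refine Prod.ext ?_ ?_
      · change a * 0 = v.1
        rw [mul_zero, h]
      · exact mul_inv_cancel_left₀ hb v.2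

end aux

variable {K L : Type} [Field K] [Fintype K] [Field L] [Fintype L] [Algebra K L]

omit [Fintype K] [Fintype L] in
private theorem Cm_le {k : ℕ} {D : Finset (Submodule K (L × L))} (hT : Tor k D) {a b : L}
    (ha : a ≠ 0) (hb : b ≠ 0) (v : L × L) :
    ((Do D).filter fun U => v ∈ U).card ≤ ((Do D).filter fun U => sc K a b v ∈ U).card := by
  have hinj := Submodule.map_injective_of_injective (Cm_sc_inj (K := K) ha hb)
  apply Finset.card_le_card_of_injOn (fun U => U.map (sc K a b))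
  · intro U hU
    rw [Finset.mem_coe, Finset.mem_filter] at hU
    obtain ⟨hU1, hU2⟩ := hU
    unfold Do at hU1
    rw [Finset.mem_filter] at hU1
    obtain ⟨hD, h1, h2⟩ := hU1
    rw [Finset.mem_coe, Finset.mem_filter]
    refine ⟨?_, Submodule.mem_map_of_mem hU2⟩
    unfold Do
    rw [Finset.mem_filter]
    refine ⟨hT.2.2.2.2 a b ha hb U hD, ?_, ?_⟩
    · intro h
      exact h1 (hinj (h.trans (Cm_map_ax1 ha).symm))
    · intro h
      exact h2 (hinj (h.trans (Cm_map_ax2 hb).symm))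
  · intro U _ W _ h
    exact hinj h

omit [Fintype K] [Fintype L] in
private theorem Cm_eq {k : ℕ} {D : Finset (Submodule K (L × L))} (hT : Tor k D) {a b : L}
    (ha : a ≠ 0) (hb : b ≠ 0) (v : L × L) :
    ((Do D).filter fun U => sc K a b v ∈ U).card = ((Do D).filter fun U => v ∈ U).card := by
  apply le_antisymm _ (Cm_le hT ha hb v)
  have h := Cm_le hT (inv_ne_zero ha) (inv_ne_zero hb) (sc K a b v)
  have h1 : sc K a⁻¹ b⁻¹ (sc K a b v) = v := by
    rw [Cm_sc_apply, Cm_sc_apply]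
    exact Prod.ext (inv_mul_cancel_left₀ ha v.1) (inv_mul_cancel_left₀ hb v.2)
  rwa [h1] at h

omit [Fintype K] [Fintype L] in
private theorem Cm_rr (D : Finset (Submodule K (L × L))) :
    ((Do D).filter fun U => ((1, 1) : L × L) ∈ U).card = rr D := by
  unfold rr Do
  rw [Finset.filter_filter]
  congr 1
  ext U
  rw [Finset.mem_filter, Finset.mem_filter]
  constructor
  · rintro ⟨h1, h2, h3⟩
    exact ⟨h1, h3⟩
  · rintro ⟨h1, h3⟩
    refine ⟨h1, ⟨?_, ?_⟩, h3⟩
    · rintro rfl
      rw [Cm_mem_ax1] at h3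
      exact one_ne_zero h3
    · rintro rfl
      rw [Cm_mem_ax2] at h3
      exact one_ne_zero h3

private theorem Cm_cardU (U : Submodule K (L × L)) :
    (univ.filter fun v : L × L => v ∈ U).card = Fintype.card K ^ Module.finrank K U := by
  rw [← Module.card_eq_pow_finrank (K := K) (V := U), ← Fintype.card_subtype]

private theorem Cm_cardL {k : ℕ} (hk : Module.finrank K L = k) :
    Fintype.card L = Fintype.card K ^ k := by
  rw [← hk]
  exact Module.card_eq_pow_finrank

omit [Fintype K] in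
private theorem Cm_card0 (U : Submodule K (L × L)) :
    (((univ : Finset (L × L)).erase 0).filter fun v => v ∈ U).card + 1 =
      (univ.filter fun v : L × L => v ∈ U).card := by
  have h1 : (((univ : Finset (L × L)).erase 0).filter fun v => v ∈ U) =
      (univ.filter fun v : L × L => v ∈ U).erase 0 := by
    ext v
    rw [Finset.mem_erase, Finset.mem_filter, Finset.mem_filter, Finset.mem_erase]
    exact ⟨fun h => ⟨h.1.1, mem_univ _, h.2⟩, fun h => ⟨⟨h.1, mem_univ _⟩, h.2.2⟩⟩
  rw [h1]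
  exact Finset.card_erase_add_one (Finset.mem_filter.2 ⟨mem_univ _, U.zero_mem⟩)

private theorem Cm_cardNZ {k : ℕ} (hk : Module.finrank K L = k) :
    ((univ : Finset L).erase 0).card = Fintype.card K ^ k - 1 := by
  rw [Finset.card_erase_of_mem (mem_univ _), Finset.card_univ, Cm_cardL (K := K) hk]

private theorem Cm_count (f : L × L → ℕ) (r m₁ m₂ N : ℕ) (hN : ((univ : Finset L).erase 0).card = N)
    (h1 : ∀ x y : L, x ≠ 0 → y ≠ 0 → f (x, y) = r) (h2 : ∀ x : L, x ≠ 0 → f (x, 0) = m₁)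
    (h3 : ∀ y : L, y ≠ 0 → f (0, y) = m₂) :
    ∑ v ∈ (univ : Finset (L × L)).erase 0, f v = N * N * r + N * m₁ + N * m₂ := by
  have hs : ∀ g : L → ℕ, ∑ x, g x = g 0 + ∑ x ∈ (univ : Finset L).erase 0, g x := by
    intro g
    rw [Finset.add_sum_erase _ _ (mem_univ _)]
  have e1 : ∑ v, f v = f 0 + ∑ v ∈ (univ : Finset (L × L)).erase 0, f v := by
    rw [Finset.add_sum_erase _ _ (mem_univ _)]
  have e2 : ∑ v, f v = ∑ x, ∑ y, f (x, y) := Fintype.sum_prod_type f
  have e3 : ∑ x, ∑ y, f (x, y) = (f (0, 0) + N * m₂) + N * (m₁ + N * r) := by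
    rw [hs]
    congr 1
    · rw [hs]
      congr 1
      rw [Finset.sum_congr rfl (fun y hy => h3 y (Finset.ne_of_mem_erase hy)), Finset.sum_const,
        hN, smul_eq_mul]
    · have : ∀ x ∈ (univ : Finset L).erase 0, ∑ y, f (x, y) = m₁ + N * r := by
        intro x hx
        have hx0 := Finset.ne_of_mem_erase hx
        rw [hs, h2 x hx0, Finset.sum_congr rfl (fun y hy => h1 x y hx0 (Finset.ne_of_mem_erase hy)),
          Finset.sum_const, hN, smul_eq_mul]
      rw [Finset.sum_congr rfl this, Finset.sum_const, hN, smul_eq_mul]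
  have e4 : f 0 = f (0, 0) := rfl
  have e5 : f (0, 0) + ∑ v ∈ (univ : Finset (L × L)).erase 0, f v =
      (f (0, 0) + N * m₂) + N * (m₁ + N * r) := by
    rw [← e3, ← e2, e1, e4]
  have e6 : (f (0, 0) + N * m₂) + N * (m₁ + N * r) =
      f (0, 0) + (N * N * r + N * m₁ + N * m₂) := by ring
  rw [e6] at e5
  exact Nat.add_left_cancel e5

private theorem Cm_first (hPt : S_Pt) {k : ℕ} {D : Finset (Submodule K (L × L))}
    (hT : Tor k D) : ∃ M : ℕ, M ≤ 2 ∧ (¬ Full D → M ≤ 1) ∧
      (Do D).card = (Fintype.card K ^ k - 1) * (rr D + M) := by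
  obtain ⟨M₁, M₂, hM₁, hM₂, hc₁, hc₂⟩ := hPt K L k D hT
  have hT' := hT
  obtain ⟨hk4, hkL, hkU, -, -⟩ := hT'
  set N := Fintype.card K ^ k - 1 with hN
  have hq : 1 < Fintype.card K := Fintype.one_lt_card
  have hqk : 1 < Fintype.card K ^ k := Nat.one_lt_pow (by omega) hq
  have hNpos : 0 < N := by omega
  refine ⟨M₁ + M₂, by omega, fun hF => ?_, ?_⟩
  · by_contra hM
    apply hF
    have h1 : M₁ = 1 := by omega
    have h2 : M₂ = 1 := by omega
    rw [h1, one_mul] at hc₁
    rw [h2, one_mul] at hc₂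
    refine ⟨?_, ?_⟩
    · have h3 : 0 < ((Do D).filter fun U => ((1, 0) : L × L) ∈ U).card := by omega
      obtain ⟨U, hU⟩ := Finset.card_pos.1 h3
      exact ⟨U, (Finset.mem_filter.1 hU).1, (Finset.mem_filter.1 hU).2⟩
    · have h3 : 0 < ((Do D).filter fun U => ((0, 1) : L × L) ∈ U).card := by omega
      obtain ⟨U, hU⟩ := Finset.card_pos.1 h3
      exact ⟨U, (Finset.mem_filter.1 hU).1, (Finset.mem_filter.1 hU).2⟩
  have hswap : ∑ v ∈ (univ : Finset (L × L)).erase 0, ((Do D).filter fun U => v ∈ U).card =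
      ∑ U ∈ Do D, (((univ : Finset (L × L)).erase 0).filter fun v => v ∈ U).card := by
    exact Finset.sum_card_bipartiteAbove_eq_sum_card_bipartiteBelow
      (fun (v : L × L) (U : Submodule K (L × L)) => v ∈ U)
  have hR : ∑ U ∈ Do D, (((univ : Finset (L × L)).erase 0).filter fun v => v ∈ U).card =
      (Do D).card * N := by
    rw [Finset.sum_congr rfl (g := fun _ => N), Finset.sum_const, smul_eq_mul]
    intro U hU
    have hUD : U ∈ D := (Finset.mem_filter.1 hU).1
    have h2 := Cm_card0 U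
    rw [Cm_cardU, hkU U hUD] at h2
    omega
  have hL : ∑ v ∈ (univ : Finset (L × L)).erase 0, ((Do D).filter fun U => v ∈ U).card =
      N * N * rr D + N * (M₁ * N) + N * (M₂ * N) := by
    apply Cm_count
    · exact Cm_cardNZ (K := K) hkL
    · intro x y hx hy
      have h := Cm_eq hT hx hy (1, 1)
      rw [Cm_sc_apply, Cm_rr] at h
      rw [← h, mul_one, mul_one]
    · intro x hx
      have h := Cm_eq hT hx (one_ne_zero (α := L)) (1, 0)
      rw [Cm_sc_apply, hc₁] at h
      rw [← h, mul_one, mul_zero]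
    · intro y hy
      have h := Cm_eq hT (one_ne_zero (α := L)) hy (0, 1)
      rw [Cm_sc_apply, hc₂] at h
      rw [← h, mul_one, mul_zero]
  have hfin : (Do D).card * N = N * (rr D + (M₁ + M₂)) * N := by
    rw [← hR, ← hswap, hL]
    ring
  exact Nat.eq_of_mul_eq_mul_right hNpos hfin

theorem tCm : S_Pt → S_Cm := by
  intro hPt K L _ _ _ _ _ k D hT
  exact Cm_first hPt hT

end Pool.Agent.MP8bT
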