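import Pool.Agent.Lib.MP_8b575b_co.Tor.Spec

/-!
# MP_8b575b_co, Tor/Ga: at most two automorphisms (helper23)

Let `E` be the extension of `K` of degree two; there are exactly two `K`-homomorphisms `E → L`
(`FiniteField.natCard_algHom_of_finrank_dvd`).  Take one, `f`.  For different `σ`, `τ` with graphs in `D` we have
`σ ∘ f ≠ τ ∘ f`: otherwise `e ↦ (f e, σ (f e))` embeds `E` in the intersection of the graphs.
-/

set_option autoImplicit false

namespace Pool.Agent.MP8bT

open Finset

open scoped Classical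

theorem tGa : S_Ga := by
  intro K L _ _ _ _ _ k D hD hk
  obtain ⟨h4, hfin, hdim, hint, -⟩ := hD
  obtain ⟨p, hp⟩ := CharP.exists K
  have := hp
  have : Fact p.Prime := ⟨CharP.char_is_prime K p⟩
  have h2 : Module.finrank K (FiniteField.Extension K p 2) = 2 := FiniteField.finrank_extension K p 2
  have hdvd : Module.finrank K (FiniteField.Extension K p 2) ∣ Module.finrank K L := by
    rw [h2, hfin]
    exact hk.two_dvd
  have hcard := FiniteField.natCard_algHom_of_finrank_dvd (F := K) (K := FiniteField.Extension K p 2)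
    (L := L) hdvd
  obtain ⟨f⟩ := FiniteField.nonempty_algHom_of_finrank_dvd (F := K)
    (K := FiniteField.Extension K p 2) (L := L) hdvd
  rw [h2] at hcard
  have : Finite (FiniteField.Extension K p 2 →ₐ[K] L) :=
    Nat.finite_of_card_ne_zero (by rw [hcard]; norm_num)
  rw [← hcard, ← Set.ncard_univ]
  refine Set.ncard_le_ncard_of_injOn (fun σ : L ≃ₐ[K] L => (σ : L →ₐ[K] L).comp f)
    (fun _ _ => Set.mem_univ _) (fun σ hσ τ hτ hστ => ?_) (Set.toFinite _)
  by_contra hne
  have hg : gr σ ≠ gr τ := by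
    intro h
    refine hne (AlgEquiv.ext fun x => ?_)
    have h1 : ((x, σ x) : L × L) ∈ gr σ := (LinearMap.mem_graph_iff _ _).2 rfl
    rw [h] at h1
    exact (LinearMap.mem_graph_iff _ _).1 h1
  have h1 := hint _ hσ _ hτ hg
  have hst : ∀ e, σ (f e) = τ (f e) := fun e => DFunLike.congr_fun hστ e
  let φ : FiniteField.Extension K p 2 →ₗ[K] ↥(gr σ ⊓ gr τ) :=
    LinearMap.codRestrict (gr σ ⊓ gr τ)
      (f.toLinearMap.prod (σ.toLinearMap.comp f.toLinearMap)) fun e =>
        ⟨(LinearMap.mem_graph_iff _ _).2 rfl, (LinearMap.mem_graph_iff _ _).2 (hst e)⟩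
  have hφ : Function.Injective φ := by
    intro a b hab
    have h3 : ((f a, σ (f a)) : L × L) = (f b, σ (f b)) := congrArg Subtype.val hab
    exact f.injective (Prod.ext_iff.1 h3).1
  have h3 := LinearMap.finrank_le_finrank_of_injective hφ
  rw [h2] at h3
  omega

end Pool.Agent.MP8bT
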