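import Pool.Agent.Lib.MP_8b575b_co.Tor.SpecB

/-! # MP_8b575b_co, Tor/In (helper47) -/

set_option autoImplicit false
set_option linter.unusedSectionVars false

namespace Pool.Agent.MP8bT

open Finset Polynomial

open scoped Classical

variable {K L : Type} [Field K] [Fintype K] [Field L] [Fintype L] [Algebra K L]

private theorem In_mem {a b : L} (ha : a ≠ 0) (hb : b ≠ 0) (U : Submodule K (L × L)) (u v : L) :
    (u, v) ∈ U.map (sc K a b) ↔ (a⁻¹ * u, b⁻¹ * v) ∈ U := by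
  constructor
  · rintro ⟨w, hw, h⟩
    have h1 : a * w.1 = u := congrArg Prod.fst h
    have h2 : b * w.2 = v := congrArg Prod.snd h
    rw [← h1, ← h2, inv_mul_cancel_left₀ ha, inv_mul_cancel_left₀ hb]
    exact hw
  · intro h
    refine ⟨_, h, ?_⟩
    show (a * (a⁻¹ * u), b * (b⁻¹ * v)) = (u, v)
    rw [mul_inv_cancel_left₀ ha, mul_inv_cancel_left₀ hb]

private theorem In_ax1 (v : L × L) : v ∈ ax1 K L ↔ v.2 = 0 := by
  constructor
  · rintro ⟨x, rfl⟩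
    rfl
  · intro h
    exact ⟨v.1, Prod.ext rfl h.symm⟩

private theorem In_ax2 (v : L × L) : v ∈ ax2 K L ↔ v.1 = 0 := by
  constructor
  · rintro ⟨x, rfl⟩
    rfl
  · intro h
    exact ⟨v.2, Prod.ext h.symm rfl⟩

private theorem In_one {k : ℕ} {D : Finset (Submodule K (L × L))} (hT : Tor k D) {x y : L}
    (hx : x ≠ 0) (hy : y ≠ 0) (h : ∃ U ∈ RR D, (x, y) ∈ U) : ∃ U ∈ RR D, (x⁻¹, y⁻¹) ∈ U := by
  obtain ⟨U, hU, hxy⟩ := h
  obtain ⟨hUD, h11⟩ := Finset.mem_filter.1 hU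
  refine ⟨U.map (sc K x⁻¹ y⁻¹), Finset.mem_filter.2
    ⟨hT.2.2.2.2 _ _ (inv_ne_zero hx) (inv_ne_zero hy) U hUD, ?_⟩, ?_⟩
  · rw [In_mem (inv_ne_zero hx) (inv_ne_zero hy), inv_inv, inv_inv, mul_one, mul_one]
    exact hxy
  · rw [In_mem (inv_ne_zero hx) (inv_ne_zero hy), inv_inv, inv_inv, mul_inv_cancel₀ hx,
      mul_inv_cancel₀ hy]
    exact h11

theorem tIn : S_Ze → S_In := by
  intro hZe K L _ _ _ _ _ k D hT hF x hx
  have hx0 : x ≠ 0 := by
    rintro rfl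
    exact hx ⟨0, map_zero _⟩
  constructor
  · intro h
    obtain ⟨U, hU, h1⟩ := ((hZe K L k D hT hF x hx0).2).2 hx
    exact (Finset.mem_filter.1 h).2 U hU h1
  · intro y hy
    constructor
    · intro h
      refine Finset.mem_filter.2 ⟨Finset.mem_univ _, fun U hU h1 => ?_⟩
      obtain ⟨W, hW, h2⟩ := In_one hT (inv_ne_zero hx0) (inv_ne_zero hy) ⟨U, hU, h1⟩
      rw [inv_inv, inv_inv] at h2
      exact (Finset.mem_filter.1 h).2 W hW h2
    · intro h
      refine Finset.mem_filter.2 ⟨Finset.mem_univ _, fun U hU h1 => ?_⟩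
      obtain ⟨W, hW, h2⟩ := In_one hT hx0 hy ⟨U, hU, h1⟩
      exact (Finset.mem_filter.1 h).2 W hW h2

end Pool.Agent.MP8bT
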