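import Pool.Agent.Lib.MP_8b575b_co.Tor.SpecB

/-! # MP_8b575b_co, Tor/Lx (helper47) -/

set_option autoImplicit false
set_option linter.unusedSectionVars false

namespace Pool.Agent.MP8bT

open Finset Polynomial

open scoped Classical

variable {K L : Type} [Field K] [Fintype K] [Field L] [Fintype L] [Algebra K L]

private theorem Lx_mem {a b : L} (ha : a ≠ 0) (hb : b ≠ 0) (U : Submodule K (L × L)) (u v : L) :
    (u, v) ∈ U.map (sc K a b) ↔ (a⁻¹ * u, b⁻¹ * v) ∈ U := by
  constructor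
  · rintro ⟨w, hw, h⟩
    have h1 : a * w.1 = u := congrArg Prod.fst h
    have h2 : b * w.2 = v := congrArg Prod.snd h
    rw [← h1, ← h2, inv_mul_cancel_left₀ ha, inv_mul_cancel_left₀ hb]
    exact hw
  · intro h
    refine ⟨_, h, ?_⟩
    show (a * (a⁻¹ * u), b * (b⁻¹ * v)) = (u, v)
    rw [mul_inv_cancel_left₀ ha, mul_inv_cancel_left₀ hb]

private theorem Lx_ax1 (v : L × L) : v ∈ ax1 K L ↔ v.2 = 0 := by
  constructor
  · rintro ⟨x, rfl⟩
    rfl
  · intro h
    exact ⟨v.1, Prod.ext rfl h.symm⟩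

private theorem Lx_ax2 (v : L × L) : v ∈ ax2 K L ↔ v.1 = 0 := by
  constructor
  · rintro ⟨x, rfl⟩
    rfl
  · intro h
    exact ⟨v.2, Prod.ext h.symm rfl⟩

/-- two members of the code with two independent common vectors are equal -/
private theorem Lx_pair {k : ℕ} {D : Finset (Submodule K (L × L))} (hT : Tor k D)
    {U W : Submodule K (L × L)} (hU : U ∈ D) (hW : W ∈ D) {s t : L × L} (hs : s ≠ 0)
    (ht : ∀ c : K, c • s ≠ t) (h1 : s ∈ U) (h2 : t ∈ U) (h3 : s ∈ W) (h4 : t ∈ W) : U = W := by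
  by_contra hne
  have h5 := hT.2.2.2.1 U hU W hW hne
  have hli : LinearIndependent K ![s, t] := by
    rw [LinearIndependent.pair_iff' hs]
    exact ht
  have hli2 : LinearIndependent K
      (![⟨s, h1, h3⟩, ⟨t, h2, h4⟩] : Fin 2 → ↥(U ⊓ W)) := by
    apply LinearIndependent.of_comp (U ⊓ W).subtype
    have : ((U ⊓ W).subtype ∘ (![⟨s, h1, h3⟩, ⟨t, h2, h4⟩] : Fin 2 → ↥(U ⊓ W))) = ![s, t] := by
      funext i
      fin_cases i <;> rfl
    rw [this]
    exact hli
  have := hli2.fintype_card_le_finrank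
  rw [Fintype.card_fin] at this
  omega

/-- in a space of dimension at most one every vector is a multiple of a nonzero one -/
private theorem Lx_dim1 (W : Submodule K (L × L)) (h : Module.finrank K W ≤ 1) (s t : L × L)
    (hs : s ∈ W) (ht : t ∈ W) (hs0 : s ≠ 0) : ∃ c : K, c • s = t := by
  by_contra hcon
  have hli : LinearIndependent K ![s, t] := by
    rw [LinearIndependent.pair_iff' hs0]
    intro a ha
    exact hcon ⟨a, ha⟩
  have hli2 : LinearIndependent K (![⟨s, hs⟩, ⟨t, ht⟩] : Fin 2 → W) := by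
    apply LinearIndependent.of_comp W.subtype
    have : (W.subtype ∘ (![⟨s, hs⟩, ⟨t, ht⟩] : Fin 2 → W)) = ![s, t] := by
      funext i
      fin_cases i <;> rfl
    rw [this]
    exact hli
  have := hli2.fintype_card_le_finrank
  rw [Fintype.card_fin] at this
  omega

private theorem Lx_rng (U : Submodule K (L × L)) (hU : 3 ≤ Module.finrank K U)
    (hA : Module.finrank K ↥(U ⊓ ax1 K L) ≤ 1) (c y : L) (hc : c ≠ 0) :
    ∃ v ∈ U, ∀ a : K, a • y ≠ c * v.2 := by
  by_contra hcon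
  push Not at hcon
  have hr := LinearMap.finrank_range_add_finrank_ker
    (((LinearMap.mulLeft K c).comp (LinearMap.snd K L L)).domRestrict U)
  have e1 : Module.finrank K (LinearMap.range
      (((LinearMap.mulLeft K c).comp (LinearMap.snd K L L)).domRestrict U)) ≤ 1 := by
    refine le_trans (Submodule.finrank_mono (t := Submodule.span K {y}) ?_) ?_
    · rintro _ ⟨v, rfl⟩
      obtain ⟨a, ha⟩ := hcon v v.2
      exact Submodule.mem_span_singleton.2 ⟨a, ha⟩
    · have := finrank_span_le_card (R := K) ({y} : Set L)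
      simpa using this
  have e2 : Module.finrank K (LinearMap.ker
      (((LinearMap.mulLeft K c).comp (LinearMap.snd K L L)).domRestrict U)) ≤ 1 := by
    refine le_trans ?_ hA
    rw [LinearEquiv.finrank_eq ((Submodule.equivSubtypeMap U (LinearMap.ker
      (((LinearMap.mulLeft K c).comp (LinearMap.snd K L L)).domRestrict U))))]
    refine Submodule.finrank_mono ?_
    rintro _ ⟨v, hv, rfl⟩
    refine ⟨v.2, (Lx_ax1 _).2 ?_⟩
    have h1 : c * (v : L × L).2 = 0 := hv
    exact (mul_eq_zero.1 h1).resolve_left hc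
  omega

theorem tLx : S_Ax → S_Lx := by
  intro hAx K L _ _ _ _ _ k D hT U hU x y hx hy h1 h2
  obtain ⟨hA1, hA2⟩ := hAx K L k D hT U hU
  have hUD : U ∈ D := (Finset.mem_filter.1 hU).1
  have hk3 : 3 ≤ Module.finrank K U := by
    rw [hT.2.2.1 U hUD]
    have := hT.1
    omega
  obtain ⟨v, hv, hvy⟩ := Lx_rng U hk3 hA1 1 y one_ne_zero
  rw [one_mul] at hvy
  have hw0 : v.2 ≠ 0 := by
    intro h
    exact hvy 0 (by rw [zero_smul, h])
  have hwy : v.2 + y ≠ 0 := by
    intro h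
    refine hvy (-1) ?_
    rw [neg_smul, one_smul]
    exact (eq_neg_of_add_eq_zero_left h).symm
  have hb0 : (v.2 + y) / v.2 ≠ 0 := div_ne_zero hwy hw0
  have hb1 : 1 - (v.2 + y) / v.2 ≠ 0 := by
    intro h
    have h3 : (v.2 + y) / v.2 = 1 := (sub_eq_zero.1 h).symm
    rw [div_eq_one_iff_eq hw0] at h3
    exact hy (by simpa using h3)
  have hW : U.map (sc K 1 ((v.2 + y) / v.2)) = U := by
    refine Lx_pair hT (hT.2.2.2.2 _ _ one_ne_zero hb0 U hUD) hUD (s := (x, 0))
      (t := (v.1, v.2 + y)) ?_ ?_ ?_ ?_ h1 ?_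
    · intro h
      exact hx (congrArg Prod.fst h)
    · intro c h
      have h3 : c • (0 : L) = v.2 + y := congrArg Prod.snd h
      rw [smul_zero] at h3
      exact hwy h3.symm
    · rw [Lx_mem one_ne_zero hb0, inv_one, one_mul, mul_zero]
      exact h1
    · rw [Lx_mem one_ne_zero hb0, inv_one, one_mul, inv_div, div_mul_cancel₀ _ hwy]
      exact hv
    · have h3 := U.add_mem hv h2
      have h4 : v + ((0 : L), y) = (v.1, v.2 + y) := Prod.ext (add_zero _) rfl
      rwa [h4] at h3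
  obtain ⟨v', hv', hvy'⟩ := Lx_rng U hk3 hA1 _ y hb1
  have h3 : sc K 1 ((v.2 + y) / v.2) v' ∈ U := by
    have h4 : sc K 1 ((v.2 + y) / v.2) v' ∈ U.map (sc K 1 ((v.2 + y) / v.2)) := ⟨v', hv', rfl⟩
    rwa [hW] at h4
  have h5 := U.sub_mem hv' h3
  have h6 : v' - sc K 1 ((v.2 + y) / v.2) v' = (0, (1 - (v.2 + y) / v.2) * v'.2) := by
    refine Prod.ext ?_ ?_
    · show v'.1 - 1 * v'.1 = 0
      ring
    · show v'.2 - (v.2 + y) / v.2 * v'.2 = (1 - (v.2 + y) / v.2) * v'.2
      ring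
  rw [h6] at h5
  obtain ⟨c, hc⟩ := Lx_dim1 (U ⊓ ax2 K L) hA2 (0, y) (0, (1 - (v.2 + y) / v.2) * v'.2)
    ⟨h2, (Lx_ax2 _).2 rfl⟩ ⟨h5, (Lx_ax2 _).2 rfl⟩ (fun h => hy (congrArg Prod.snd h))
  exact hvy' c (congrArg Prod.snd hc)

end Pool.Agent.MP8bT
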