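import Pool.Agent.Lib.MP_8b575b_co.Tor.SpecB

/-! # MP_8b575b_co, Tor/Mo (helper47) -/

set_option autoImplicit false
set_option linter.unusedSectionVars false

namespace Pool.Agent.MP8bT

open Finset Polynomial

open scoped Classical

variable {K L : Type} [Field K] [Fintype K] [Field L] [Fintype L] [Algebra K L]

private theorem Mo_mem {a b : L} (ha : a ≠ 0) (hb : b ≠ 0) (U : Submodule K (L × L)) (u v : L) :
    (u, v) ∈ U.map (sc K a b) ↔ (a⁻¹ * u, b⁻¹ * v) ∈ U := by
  constructor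
  · rintro ⟨w, hw, h⟩
    have h1 : a * w.1 = u := congrArg Prod.fst h
    have h2 : b * w.2 = v := congrArg Prod.snd h
    rw [← h1, ← h2, inv_mul_cancel_left₀ ha, inv_mul_cancel_left₀ hb]
    exact hw
  · intro h
    refine ⟨_, h, ?_⟩
    show (a * (a⁻¹ * u), b * (b⁻¹ * v)) = (u, v)
    rw [mul_inv_cancel_left₀ ha, mul_inv_cancel_left₀ hb]

private theorem Mo_ax1 (v : L × L) : v ∈ ax1 K L ↔ v.2 = 0 := by
  constructor
  · rintro ⟨x, rfl⟩
    rfl
  · intro h
    exact ⟨v.1, Prod.ext rfl h.symm⟩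

private theorem Mo_ax2 (v : L × L) : v ∈ ax2 K L ↔ v.1 = 0 := by
  constructor
  · rintro ⟨x, rfl⟩
    rfl
  · intro h
    exact ⟨v.2, Prod.ext h.symm rfl⟩

private theorem Mo_do {k : ℕ} {D : Finset (Submodule K (L × L))} (hT : Tor k D) {a b : L}
    (ha : a ≠ 0) (hb : b ≠ 0) {U : Submodule K (L × L)} (hU : U ∈ Do D) :
    U.map (sc K a b) ∈ Do D := by
  obtain ⟨h1, h2, h3⟩ := Finset.mem_filter.1 hU
  have key : ∀ v, v ∈ U ↔ (a * v.1, b * v.2) ∈ U.map (sc K a b) := by
    intro v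
    rw [Mo_mem ha hb, inv_mul_cancel_left₀ ha, inv_mul_cancel_left₀ hb]
  refine Finset.mem_filter.2 ⟨hT.2.2.2.2 a b ha hb U h1, fun h => h2 ?_, fun h => h3 ?_⟩
  · ext v
    rw [key v, h, Mo_ax1, Mo_ax1]
    simp [hb]
  · ext v
    rw [key v, h, Mo_ax2, Mo_ax2]
    simp [ha]

private theorem Mo_RR {D : Finset (Submodule K (L × L))} {U : Submodule K (L × L)}
    (hU : U ∈ RR D) : U ∈ Do D := by
  obtain ⟨h1, h2⟩ := Finset.mem_filter.1 hU
  refine Finset.mem_filter.2 ⟨h1, ?_, ?_⟩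
  · rintro rfl
    rw [Mo_ax1] at h2
    exact one_ne_zero h2
  · rintro rfl
    rw [Mo_ax2] at h2
    exact one_ne_zero h2

/-- two members of the code with two independent common vectors are equal -/
private theorem Mo_pair {k : ℕ} {D : Finset (Submodule K (L × L))} (hT : Tor k D)
    {U W : Submodule K (L × L)} (hU : U ∈ D) (hW : W ∈ D) {s t : L × L} (hs : s ≠ 0)
    (ht : ∀ c : K, c • s ≠ t) (h1 : s ∈ U) (h2 : t ∈ U) (h3 : s ∈ W) (h4 : t ∈ W) : U = W := by
  by_contra hne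
  have h5 := hT.2.2.2.1 U hU W hW hne
  have hli : LinearIndependent K ![s, t] := by
    rw [LinearIndependent.pair_iff' hs]
    exact ht
  have hli2 : LinearIndependent K
      (![⟨s, h1, h3⟩, ⟨t, h2, h4⟩] : Fin 2 → ↥(U ⊓ W)) := by
    apply LinearIndependent.of_comp (U ⊓ W).subtype
    have : ((U ⊓ W).subtype ∘ (![⟨s, h1, h3⟩, ⟨t, h2, h4⟩] : Fin 2 → ↥(U ⊓ W))) = ![s, t] := by
      funext i
      fin_cases i <;> rfl
    rw [this]
    exact hli
  have := hli2.fintype_card_le_finrank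
  rw [Fintype.card_fin] at this
  omega

/-- a linear map which is injective on a member of the code is onto -/
private theorem Mo_onto {k : ℕ} (hL : Module.finrank K L = k) (U : Submodule K (L × L))
    (hU : Module.finrank K U = k) (g : (L × L) →ₗ[K] L) (hg : ∀ v ∈ U, g v = 0 → v = 0) (x : L) :
    ∃ v ∈ U, g v = x := by
  have h1 : Function.Injective (g.domRestrict U) := by
    rw [injective_iff_map_eq_zero]
    intro v hv
    exact Subtype.ext (hg v v.2 hv)
  have h2 : Function.Surjective (g.domRestrict U) :=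
    (LinearMap.injective_iff_surjective_of_finrank_eq_finrank (by rw [hU, hL])).1 h1
  obtain ⟨v, hv⟩ := h2 x
  exact ⟨v, v.2, hv⟩

private theorem Mo_gen {k : ℕ} {D : Finset (Submodule K (L × L))} (hT : Tor k D) (P : L → L × L)
    (hP : ∀ U ∈ RR D, ∃ y, P y ∈ U) (hP' : ∀ y, ∀ c : K, c • ((1, 1) : L × L) ≠ P y) :
    rr D ≤ Fintype.card K ^ k := by
  have hcL : Fintype.card L = Fintype.card K ^ k := by
    rw [← hT.2.1]
    exact Module.card_eq_pow_finrank
  choose f hf using hP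
  rw [← hcL, ← Finset.card_univ]
  refine Finset.card_le_card_of_injOn (s := RR D) (fun U => if h : U ∈ RR D then f U h else 0)
    (fun _ _ => Finset.mem_coe.2 (Finset.mem_univ _)) ?_
  intro U hU W hW h
  have hU' : U ∈ RR D := Finset.mem_coe.1 hU
  have hW' : W ∈ RR D := Finset.mem_coe.1 hW
  simp only [dif_pos hU', dif_pos hW'] at h
  obtain ⟨u1, u2⟩ := Finset.mem_filter.1 hU'
  obtain ⟨w1, w2⟩ := Finset.mem_filter.1 hW'
  refine Mo_pair hT u1 w1 (s := (1, 1)) (t := P (f U hU')) ?_ (hP' _) u2 (hf U hU') w2 ?_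
  · intro h1
    exact one_ne_zero (congrArg Prod.fst h1)
  · rw [h]
    exact hf W hW'

private theorem Mo_ns {k : ℕ} {D : Finset (Submodule K (L × L))} (hT : Tor k D) :
    ∃ x : L, Ns K x := by
  by_contra hcon
  have h1 : ∀ x : L, ∃ c : K, algebraMap K L c = x := by
    intro x
    by_contra h
    exact hcon ⟨x, h⟩
  have h2 : Module.finrank K L ≤ 1 := by
    refine finrank_le_one (1 : L) fun w => ?_
    obtain ⟨c, hc⟩ := h1 w
    exact ⟨c, by rw [Algebra.smul_def, mul_one, hc]⟩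
  have h3 := hT.1
  have h4 := hT.2.1
  omega

theorem tMo : S_Mo := by
  intro K L _ _ _ _ _ k D hT hF
  obtain ⟨x, hx⟩ := Mo_ns hT
  have hF' : (¬ ∃ U ∈ Do D, ((1, 0) : L × L) ∈ U) ∨ ¬ ∃ U ∈ Do D, ((0, 1) : L × L) ∈ U := by
    by_contra h
    rw [not_or, not_not, not_not] at h
    exact hF h
  rcases hF' with hF' | hF'
  · refine Mo_gen hT (fun y => (y, x)) ?_ ?_
    · intro U hU
      have hUD : U ∈ D := (Finset.mem_filter.1 hU).1
      have hin : ∀ v ∈ U, (LinearMap.snd K L L) v = 0 → v = 0 := by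
        intro v hv h0
        have h0' : v.2 = 0 := h0
        by_contra hne
        have h1 : v.1 ≠ 0 := fun h => hne (Prod.ext h h0')
        refine hF' ⟨U.map (sc K v.1⁻¹ 1), Mo_do hT (inv_ne_zero h1) one_ne_zero (Mo_RR hU), ?_⟩
        rw [Mo_mem (inv_ne_zero h1) one_ne_zero, inv_inv, mul_one, inv_one, one_mul, ← h0']
        exact hv
      obtain ⟨v, hv, hv'⟩ := Mo_onto hT.2.1 U (hT.2.2.1 U hUD) (LinearMap.snd K L L) hin x
      refine ⟨v.1, ?_⟩
      have h2 : v.2 = x := hv'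
      rw [← h2]
      exact hv
    · intro y c h
      have h1 : c • (1 : L) = x := congrArg Prod.snd h
      exact hx ⟨c, by rw [← h1, Algebra.smul_def, mul_one]⟩
  · refine Mo_gen hT (fun y => (x, y)) ?_ ?_
    · intro U hU
      have hUD : U ∈ D := (Finset.mem_filter.1 hU).1
      have hin : ∀ v ∈ U, (LinearMap.fst K L L) v = 0 → v = 0 := by
        intro v hv h0
        have h0' : v.1 = 0 := h0
        by_contra hne
        have h1 : v.2 ≠ 0 := fun h => hne (Prod.ext h0' h)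
        refine hF' ⟨U.map (sc K 1 v.2⁻¹), Mo_do hT one_ne_zero (inv_ne_zero h1) (Mo_RR hU), ?_⟩
        rw [Mo_mem one_ne_zero (inv_ne_zero h1), inv_inv, mul_one, inv_one, one_mul, ← h0']
        exact hv
      obtain ⟨v, hv, hv'⟩ := Mo_onto hT.2.1 U (hT.2.2.1 U hUD) (LinearMap.fst K L L) hin x
      refine ⟨v.2, ?_⟩
      have h2 : v.1 = x := hv'
      rw [← h2]
      exact hv
    · intro y c h
      have h1 : c • (1 : L) = x := congrArg Prod.fst h
      exact hx ⟨c, by rw [← h1, Algebra.smul_def, mul_one]⟩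

end Pool.Agent.MP8bT
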