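import Pool.Agent.Lib.MP_8b575b_co.Tor.Spec

/-! # MP_8b575b_co, Tor/Pt: the codewords through a vector of an axis (helper10) -/

set_option autoImplicit false
set_option linter.unusedSectionVars false

namespace Pool.Agent.MP8bT

open Finset

open scoped Classical

variable {K L : Type} [Field K] [Fintype K] [Field L] [Fintype L] [Algebra K L]

private theorem pt_card (W : Submodule K (L × L)) :
    (univ.filter fun v : L × L => v ∈ W).card = Fintype.card K ^ Module.finrank K W := by
  have h1 : Fintype.card W = Fintype.card K ^ Module.finrank K W := Module.card_eq_pow_finrank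
  rw [← h1, Fintype.card_subtype]

private theorem pt_free {k : ℕ} (hk : 4 ≤ k) (U A A' : Submodule K (L × L))
    (g : (L × L) →ₗ[K] (L × L)) (hU : Module.finrank K U = k)
    (h1 : ∀ v ∈ U, g v = 0 → v ∈ A) (h2 : ∀ v ∈ U, g v ∈ U) (h3 : ∀ v, g v ∈ A')
    (h4 : Module.finrank K ↥(U ⊓ A) ≤ 1) (h5 : Module.finrank K ↥(U ⊓ A') ≤ 1) : False := by
  have hr := LinearMap.finrank_range_add_finrank_ker (g.domRestrict U)
  have e1 : Module.finrank K (LinearMap.range (g.domRestrict U)) ≤ Module.finrank K ↥(U ⊓ A') := by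
    refine Submodule.finrank_mono ?_
    rintro _ ⟨v, rfl⟩
    exact ⟨h2 v v.2, h3 v⟩
  have e2 : Module.finrank K (LinearMap.ker (g.domRestrict U)) ≤ Module.finrank K ↥(U ⊓ A) := by
    rw [LinearEquiv.finrank_eq ((Submodule.equivSubtypeMap U (LinearMap.ker (g.domRestrict U))))]
    refine Submodule.finrank_mono ?_
    rintro _ ⟨v, hv, rfl⟩
    exact ⟨v.2, h1 v v.2 (by simpa using hv)⟩
  omega

private theorem pt_gen {k : ℕ} {D : Finset (Submodule K (L × L))} (hT : Tor k D)
    (A A' : Submodule K (L × L)) (hA : ∀ U ∈ Do D, Module.finrank K ↥(U ⊓ A) ≤ 1)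
    (hA' : ∀ U ∈ Do D, Module.finrank K ↥(U ⊓ A') ≤ 1) (hAk : Module.finrank K A = k)
    (e : L × L) (he : e ∈ A) (he0 : e ≠ 0) (f : L → (L × L) →ₗ[K] (L × L))
    (f1 : f 1 = LinearMap.id) (f2 : ∀ b c, f (b * c) = (f b).comp (f c)) (f3 : ∀ b, f b e = e)
    (f4 : ∀ b, b ≠ 0 → ∀ U ∈ Do D, U.map (f b) ∈ Do D)
    (f5 : ∀ b, ∀ v, v - f b v ∈ A') (f6 : ∀ b, b ≠ 1 → ∀ v, v - f b v = 0 → v ∈ A) :
    ∃ M : ℕ, M ≤ 1 ∧ ((Do D).filter fun U => e ∈ U).card = M * (Fintype.card K ^ k - 1) := by
  obtain ⟨hk, hLk, hDk, hD1, -⟩ := hT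
  have hq : 2 ≤ Fintype.card K := Fintype.one_lt_card
  have hqk : 2 * Fintype.card K < Fintype.card K ^ k := by
    have h1 : Fintype.card K ^ 4 ≤ Fintype.card K ^ k := Nat.pow_le_pow_right (by omega) hk
    have h2 : 2 * 2 * 2 * Fintype.card K ≤ Fintype.card K ^ 4 := by
      have : Fintype.card K ^ 4 = Fintype.card K * Fintype.card K * Fintype.card K * Fintype.card K := by
        ring
      rw [this]
      gcongr
    omega
  have hmem : ∀ U ∈ Do D, U ∈ D := fun U hU => (Finset.mem_filter.1 hU).1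
  have hcL : Fintype.card L = Fintype.card K ^ k := by
    rw [← hLk]
    exact Module.card_eq_pow_finrank
  -- free
  have free : ∀ b, b ≠ 1 → ∀ U ∈ Do D, U.map (f b) ≠ U := by
    intro b hb U hU h
    refine pt_free hk U A A' (LinearMap.id - f b) (hDk U (hmem U hU)) ?_ ?_ ?_ (hA U hU) (hA' U hU)
    · intro v _ hv
      exact f6 b hb v (by simpa using hv)
    · intro v hv
      refine U.sub_mem hv ?_
      rw [← h]
      exact Submodule.mem_map_of_mem hv
    · intro v
      simpa using f5 b v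
  have hP : ∀ b, b ≠ 0 → ∀ U ∈ (Do D).filter (fun U => e ∈ U),
      U.map (f b) ∈ (Do D).filter (fun U => e ∈ U) := by
    intro b hb U hU
    obtain ⟨h1, h2⟩ := Finset.mem_filter.1 hU
    refine Finset.mem_filter.2 ⟨f4 b hb U h1, ?_⟩
    rw [← f3 b]
    exact Submodule.mem_map_of_mem h2
  have fcomp : ∀ b c, ∀ U : Submodule K (L × L), (U.map (f c)).map (f b) = U.map (f (b * c)) := by
    intro b c U
    rw [f2, Submodule.map_comp]
  have finv : ∀ b, b ≠ 0 → ∀ U : Submodule K (L × L), (U.map (f b)).map (f b⁻¹) = U := by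
    intro b hb U
    rw [fcomp, inv_mul_cancel₀ hb, f1, Submodule.map_id]
  have hinj : ∀ U ∈ Do D, ∀ b c, b ≠ 0 → c ≠ 0 → U.map (f b) = U.map (f c) → b = c := by
    intro U hU b c hb hc h
    by_contra hbc
    refine free (b⁻¹ * c) (fun h1 => hbc ?_) U hU ?_
    · rw [inv_mul_eq_one₀ hb] at h1
      exact h1
    · rw [← fcomp, ← h, finv b hb]
  -- the orbit
  have horb : ∀ U ∈ (Do D).filter (fun U => e ∈ U),
      ((univ.filter fun b : L => b ≠ 0).image fun b => U.map (f b)).card = Fintype.card K ^ k - 1 := by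
    intro U hU
    rw [Finset.card_image_of_injOn, Finset.filter_ne', Finset.card_erase_of_mem (Finset.mem_univ _),
      Finset.card_univ, hcL]
    intro b hb c hc h
    exact hinj U (Finset.mem_filter.1 hU).1 b c (Finset.mem_filter.1 hb).2 (Finset.mem_filter.1 hc).2 h
  have hsub : ∀ U ∈ (Do D).filter (fun U => e ∈ U),
      ((univ.filter fun b : L => b ≠ 0).image fun b => U.map (f b)) ⊆
        (Do D).filter (fun U => e ∈ U) := by
    intro U hU W hW
    obtain ⟨b, hb, rfl⟩ := Finset.mem_image.1 hW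
    exact hP b (Finset.mem_filter.1 hb).2 U hU
  -- the upper bound
  have hup : ((Do D).filter fun U => e ∈ U).card < 2 * (Fintype.card K ^ k - 1) := by
    have c1 : ∀ U ∈ (Do D).filter (fun U => e ∈ U), Fintype.card K ^ k - Fintype.card K ≤
        (univ.filter fun v : L × L => v ∈ U ∧ v ∉ A).card := by
      intro U hU
      obtain ⟨h1, h2⟩ := Finset.mem_filter.1 hU
      have e1 := pt_card U
      rw [hDk U (hmem U h1)] at e1
      have e2 := pt_card (U ⊓ A)
      have e3 : Fintype.card K ^ Module.finrank K ↥(U ⊓ A) ≤ Fintype.card K ^ 1 :=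
        Nat.pow_le_pow_right (by omega) (hA U h1)
      rw [pow_one] at e3
      have e4 := Finset.card_filter_add_card_filter_not (s := univ.filter fun v : L × L => v ∈ U)
        (fun v => v ∈ A)
      rw [Finset.filter_filter, Finset.filter_filter, e1] at e4
      have e5 : (univ.filter fun v : L × L => v ∈ U ∧ v ∈ A).card =
          (univ.filter fun v : L × L => v ∈ U ⊓ A).card :=
        congrArg Finset.card (Finset.ext fun v => by simp only [Finset.mem_filter, Submodule.mem_inf])
      omega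
    have c2 : (((Do D).filter fun U => e ∈ U).biUnion
        fun U => univ.filter fun v : L × L => v ∈ U ∧ v ∉ A).card =
        ∑ U ∈ (Do D).filter (fun U => e ∈ U), (univ.filter fun v : L × L => v ∈ U ∧ v ∉ A).card := by
      refine Finset.card_biUnion ?_
      intro U hU W hW hUW
      refine Finset.disjoint_left.2 fun v hv hv' => ?_
      obtain ⟨h1, h2⟩ := Finset.mem_filter.1 hU
      obtain ⟨h3, h4⟩ := Finset.mem_filter.1 hW
      obtain ⟨-, hv1, hv2⟩ := Finset.mem_filter.1 hv
      obtain ⟨-, hv3, -⟩ := Finset.mem_filter.1 hv'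
      have h5 := hD1 U (hmem U h1) W (hmem W h3) hUW
      have hli : LinearIndependent K ![(⟨e, h2, h4⟩ : ↥(U ⊓ W)), ⟨v, hv1, hv3⟩] := by
        rw [LinearIndependent.pair_iff]
        intro s t hst
        have hst' : s • e + t • v = 0 := congrArg Subtype.val hst
        have ht : t = 0 := by
          by_contra ht
          apply hv2
          have : v = t⁻¹ • (- (s • e)) := by
            rw [← eq_neg_of_add_eq_zero_right hst', inv_smul_smul₀ ht]
          rw [this]
          exact A.smul_mem _ (A.neg_mem (A.smul_mem _ he))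
        refine ⟨?_, ht⟩
        rw [ht, zero_smul, add_zero] at hst'
        exact (smul_eq_zero.1 hst').resolve_right he0
      have h6 := hli.fintype_card_le_finrank
      rw [Fintype.card_fin] at h6
      omega
    have c3 : (((Do D).filter fun U => e ∈ U).biUnion
        fun U => univ.filter fun v : L × L => v ∈ U ∧ v ∉ A).card ≤
        (univ.filter fun v : L × L => v ∉ A).card := by
      refine Finset.card_le_card ?_
      intro v hv
      obtain ⟨U, -, hv⟩ := Finset.mem_biUnion.1 hv
      exact Finset.mem_filter.2 ⟨Finset.mem_univ _, (Finset.mem_filter.1 hv).2.2⟩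
    have c4 := Finset.card_filter_add_card_filter_not (s := (univ : Finset (L × L))) (fun v => v ∈ A)
    rw [pt_card A, hAk, Finset.card_univ, Fintype.card_prod, hcL] at c4
    have c5 := Finset.card_nsmul_le_sum _ _ _ c1
    rw [smul_eq_mul] at c5
    rw [← c2] at c5
    have c6 := c5.trans c3
    by_contra hc
    rw [not_lt] at hc
    have c7 : 2 * (Fintype.card K ^ k - 1) * (Fintype.card K ^ k - Fintype.card K) ≤
        (univ.filter fun v : L × L => v ∉ A).card := (Nat.mul_le_mul_right _ hc).trans c6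
    obtain ⟨a, ha⟩ : ∃ a, Fintype.card K ^ k = a + 2 * Fintype.card K + 1 :=
      ⟨Fintype.card K ^ k - (2 * Fintype.card K + 1), by omega⟩
    rw [ha] at c4 c7
    have c8 : a + 2 * Fintype.card K + 1 - 1 = a + 2 * Fintype.card K := by omega
    have c9 : a + 2 * Fintype.card K + 1 - Fintype.card K = a + Fintype.card K + 1 := by omega
    rw [c8, c9] at c7
    nlinarith
  rcases ((Do D).filter fun U => e ∈ U).eq_empty_or_nonempty with h0 | ⟨U, hU⟩
  · exact ⟨0, by omega, by rw [h0, Finset.card_empty, zero_mul]⟩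
  · refine ⟨1, le_rfl, ?_⟩
    rw [one_mul, ← horb U hU]
    by_cases hall : ((Do D).filter fun U => e ∈ U) ⊆
        ((univ.filter fun b : L => b ≠ 0).image fun b => U.map (f b))
    · exact le_antisymm (Finset.card_le_card hall) (Finset.card_le_card (hsub U hU))
    · exfalso
      obtain ⟨W, hW, hWo⟩ := Finset.not_subset.1 hall
      have hdis : Disjoint ((univ.filter fun b : L => b ≠ 0).image fun b => U.map (f b))
          ((univ.filter fun b : L => b ≠ 0).image fun b => W.map (f b)) := by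
        refine Finset.disjoint_left.2 fun X hX hX' => hWo ?_
        obtain ⟨b, hb, rfl⟩ := Finset.mem_image.1 hX
        obtain ⟨c, hc, h⟩ := Finset.mem_image.1 hX'
        refine Finset.mem_image.2 ⟨c⁻¹ * b, Finset.mem_filter.2 ⟨Finset.mem_univ _, ?_⟩, ?_⟩
        · exact mul_ne_zero (inv_ne_zero (Finset.mem_filter.1 hc).2) (Finset.mem_filter.1 hb).2
        · rw [← fcomp, ← h, finv c (Finset.mem_filter.1 hc).2]
      have h7 := Finset.card_le_card (Finset.union_subset (hsub U hU) (hsub W hW))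
      rw [Finset.card_union_of_disjoint hdis, horb U hU, horb W hW] at h7
      omega

private theorem pt_sc (a b : L) (v : L × L) : sc K a b v = (a * v.1, b * v.2) := rfl

private theorem pt_sc_mul (a b a' b' : L) : sc K (a * a') (b * b') = (sc K a b).comp (sc K a' b') := by
  refine LinearMap.ext fun v => ?_
  rw [LinearMap.comp_apply, pt_sc, pt_sc, pt_sc]
  simp only [mul_assoc]

private theorem pt_sc_one : sc K (1 : L) 1 = LinearMap.id := by
  refine LinearMap.ext fun v => ?_
  rw [pt_sc, one_mul, one_mul]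
  rfl

private theorem pt_ax1 (v : L × L) : v ∈ ax1 K L ↔ v.2 = 0 := by
  constructor
  · rintro ⟨x, rfl⟩
    rfl
  · intro h
    exact ⟨v.1, by ext <;> simp [h]⟩

private theorem pt_ax2 (v : L × L) : v ∈ ax2 K L ↔ v.1 = 0 := by
  constructor
  · rintro ⟨x, rfl⟩
    rfl
  · intro h
    exact ⟨v.2, by ext <;> simp [h]⟩

private theorem pt_map_ax (a b : L) (ha : a ≠ 0) (hb : b ≠ 0) (A : Submodule K (L × L))
    (hA : A = ax1 K L ∨ A = ax2 K L) : A.map (sc K a b) = A := by
  have key : ∀ v, v ∈ A ↔ sc K a b v ∈ A := by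
    intro v
    rcases hA with rfl | rfl
    · rw [pt_ax1, pt_ax1, pt_sc]
      simp [hb]
    · rw [pt_ax2, pt_ax2, pt_sc]
      simp [ha]
  ext v
  constructor
  · rintro ⟨w, hw, rfl⟩
    exact (key w).1 hw
  · intro hv
    have h1 : sc K a b (sc K a⁻¹ b⁻¹ v) = v := by
      rw [← LinearMap.comp_apply, ← pt_sc_mul, mul_inv_cancel₀ ha, mul_inv_cancel₀ hb, pt_sc_one]
      rfl
    refine ⟨sc K a⁻¹ b⁻¹ v, ?_, h1⟩
    rw [SetLike.mem_coe, key, h1]
    exact hv

private theorem pt_do {k : ℕ} {D : Finset (Submodule K (L × L))} (hT : Tor k D) (a b : L) (ha : a ≠ 0)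
    (hb : b ≠ 0) (U : Submodule K (L × L)) (hU : U ∈ Do D) : U.map (sc K a b) ∈ Do D := by
  obtain ⟨h1, h2, h3⟩ := Finset.mem_filter.1 hU
  have hinv : ∀ W : Submodule K (L × L), (W.map (sc K a b)).map (sc K a⁻¹ b⁻¹) = W := by
    intro W
    rw [← Submodule.map_comp, ← pt_sc_mul, inv_mul_cancel₀ ha, inv_mul_cancel₀ hb, pt_sc_one,
      Submodule.map_id]
  refine Finset.mem_filter.2 ⟨hT.2.2.2.2 a b ha hb U h1, fun h => h2 ?_, fun h => h3 ?_⟩
  · rw [← hinv U, h]
    exact pt_map_ax _ _ (inv_ne_zero ha) (inv_ne_zero hb) _ (Or.inl rfl)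
  · rw [← hinv U, h]
    exact pt_map_ax _ _ (inv_ne_zero ha) (inv_ne_zero hb) _ (Or.inr rfl)

theorem tPt : S_Ax → S_Pt := by
  intro hAx K L _ _ _ _ _ k D hT
  have hax := hAx K L k D hT
  have d1 : Module.finrank K (ax1 K L) = k := by
    rw [← hT.2.1]
    exact LinearMap.finrank_range_of_inj (LinearMap.inl_injective)
  have d2 : Module.finrank K (ax2 K L) = k := by
    rw [← hT.2.1]
    exact LinearMap.finrank_range_of_inj (LinearMap.inr_injective)
  obtain ⟨M₁, h1, h2⟩ := pt_gen hT (ax1 K L) (ax2 K L) (fun U hU => (hax U hU).1)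
    (fun U hU => (hax U hU).2) d1 (1, 0) ((pt_ax1 _).2 rfl) (by simp) (fun b => sc K 1 b) pt_sc_one
    (fun b c => by
      have := pt_sc_mul (K := K) (1 : L) b 1 c
      rwa [mul_one] at this) (fun b => by rw [pt_sc]; simp)
    (fun b hb U hU => pt_do hT 1 b one_ne_zero hb U hU)
    (fun b v => by
      rw [pt_ax2, pt_sc]
      simp)
    (fun b hb v hv => by
      rw [pt_ax1]
      have h3 := congrArg Prod.snd hv
      rw [pt_sc] at h3
      simp only [Prod.snd_sub, Prod.snd_zero] at h3
      have h4 : (1 - b) * v.2 = 0 := by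
        rw [← h3]
        ring
      exact (mul_eq_zero.1 h4).resolve_left (sub_ne_zero.2 hb.symm))
  obtain ⟨M₂, h3, h4⟩ := pt_gen hT (ax2 K L) (ax1 K L) (fun U hU => (hax U hU).2)
    (fun U hU => (hax U hU).1) d2 (0, 1) ((pt_ax2 _).2 rfl) (by simp) (fun b => sc K b 1) pt_sc_one
    (fun b c => by
      have := pt_sc_mul (K := K) b (1 : L) c 1
      rwa [mul_one] at this) (fun b => by rw [pt_sc]; simp)
    (fun b hb U hU => pt_do hT b 1 hb one_ne_zero U hU)
    (fun b v => by
      rw [pt_ax1, pt_sc]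
      simp)
    (fun b hb v hv => by
      rw [pt_ax2]
      have h3 := congrArg Prod.fst hv
      rw [pt_sc] at h3
      simp only [Prod.fst_sub, Prod.fst_zero] at h3
      have h4 : (1 - b) * v.1 = 0 := by
        rw [← h3]
        ring
      exact (mul_eq_zero.1 h4).resolve_left (sub_ne_zero.2 hb.symm))
  exact ⟨M₁, M₂, h1, h3, h2, h4⟩

end Pool.Agent.MP8bT
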