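import Pool.Agent.Lib.MP_8b575b_co.Tor.SpecB
import Pool.Agent.Lib.MP_8b575b_co.Tor.Pt

/-! # MP_8b575b_co, Tor/Nx: the number of the holes above x (helper56) -/

set_option autoImplicit false
set_option linter.unusedSectionVars false

namespace Pool.Agent.MP8bT

open Finset Polynomial

open scoped Classical

variable {K L : Type} [Field K] [Fintype K] [Field L] [Fintype L] [Algebra K L]

private theorem Nx_mem {a b : L} (ha : a ≠ 0) (hb : b ≠ 0) (U : Submodule K (L × L)) (u v : L) :
    (u, v) ∈ U.map (sc K a b) ↔ (a⁻¹ * u, b⁻¹ * v) ∈ U := by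
  constructor
  · rintro ⟨w, hw, h⟩
    have h1 : a * w.1 = u := congrArg Prod.fst h
    have h2 : b * w.2 = v := congrArg Prod.snd h
    rw [← h1, ← h2, inv_mul_cancel_left₀ ha, inv_mul_cancel_left₀ hb]
    exact hw
  · intro h
    refine ⟨_, h, ?_⟩
    show (a * (a⁻¹ * u), b * (b⁻¹ * v)) = (u, v)
    rw [mul_inv_cancel_left₀ ha, mul_inv_cancel_left₀ hb]

private theorem Nx_ax1 (v : L × L) : v ∈ ax1 K L ↔ v.2 = 0 := by
  constructor
  · rintro ⟨x, rfl⟩
    rfl
  · intro h
    exact ⟨v.1, Prod.ext rfl h.symm⟩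

private theorem Nx_ax2 (v : L × L) : v ∈ ax2 K L ↔ v.1 = 0 := by
  constructor
  · rintro ⟨x, rfl⟩
    rfl
  · intro h
    exact ⟨v.2, Prod.ext h.symm rfl⟩

private theorem Nx_do {k : ℕ} {D : Finset (Submodule K (L × L))} (hT : Tor k D) {a b : L}
    (ha : a ≠ 0) (hb : b ≠ 0) {U : Submodule K (L × L)} (hU : U ∈ Do D) :
    U.map (sc K a b) ∈ Do D := by
  obtain ⟨h1, h2, h3⟩ := Finset.mem_filter.1 hU
  have key : ∀ v, v ∈ U ↔ (a * v.1, b * v.2) ∈ U.map (sc K a b) := by
    intro v
    rw [Nx_mem ha hb, inv_mul_cancel_left₀ ha, inv_mul_cancel_left₀ hb]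
  refine Finset.mem_filter.2 ⟨hT.2.2.2.2 a b ha hb U h1, fun h => h2 ?_, fun h => h3 ?_⟩
  · ext v
    rw [key v, h, Nx_ax1, Nx_ax1]
    simp [hb]
  · ext v
    rw [key v, h, Nx_ax2, Nx_ax2]
    simp [ha]

private theorem Nx_RR {D : Finset (Submodule K (L × L))} {U : Submodule K (L × L)}
    (hU : U ∈ RR D) : U ∈ Do D := by
  obtain ⟨h1, h2⟩ := Finset.mem_filter.1 hU
  refine Finset.mem_filter.2 ⟨h1, ?_, ?_⟩
  · rintro rfl
    rw [Nx_ax1] at h2
    exact one_ne_zero h2
  · rintro rfl
    rw [Nx_ax2] at h2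
    exact one_ne_zero h2

/-- two elements of the axis `A₂` in `U` are proportional -/
private theorem Nx_prop (U : Submodule K (L × L)) (h : Module.finrank K ↥(U ⊓ ax2 K L) ≤ 1)
    {e e' : L} (he0 : e ≠ 0) (he : ((0 : L), e) ∈ U) (he' : ((0 : L), e') ∈ U) :
    ∃ c : K, algebraMap K L c * e = e' := by
  by_contra hcon
  have hli : LinearIndependent K ![(⟨((0 : L), e), he, (Nx_ax2 _).2 rfl⟩ : ↥(U ⊓ ax2 K L)),
      ⟨((0 : L), e'), he', (Nx_ax2 _).2 rfl⟩] := by
    rw [LinearIndependent.pair_iff]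
    intro s t hst
    have hst' : s • e + t • e' = 0 := congrArg (fun z : ↥(U ⊓ ax2 K L) => z.1.2) hst
    have ht : t = 0 := by
      by_contra ht
      apply hcon
      refine ⟨- (t⁻¹ * s), ?_⟩
      have h1 : e' = t⁻¹ • (- (s • e)) := by
        rw [← eq_neg_of_add_eq_zero_right hst', inv_smul_smul₀ ht]
      rw [h1, smul_neg, smul_smul, Algebra.smul_def, map_neg, neg_mul]
    refine ⟨?_, ht⟩
    rw [ht, zero_smul, add_zero] at hst'
    exact (smul_eq_zero.1 hst').resolve_right he0
  have h6 := hli.fintype_card_le_finrank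
  rw [Fintype.card_fin] at h6
  omega

/-- a hyperplane is not stable under a nonscalar element -/
private theorem Nx_hyp {k : ℕ} (hk : 1 ≤ k) (hL : Module.finrank K L = k) (Y : Submodule K L)
    (hY : Module.finrank K Y = k - 1) (x : L) (hx : Ns K x) : ¬ ∀ y ∈ Y, y * x ∈ Y := by
  intro hst
  have hne : Y ≠ ⊤ := by
    rintro rfl
    rw [finrank_top, hL] at hY
    omega
  obtain ⟨l, hl⟩ : ∃ l, l ∉ Y := by
    by_contra h
    push Not at h
    exact hne (eq_top_iff.2 fun z _ => h z)
  have htop : Y ⊔ Submodule.span K {l} = ⊤ := by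
    apply Submodule.eq_top_of_finrank_eq
    have h1 : Y < Y ⊔ Submodule.span K {l} := by
      refine lt_of_le_of_ne le_sup_left ?_
      intro h
      apply hl
      rw [h]
      exact Submodule.mem_sup_right (Submodule.mem_span_singleton_self l)
    have h2 := Submodule.finrank_lt_finrank_of_lt h1
    have h3 := Submodule.finrank_le (Y ⊔ Submodule.span K {l})
    omega
  have hxl : l * x ∈ Y ⊔ Submodule.span K {l} := by
    rw [htop]
    exact Submodule.mem_top
  obtain ⟨y₀, hy₀, w, hw, hyw⟩ := Submodule.mem_sup.1 hxl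
  obtain ⟨c, rfl⟩ := Submodule.mem_span_singleton.1 hw
  have hxc : x - algebraMap K L c ≠ 0 := by
    intro h
    exact hx ⟨c, (sub_eq_zero.1 h).symm⟩
  have hall : ∀ z : L, z * (x - algebraMap K L c) ∈ Y := by
    intro z
    have hz : z ∈ Y ⊔ Submodule.span K {l} := by
      rw [htop]
      exact Submodule.mem_top
    obtain ⟨y, hy, w, hw, rfl⟩ := Submodule.mem_sup.1 hz
    obtain ⟨d, rfl⟩ := Submodule.mem_span_singleton.1 hw
    have h1 : (y + d • l) * (x - algebraMap K L c) = (y * x - c • y) + d • y₀ := by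
      have h2 : y₀ = l * x - c • l := by
        rw [← hyw]
        ring
      rw [h2]
      simp only [Algebra.smul_def]
      ring
    rw [h1]
    exact Y.add_mem (Y.sub_mem (hst y hy) (Y.smul_mem c hy)) (Y.smul_mem d hy₀)
  apply hl
  have h1 := hall (l * (x - algebraMap K L c)⁻¹)
  rwa [inv_mul_cancel_right₀ hxc] at h1

private theorem Nx_card (W : Submodule K (L × L)) :
    (univ.filter fun v : L × L => v ∈ W).card = Fintype.card K ^ Module.finrank K W := by
  have h1 : Fintype.card W = Fintype.card K ^ Module.finrank K W := Module.card_eq_pow_finrank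
  rw [← h1, Fintype.card_subtype]

/-- the elements of a submodule outside the axis -/
private theorem Nx_cardW (W : Submodule K (L × L)) (h1 : Module.finrank K ↥(W ⊓ ax2 K L) ≤ 1)
    (h01 : ((0 : L), (1 : L)) ∈ W) :
    (univ.filter fun v : L × L => v ∈ W ∧ v.1 ≠ 0).card + Fintype.card K =
      Fintype.card K ^ Module.finrank K W := by
  rw [← Nx_card W]
  have h2 := Finset.card_filter_add_card_filter_not (s := univ.filter fun v : L × L => v ∈ W)
    (fun v => v.1 ≠ 0)
  rw [Finset.filter_filter, Finset.filter_filter] at h2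
  rw [← h2]
  congr 1
  have h3 : (univ.filter fun v : L × L => v ∈ W ∧ ¬ v.1 ≠ 0) =
      (univ : Finset K).image (fun c => ((0 : L), algebraMap K L c)) := by
    ext v
    simp only [Finset.mem_filter, Finset.mem_univ, true_and, Finset.mem_image, not_not]
    constructor
    · rintro ⟨hv, hv1⟩
      have hv' : ((0 : L), v.2) ∈ W := by
        have : v = (0, v.2) := Prod.ext hv1 rfl
        rwa [← this]
      obtain ⟨c, hc⟩ := Nx_prop W h1 one_ne_zero h01 hv'
      rw [mul_one] at hc
      exact ⟨c, Prod.ext hv1.symm hc⟩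
    · rintro ⟨c, rfl⟩
      refine ⟨?_, rfl⟩
      have h4 := W.smul_mem c h01
      have h5 : c • ((0 : L), (1 : L)) = (0, algebraMap K L c) := by
        rw [Prod.smul_mk, smul_zero, Algebra.smul_def, mul_one]
      rwa [h5] at h4
  rw [h3, Finset.card_image_of_injective, Finset.card_univ]
  intro c d h
  exact (algebraMap K L).injective (congrArg Prod.snd h)

/-- freeness -/
private theorem Nx_free {k : ℕ} {D : Finset (Submodule K (L × L))} (hT : Tor k D)
    {U : Submodule K (L × L)} (hU : U ∈ Do D) (hno : ∀ z : L, z ≠ 0 → (z, (0 : L)) ∉ U)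
    {a b : L} (ha : a ≠ 0) (hb : b ≠ 0) (h : U.map (sc K a 1) = U.map (sc K b 1)) : a = b := by
  by_contra hab
  obtain ⟨h1, -, h3⟩ := Finset.mem_filter.1 hU
  apply h3
  apply Submodule.eq_of_le_of_finrank_eq
  · intro v hv
    rw [Nx_ax2]
    have h4 : (a * v.1, v.2) ∈ U.map (sc K a 1) := by
      rw [Nx_mem ha one_ne_zero, inv_mul_cancel_left₀ ha, inv_one, one_mul]
      exact hv
    rw [h, Nx_mem hb one_ne_zero, inv_one, one_mul] at h4
    have h5 := U.sub_mem h4 hv
    have h6 : ((b⁻¹ * (a * v.1), v.2) : L × L) - v = ((b⁻¹ * a - 1) * v.1, 0) := by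
      refine Prod.ext ?_ ?_
      · show b⁻¹ * (a * v.1) - v.1 = (b⁻¹ * a - 1) * v.1
        ring
      · show v.2 - v.2 = 0
        ring
    rw [h6] at h5
    by_contra hv1
    refine hno _ ?_ h5
    refine mul_ne_zero ?_ hv1
    intro h7
    apply hab
    have h8 : b⁻¹ * a = 1 := sub_eq_zero.1 h7
    rw [inv_mul_eq_one₀ hb] at h8
    exact h8.symm
  · rw [hT.2.2.1 U h1]
    unfold ax2
    rw [LinearMap.finrank_range_of_inj LinearMap.inr_injective, hT.2.1]

/-- the image of a point -/
private noncomputable def Phi (U : Submodule K (L × L)) (p : L × L) : Submodule K (L × L) :=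
  U.map (sc K p.1⁻¹ p.2⁻¹)

private theorem Phi_mem {U : Submodule K (L × L)} {p : L × L} (h1 : p.1 ≠ 0) (h2 : p.2 ≠ 0)
    (u v : L) : (u, v) ∈ Phi U p ↔ (p.1 * u, p.2 * v) ∈ U := by
  unfold Phi
  rw [Nx_mem (inv_ne_zero h1) (inv_ne_zero h2), inv_inv, inv_inv]

/-- the fibres of `Phi` -/
private theorem Nx_fib {k : ℕ} {D : Finset (Submodule K (L × L))} (hT : Tor k D)
    {U : Submodule K (L × L)} (hU : U ∈ Do D) (hno : ∀ z : L, z ≠ 0 → (z, (0 : L)) ∉ U)
    (hax : Module.finrank K ↥(U ⊓ ax2 K L) ≤ 1) (h01 : ((0 : L), (1 : L)) ∈ U)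
    (p : L × L) (hp : p ∈ U) (hp1 : p.1 ≠ 0) :
    (univ.filter fun v : L × L => (v ∈ U ∧ v.1 ≠ 0) ∧ Phi U v = Phi U p).card =
      Fintype.card K - 1 := by
  have hsec : ∀ v : L × L, v ∈ U → v.1 ≠ 0 → v.2 ≠ 0 := by
    intro v hv hv1 hv2
    refine hno v.1 hv1 ?_
    have : v = (v.1, 0) := Prod.ext rfl hv2
    rwa [← this]
  have hp2 := hsec p hp hp1
  have h3 : (univ.filter fun v : L × L => (v ∈ U ∧ v.1 ≠ 0) ∧ Phi U v = Phi U p) =
      ((univ : Finset K).erase 0).image (fun c => c • p) := by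
    ext v
    simp only [Finset.mem_filter, Finset.mem_univ, true_and, Finset.mem_image, Finset.mem_erase,
      and_true]
    constructor
    · rintro ⟨⟨hv, hv1⟩, hvp⟩
      have hv2 := hsec v hv hv1
      -- (0, v₂ / p₂)
      have e1 : ((0 : L), v.2 * p.2⁻¹) ∈ U := by
        have e2 : ((0 : L), p.2⁻¹) ∈ Phi U p := by
          rw [Phi_mem hp1 hp2, mul_zero, mul_inv_cancel₀ hp2]
          exact h01
        rw [← hvp, Phi_mem hv1 hv2, mul_zero] at e2
        exact e2
      obtain ⟨c, hc⟩ := Nx_prop U hax one_ne_zero h01 e1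
      rw [mul_one] at hc
      have hcne : c ≠ 0 := by
        rintro rfl
        rw [map_zero] at hc
        exact mul_ne_zero hv2 (inv_ne_zero hp2) hc.symm
      have hc2 : v.2 = algebraMap K L c * p.2 := by
        rw [hc, inv_mul_cancel_right₀ hp2]
      have hcL : algebraMap K L c ≠ 0 := by
        intro h
        exact hcne ((algebraMap K L).injective (by rw [h, map_zero]))
      have e3 : U.map (sc K v.1 1) = U.map (sc K (algebraMap K L c * p.1) 1) := by
        ext w
        have hm : algebraMap K L c * p.1 ≠ 0 := mul_ne_zero hcL hp1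
        have e4 : ∀ u z : L, (u, z) ∈ U ↔ (algebraMap K L c * u, algebraMap K L c * z) ∈ U := by
          intro u z
          have e5 : ((algebraMap K L c * u, algebraMap K L c * z) : L × L) = c • (u, z) := by
            rw [Prod.smul_mk, Algebra.smul_def, Algebra.smul_def]
          rw [e5]
          exact (U.smul_mem_iff hcne).symm
        have e6 := Phi_mem (U := U) hv1 hv2 (p.1⁻¹ * (v.1⁻¹ * w.1)) (p.2⁻¹ * w.2)
        have e7 := Phi_mem (U := U) hp1 hp2 (p.1⁻¹ * (v.1⁻¹ * w.1)) (p.2⁻¹ * w.2)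
        rw [hvp] at e6
        rw [mul_inv_cancel_left₀ hp1, mul_inv_cancel_left₀ hp2] at e7
        have e8 : v.1 * (p.1⁻¹ * (v.1⁻¹ * w.1)) =
            algebraMap K L c * ((algebraMap K L c * p.1)⁻¹ * w.1) := by
          field_simp
        have e9 : v.2 * (p.2⁻¹ * w.2) = algebraMap K L c * w.2 := by
          rw [hc2]
          field_simp
        rw [e8, e9, ← e4] at e6
        have e10 : w = (w.1, w.2) := rfl
        rw [e10, Nx_mem hv1 one_ne_zero, Nx_mem hm one_ne_zero, inv_one, one_mul]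
        exact e7.symm.trans e6
      have e8 := Nx_free hT hU hno hv1 (mul_ne_zero hcL hp1) e3
      refine ⟨c, hcne, ?_⟩
      refine Prod.ext ?_ ?_
      · show c • p.1 = v.1
        rw [Algebra.smul_def, e8]
      · show c • p.2 = v.2
        rw [Algebra.smul_def, hc2]
    · rintro ⟨c, hc, rfl⟩
      have hcL : algebraMap K L c ≠ 0 := by
        intro h
        exact hc ((algebraMap K L).injective (by rw [h, map_zero]))
      have h1 : (c • p).1 = algebraMap K L c * p.1 := Algebra.smul_def c p.1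
      have h2 : (c • p).2 = algebraMap K L c * p.2 := Algebra.smul_def c p.2
      have hc1 : (c • p).1 ≠ 0 := by
        rw [h1]
        exact mul_ne_zero hcL hp1
      have hc2 : (c • p).2 ≠ 0 := by
        rw [h2]
        exact mul_ne_zero hcL hp2
      refine ⟨⟨U.smul_mem c hp, hc1⟩, ?_⟩
      ext w
      have e1 : w = (w.1, w.2) := rfl
      rw [e1, Phi_mem hc1 hc2, Phi_mem hp1 hp2, h1, h2]
      have e5 : ((algebraMap K L c * p.1 * w.1, algebraMap K L c * p.2 * w.2) : L × L) =
          c • (p.1 * w.1, p.2 * w.2) := by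
        rw [Prod.smul_mk, Algebra.smul_def, Algebra.smul_def, mul_assoc, mul_assoc]
      rw [e5]
      exact U.smul_mem_iff hc
  rw [h3, Finset.card_image_of_injective, Finset.card_erase_of_mem (Finset.mem_univ _),
    Finset.card_univ]
  intro c d h
  have h4 : c • p.1 = d • p.1 := congrArg Prod.fst h
  rw [Algebra.smul_def, Algebra.smul_def] at h4
  exact (algebraMap K L).injective (mul_right_cancel₀ hp1 h4)

/-- counting with `Phi` -/
private theorem Nx_cnt {k : ℕ} {D : Finset (Submodule K (L × L))} (hT : Tor k D)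
    {U : Submodule K (L × L)} (hU : U ∈ Do D) (hno : ∀ z : L, z ≠ 0 → (z, (0 : L)) ∉ U)
    (hax : Module.finrank K ↥(U ⊓ ax2 K L) ≤ 1) (h01 : ((0 : L), (1 : L)) ∈ U)
    (Q : Submodule K (L × L) → Prop) (B' : Finset (Submodule K (L × L)))
    (hB' : ∀ W, W ∈ B' ↔ W ∈ (univ.filter fun v : L × L => v ∈ U ∧ v.1 ≠ 0).image (Phi U) ∧ Q W)
    (T' : Finset (L × L)) (hT' : ∀ v, v ∈ T' ↔ (v ∈ U ∧ v.1 ≠ 0) ∧ Q (Phi U v)) :
    B'.card * (Fintype.card K - 1) = T'.card := by
  have e1 : B' = ((univ.filter fun v : L × L => v ∈ U ∧ v.1 ≠ 0).image (Phi U)).filter Q := by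
    ext W
    rw [hB', Finset.mem_filter]
  have e2 : T' = univ.filter fun v : L × L => (v ∈ U ∧ v.1 ≠ 0) ∧ Q (Phi U v) := by
    ext v
    rw [hT', Finset.mem_filter]
    exact ⟨fun h => ⟨Finset.mem_univ _, h⟩, fun h => h.2⟩
  rw [e1, e2]
  rw [Finset.card_eq_sum_card_fiberwise (f := Phi U)
    (s := univ.filter fun v : L × L => (v ∈ U ∧ v.1 ≠ 0) ∧ Q (Phi U v))
    (t := ((univ.filter fun v : L × L => v ∈ U ∧ v.1 ≠ 0).image (Phi U)).filter Q)]
  · rw [Finset.sum_congr rfl (g := fun _ => Fintype.card K - 1), Finset.sum_const, smul_eq_mul]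
    intro b hb
    obtain ⟨hb1, hb2⟩ := Finset.mem_filter.1 hb
    obtain ⟨p, hp, rfl⟩ := Finset.mem_image.1 hb1
    obtain ⟨-, hp, hp1⟩ := Finset.mem_filter.1 hp
    rw [← Nx_fib hT hU hno hax h01 p hp hp1, Finset.filter_filter]
    congr 1
    ext v
    simp only [Finset.mem_filter, Finset.mem_univ, true_and]
    constructor
    · rintro ⟨⟨h1, -⟩, h2⟩
      exact ⟨h1, h2⟩
    · rintro ⟨h1, h2⟩
      exact ⟨⟨h1, by rw [h2]; exact hb2⟩, h2⟩
  · intro v hv
    have hv' := (Finset.mem_filter.1 (Finset.mem_coe.1 hv)).2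
    exact Finset.mem_coe.2 (Finset.mem_filter.2 ⟨Finset.mem_image.2 ⟨v, Finset.mem_filter.2
      ⟨Finset.mem_univ _, hv'.1⟩, rfl⟩, hv'.2⟩)

/-- the members of `RR D` meeting the second axis -/
private noncomputable def BB (D : Finset (Submodule K (L × L))) : Finset (Submodule K (L × L)) :=
  (RR D).filter fun U => ∃ e : L, e ≠ 0 ∧ ((0 : L), e) ∈ U

private theorem Nx_image (hAx : S_Ax) {k : ℕ} {D : Finset (Submodule K (L × L))} (hT : Tor k D)
    {U : Submodule K (L × L)} (hU : U ∈ Do D) (hno : ∀ z : L, z ≠ 0 → (z, (0 : L)) ∉ U)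
    (h01 : ((0 : L), (1 : L)) ∈ U) :
    (univ.filter fun v : L × L => v ∈ U ∧ v.1 ≠ 0).image (Phi U) = BB D := by
  have hsec : ∀ v : L × L, v ∈ U → v.1 ≠ 0 → v.2 ≠ 0 := by
    intro v hv hv1 hv2
    refine hno v.1 hv1 ?_
    have : v = (v.1, 0) := Prod.ext rfl hv2
    rwa [← this]
  ext W
  constructor
  · intro hW
    obtain ⟨p, hp, rfl⟩ := Finset.mem_image.1 hW
    obtain ⟨-, hp, hp1⟩ := Finset.mem_filter.1 hp
    have hp2 := hsec p hp hp1
    refine Finset.mem_filter.2 ⟨Finset.mem_filter.2 ⟨?_, ?_⟩, p.2⁻¹, inv_ne_zero hp2, ?_⟩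
    · exact hT.2.2.2.2 _ _ (inv_ne_zero hp1) (inv_ne_zero hp2) U (Finset.mem_filter.1 hU).1
    · rw [Phi_mem hp1 hp2, mul_one, mul_one]
      exact hp
    · rw [Phi_mem hp1 hp2, mul_zero, mul_inv_cancel₀ hp2]
      exact h01
  · intro hW
    obtain ⟨hWR, e, he, heW⟩ := Finset.mem_filter.1 hW
    have hWD := Nx_RR hWR
    have h11 : ((1 : L), (1 : L)) ∈ W := (Finset.mem_filter.1 hWR).2
    -- the set P
    obtain ⟨M₁, M₂, -, hM₂, -, hP⟩ := tPt hAx K L k D hT
    have hcL : Fintype.card L = Fintype.card K ^ k := by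
      rw [← hT.2.1]
      exact Module.card_eq_pow_finrank
    have himg : ((univ : Finset L).erase 0).image (fun a => U.map (sc K a 1)) =
        (Do D).filter (fun U => ((0, 1) : L × L) ∈ U) := by
      apply Finset.eq_of_subset_of_card_le
      · intro X hX
        obtain ⟨a, ha, rfl⟩ := Finset.mem_image.1 hX
        have ha0 := Finset.ne_of_mem_erase ha
        refine Finset.mem_filter.2 ⟨Nx_do hT ha0 one_ne_zero hU, ?_⟩
        rw [Nx_mem ha0 one_ne_zero, mul_zero, inv_one, one_mul]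
        exact h01
      · rw [Finset.card_image_of_injOn, Finset.card_erase_of_mem (Finset.mem_univ _),
          Finset.card_univ, hcL, hP]
        · calc M₂ * (Fintype.card K ^ k - 1) ≤ 1 * (Fintype.card K ^ k - 1) :=
                Nat.mul_le_mul_right _ hM₂
            _ = _ := one_mul _
        · intro a ha b hb hab
          exact Nx_free hT hU hno (Finset.ne_of_mem_erase ha) (Finset.ne_of_mem_erase hb) hab
    have hmem : W.map (sc K 1 e⁻¹) ∈ (Do D).filter (fun U => ((0, 1) : L × L) ∈ U) := by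
      refine Finset.mem_filter.2 ⟨Nx_do hT one_ne_zero (inv_ne_zero he) hWD, ?_⟩
      rw [Nx_mem one_ne_zero (inv_ne_zero he), mul_zero, inv_inv, mul_one]
      exact heW
    rw [← himg] at hmem
    obtain ⟨a, ha, hW'⟩ := Finset.mem_image.1 hmem
    have ha0 := Finset.ne_of_mem_erase ha
    have key : ∀ u z : L, (u, z) ∈ W ↔ (a⁻¹ * u, e⁻¹ * z) ∈ U := by
      intro u z
      have h1 : (u, e⁻¹ * z) ∈ W.map (sc K 1 e⁻¹) ↔ (u, z) ∈ W := by
        rw [Nx_mem one_ne_zero (inv_ne_zero he), inv_one, one_mul, inv_inv,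
          mul_inv_cancel_left₀ he]
      rw [← h1, ← hW', Nx_mem ha0 one_ne_zero, inv_one, one_mul]
    have hp : ((a⁻¹, e⁻¹) : L × L) ∈ U := by
      have h1 := (key 1 1).1 h11
      rwa [mul_one, mul_one] at h1
    refine Finset.mem_image.2 ⟨(a⁻¹, e⁻¹), Finset.mem_filter.2 ⟨Finset.mem_univ _, hp,
      inv_ne_zero ha0⟩, ?_⟩
    ext w
    have e1 : w = (w.1, w.2) := rfl
    rw [e1, key, Phi_mem (inv_ne_zero ha0) (inv_ne_zero he)]

/-- the first projection of `U` -/
private theorem Nx_proj {k : ℕ} (U : Submodule K (L × L)) (hU : Module.finrank K U = k)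
    (hax : Module.finrank K ↥(U ⊓ ax2 K L) ≤ 1) (h01 : ((0 : L), (1 : L)) ∈ U) :
    Module.finrank K (U.map (LinearMap.fst K L L)) = k - 1 := by
  have h1 := LinearMap.finrank_range_add_finrank_ker ((LinearMap.fst K L L).domRestrict U)
  rw [LinearMap.range_domRestrict, hU] at h1
  have h2 : Module.finrank K (LinearMap.ker ((LinearMap.fst K L L).domRestrict U)) ≤ 1 := by
    refine le_trans ?_ hax
    rw [LinearEquiv.finrank_eq ((Submodule.equivSubtypeMap U
      (LinearMap.ker ((LinearMap.fst K L L).domRestrict U))))]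
    refine Submodule.finrank_mono ?_
    rintro _ ⟨v, hv, rfl⟩
    exact ⟨v.2, (Nx_ax2 _).2 (by simpa using hv)⟩
  have h3 : 0 < Module.finrank K (LinearMap.ker ((LinearMap.fst K L L).domRestrict U)) := by
    refine Nat.pos_of_ne_zero fun h => ?_
    rw [Submodule.finrank_eq_zero] at h
    have h4 : (⟨((0 : L), (1 : L)), h01⟩ : ↥U) ∈
        LinearMap.ker ((LinearMap.fst K L L).domRestrict U) := by
      rw [LinearMap.mem_ker]
      rfl
    rw [h, Submodule.mem_bot] at h4
    exact one_ne_zero (congrArg (fun z : ↥U => z.1.2) h4)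
  omega

/-- the submodule of the `p ∈ U` with `p₁ x` in the first projection -/
private noncomputable def Ww (U : Submodule K (L × L)) (x : L) : Submodule K (L × L) :=
  U ⊓ ((U.map (LinearMap.fst K L L)).comap
    ((LinearMap.mulRight K x).comp (LinearMap.fst K L L)))

private theorem Ww_mem (U : Submodule K (L × L)) (x : L) (p : L × L) :
    p ∈ Ww U x ↔ p ∈ U ∧ ∃ y : L, (p.1 * x, y) ∈ U := by
  unfold Ww
  rw [Submodule.mem_inf, Submodule.mem_comap]
  refine and_congr_right fun _ => ?_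
  constructor
  · rintro ⟨v, hv, h⟩
    refine ⟨v.2, ?_⟩
    have h1 : v = (p.1 * x, v.2) := Prod.ext h rfl
    rwa [← h1]
  · rintro ⟨y, hy⟩
    exact ⟨_, hy, rfl⟩

private theorem Ww_dim {k : ℕ} (hk : 1 ≤ k) (hL : Module.finrank K L = k)
    (U : Submodule K (L × L)) (hU : Module.finrank K U = k)
    (hax : Module.finrank K ↥(U ⊓ ax2 K L) ≤ 1) (h01 : ((0 : L), (1 : L)) ∈ U)
    (x : L) (hx : Ns K x) : Module.finrank K (Ww U x) = k - 1 := by
  have hY := Nx_proj U hU hax h01
  set Y := U.map (LinearMap.fst K L L) with hYd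
  have hst := Nx_hyp hk hL Y hY x hx
  set g : ↥U →ₗ[K] (L ⧸ Y) :=
    Y.mkQ.comp (((LinearMap.mulRight K x).comp (LinearMap.fst K L L)).comp U.subtype) with hg
  have hq : Module.finrank K (L ⧸ Y) = 1 := by
    have h1 := Submodule.finrank_quotient_add_finrank Y
    rw [hL, hY] at h1
    omega
  have hr := LinearMap.finrank_range_add_finrank_ker g
  rw [hU] at hr
  have hr1 : Module.finrank K (LinearMap.range g) ≤ 1 := by
    rw [← hq]
    exact Submodule.finrank_le _
  have hr2 : 0 < Module.finrank K (LinearMap.range g) := by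
    rw [Module.finrank_pos_iff_exists_ne_zero]
    by_contra hcon
    push Not at hcon
    apply hst
    rintro _ ⟨v, hv, rfl⟩
    have h1 := hcon ⟨g ⟨v, hv⟩, ⟨⟨v, hv⟩, rfl⟩⟩
    have h2 : g ⟨v, hv⟩ = 0 := congrArg Subtype.val h1
    exact (Submodule.Quotient.mk_eq_zero Y).1 h2
  have hW : Ww U x = (LinearMap.ker g).map U.subtype := by
    ext p
    constructor
    · intro hp
      refine ⟨⟨p, hp.1⟩, ?_, rfl⟩
      rw [SetLike.mem_coe, LinearMap.mem_ker]
      exact (Submodule.Quotient.mk_eq_zero Y).2 hp.2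
    · rintro ⟨v, hv, rfl⟩
      refine ⟨v.2, ?_⟩
      rw [SetLike.mem_coe, LinearMap.mem_ker] at hv
      exact (Submodule.Quotient.mk_eq_zero Y).1 hv
  rw [hW, ← LinearEquiv.finrank_eq (Submodule.equivSubtypeMap U (LinearMap.ker g))]
  omega

/-- the elements above `x` of a member with `U ∩ A₂ = 0` -/
private theorem Nx_one {k : ℕ} (hL : Module.finrank K L = k) (U : Submodule K (L × L))
    (hU : Module.finrank K U = k) (h0 : ∀ e : L, ((0 : L), e) ∈ U → e = 0) (x : L) :
    (univ.filter fun y : L => (x, y) ∈ U).card = 1 := by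
  rw [Finset.card_eq_one]
  have hinj : Function.Injective ((LinearMap.fst K L L).domRestrict U) := by
    rw [injective_iff_map_eq_zero]
    intro v hv
    have hv1 : v.1.1 = 0 := hv
    have hv2 : v.1.2 = 0 := by
      apply h0
      have h1 : v.1 = (0, v.1.2) := Prod.ext hv1 rfl
      rw [← h1]
      exact v.2
    exact Subtype.ext (Prod.ext hv1 hv2)
  have hsur := (LinearMap.injective_iff_surjective_of_finrank_eq_finrank
    (hU.trans hL.symm)).1 hinj
  obtain ⟨v, hv⟩ := hsur x
  have hv1 : v.1.1 = x := hv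
  refine ⟨v.1.2, ?_⟩
  ext y
  rw [Finset.mem_filter, Finset.mem_singleton]
  have hxv : (x, v.1.2) ∈ U := by
    have h1 : v.1 = (x, v.1.2) := Prod.ext hv1 rfl
    rw [← h1]
    exact v.2
  constructor
  · rintro ⟨-, hy⟩
    have h1 := U.sub_mem hy hxv
    have h2 : ((x, y) : L × L) - (x, v.1.2) = (0, y - v.1.2) :=
      Prod.ext (sub_self x) rfl
    rw [h2] at h1
    exact sub_eq_zero.1 (h0 _ h1)
  · rintro rfl
    exact ⟨Finset.mem_univ _, hxv⟩

/-- the elements above `x` of a member meeting `A₂` -/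
private theorem Nx_q (U : Submodule K (L × L)) (hax : Module.finrank K ↥(U ⊓ ax2 K L) ≤ 1)
    {e : L} (he0 : e ≠ 0) (he : ((0 : L), e) ∈ U) (x : L) :
    (univ.filter fun y : L => (x, y) ∈ U).card =
      if ∃ y : L, (x, y) ∈ U then Fintype.card K else 0 := by
  split_ifs with h
  · obtain ⟨y₀, hy₀⟩ := h
    have h1 : (univ.filter fun y : L => (x, y) ∈ U) =
        (univ : Finset K).image (fun c => y₀ + algebraMap K L c * e) := by
      ext y
      simp only [Finset.mem_filter, Finset.mem_univ, true_and, Finset.mem_image]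
      constructor
      · intro hy
        have h1 := U.sub_mem hy hy₀
        have h2 : ((x, y) : L × L) - (x, y₀) = (0, y - y₀) := Prod.ext (sub_self x) rfl
        rw [h2] at h1
        obtain ⟨c, hc⟩ := Nx_prop U hax he0 he h1
        exact ⟨c, by rw [hc]; ring⟩
      · rintro ⟨c, rfl⟩
        have h1 := U.add_mem hy₀ (U.smul_mem c he)
        have h2 : ((x, y₀) : L × L) + c • ((0 : L), e) = (x, y₀ + algebraMap K L c * e) := by
          refine Prod.ext ?_ ?_
          · show x + c • (0 : L) = x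
            rw [smul_zero, add_zero]
          · show y₀ + c • e = _
            rw [Algebra.smul_def]
        rwa [h2] at h1
    rw [h1, Finset.card_image_of_injective, Finset.card_univ]
    intro c d hcd
    have h2 : algebraMap K L c * e = algebraMap K L d * e := add_left_cancel hcd
    exact (algebraMap K L).injective (mul_right_cancel₀ he0 h2)
  · rw [Finset.card_eq_zero]
    apply Finset.filter_eq_empty_iff.2
    intro y _ hy
    exact h ⟨y, hy⟩

private theorem Nx_hl {k : ℕ} {D : Finset (Submodule K (L × L))} (hT : Tor k D) (x : L)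
    (hx : Ns K x) :
    (hl D x).card + ∑ U ∈ RR D, (univ.filter fun y : L => (x, y) ∈ U).card =
      Fintype.card K ^ k := by
  have hcL : Fintype.card L = Fintype.card K ^ k := by
    rw [← hT.2.1]
    exact Module.card_eq_pow_finrank
  have h1 : (RR D).biUnion (fun U => univ.filter fun y : L => (x, y) ∈ U) =
      univ.filter fun y : L => ¬ ∀ U ∈ RR D, (x, y) ∉ U := by
    ext y
    simp only [Finset.mem_biUnion, Finset.mem_filter, Finset.mem_univ, true_and, not_forall,
      not_not, exists_prop]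
  have h2 : ((RR D).biUnion (fun U => univ.filter fun y : L => (x, y) ∈ U)).card =
      ∑ U ∈ RR D, (univ.filter fun y : L => (x, y) ∈ U).card := by
    apply Finset.card_biUnion
    intro U hU W hW hUW
    rw [Function.onFun, Finset.disjoint_left]
    intro y hy hy'
    obtain ⟨hUD, hU1⟩ := Finset.mem_filter.1 hU
    obtain ⟨hWD, hW1⟩ := Finset.mem_filter.1 hW
    have hyU := (Finset.mem_filter.1 hy).2
    have hyW := (Finset.mem_filter.1 hy').2
    have hle := hT.2.2.2.1 U hUD W hWD hUW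
    have hli : LinearIndependent K ![(⟨((1 : L), (1 : L)), hU1, hW1⟩ : ↥(U ⊓ W)),
        ⟨(x, y), hyU, hyW⟩] := by
      rw [LinearIndependent.pair_iff]
      intro s t hst
      have h3 : s • (1 : L) + t • x = 0 := congrArg (fun z : ↥(U ⊓ W) => z.1.1) hst
      have ht : t = 0 := by
        by_contra ht
        apply hx
        refine ⟨- (t⁻¹ * s), ?_⟩
        have h4 : x = t⁻¹ • (- (s • (1 : L))) := by
          rw [← eq_neg_of_add_eq_zero_right h3, inv_smul_smul₀ ht]
        rw [h4, smul_neg, smul_smul, Algebra.smul_def, map_neg, mul_one]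
      refine ⟨?_, ht⟩
      rw [ht, zero_smul, add_zero] at h3
      exact (smul_eq_zero.1 h3).resolve_right one_ne_zero
    have h6 := hli.fintype_card_le_finrank
    rw [Fintype.card_fin] at h6
    omega
  rw [← h2, h1, ← hcL]
  unfold hl
  exact Finset.card_filter_add_card_filter_not (s := (univ : Finset L)) _

theorem tNx : S_Ax → S_Lx → S_Nx := by
  intro hAx hLx K L _ _ _ _ _ k D hT hF x hx
  obtain ⟨-, U, hU, h01⟩ := hF
  have hk : 4 ≤ k := hT.1
  have hno : ∀ z : L, z ≠ 0 → (z, (0 : L)) ∉ U := by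
    intro z hz h
    exact hLx K L k D hT U hU z 1 hz one_ne_zero h h01
  have hax := (hAx K L k D hT U hU).2
  have hUk := hT.2.2.1 U (Finset.mem_filter.1 hU).1
  have hq : 2 ≤ Fintype.card K := Fintype.one_lt_card
  -- the members of `BB`
  have himg := Nx_image hAx hT hU hno h01
  have hsec : ∀ v : L × L, v ∈ U → v.1 ≠ 0 → v.2 ≠ 0 := by
    intro v hv hv1 hv2
    refine hno v.1 hv1 ?_
    have : v = (v.1, 0) := Prod.ext rfl hv2
    rwa [← this]
  have c1 := Nx_cardW U hax h01
  rw [hUk] at c1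
  have hB' : (BB D).card * (Fintype.card K - 1) =
      (univ.filter fun v : L × L => v ∈ U ∧ v.1 ≠ 0).card := by
    apply Nx_cnt hT hU hno hax h01 (fun _ => True)
    · intro W
      rw [himg, and_true]
    · intro v
      rw [Finset.mem_filter, and_true]
      exact ⟨fun h => h.2, fun h => ⟨Finset.mem_univ _, h⟩⟩
  have hWax : Module.finrank K ↥(Ww U x ⊓ ax2 K L) ≤ 1 := by
    refine le_trans (Submodule.finrank_mono ?_) hax
    intro v hv
    exact ⟨hv.1.1, hv.2⟩
  have hW01 : ((0 : L), (1 : L)) ∈ Ww U x := by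
    rw [Ww_mem]
    refine ⟨h01, 1, ?_⟩
    rw [zero_mul]
    exact h01
  have c2 := Nx_cardW (Ww U x) hWax hW01
  rw [Ww_dim (by omega) hT.2.1 U hUk hax h01 x hx] at c2
  have hBx' : ((BB D).filter fun W => ∃ y : L, (x, y) ∈ W).card * (Fintype.card K - 1) =
      (univ.filter fun v : L × L => v ∈ Ww U x ∧ v.1 ≠ 0).card := by
    apply Nx_cnt hT hU hno hax h01 (fun W => ∃ y : L, (x, y) ∈ W)
    · intro W
      rw [himg, Finset.mem_filter]
    · intro v
      rw [Finset.mem_filter, Ww_mem]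
      constructor
      · rintro ⟨-, ⟨hv, y, hy⟩, hv1⟩
        refine ⟨⟨hv, hv1⟩, v.2⁻¹ * y, ?_⟩
        rw [Phi_mem hv1 (hsec v hv hv1), mul_inv_cancel_left₀ (hsec v hv hv1)]
        exact hy
      · rintro ⟨⟨hv, hv1⟩, y, hy⟩
        rw [Phi_mem hv1 (hsec v hv hv1)] at hy
        exact ⟨Finset.mem_univ _, ⟨hv, _, hy⟩, hv1⟩
  -- the sum
  have hsum := Nx_hl hT x hx
  have hsplit : ∑ W ∈ RR D, (univ.filter fun y : L => (x, y) ∈ W).card + (BB D).card =
      (RR D).card + Fintype.card K * ((BB D).filter fun W => ∃ y : L, (x, y) ∈ W).card := by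
    have h1 : ∑ W ∈ RR D, (univ.filter fun y : L => (x, y) ∈ W).card =
        ∑ W ∈ BB D, (univ.filter fun y : L => (x, y) ∈ W).card +
        ∑ W ∈ (RR D).filter (fun W => ¬ ∃ e : L, e ≠ 0 ∧ ((0 : L), e) ∈ W),
          (univ.filter fun y : L => (x, y) ∈ W).card :=
      (Finset.sum_filter_add_sum_filter_not _ _ _).symm
    have h2 : ∑ W ∈ (RR D).filter (fun W => ¬ ∃ e : L, e ≠ 0 ∧ ((0 : L), e) ∈ W),
          (univ.filter fun y : L => (x, y) ∈ W).card =
        ((RR D).filter (fun W => ¬ ∃ e : L, e ≠ 0 ∧ ((0 : L), e) ∈ W)).card := by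
      rw [Finset.sum_congr rfl (g := fun _ => 1), Finset.sum_const, smul_eq_mul, mul_one]
      intro W hW
      obtain ⟨hW1, hW2⟩ := Finset.mem_filter.1 hW
      apply Nx_one hT.2.1 W (hT.2.2.1 W (Finset.mem_filter.1 hW1).1)
      intro e he
      by_contra he0
      exact hW2 ⟨e, he0, he⟩
    have h3 : ∑ W ∈ BB D, (univ.filter fun y : L => (x, y) ∈ W).card =
        Fintype.card K * ((BB D).filter fun W => ∃ y : L, (x, y) ∈ W).card := by
      rw [Finset.card_filter, Finset.mul_sum]
      apply Finset.sum_congr rfl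
      intro W hW
      obtain ⟨hW1, e, he0, he⟩ := Finset.mem_filter.1 hW
      rw [Nx_q W (hAx K L k D hT W (Nx_RR hW1)).2 he0 he x]
      split_ifs <;> simp
    have h4 : (BB D).card +
        ((RR D).filter (fun W => ¬ ∃ e : L, e ≠ 0 ∧ ((0 : L), e) ∈ W)).card = (RR D).card :=
      Finset.card_filter_add_card_filter_not _
    rw [h1, h2, h3]
    omega
  have hrr : rr D = (RR D).card := rfl
  rw [hrr]
  -- arithmetic
  set B := (BB D).card with hBd
  set b := ((BB D).filter fun W => ∃ y : L, (x, y) ∈ W).card with hbd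
  set q := Fintype.card K with hqd
  have hkk : q ^ k = q * q ^ (k - 1) := by
    rw [← pow_succ']
    congr 1
    omega
  have hfin : B = q * b + q := by
    have h1 : B * (q - 1) + q = q ^ k := by
      rw [hB']
      exact c1
    have h2 : b * (q - 1) + q = q ^ (k - 1) := by
      rw [hBx']
      exact c2
    have h3 : B * (q - 1) = (q * b + q) * (q - 1) := by
      have h4 : q * (b * (q - 1) + q) = q ^ k := by
        rw [h2, hkk]
      have h5 : B * (q - 1) + q = q * (b * (q - 1)) + q * q := by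
        rw [h1, ← h4]
        ring
      have h6 : q * q = q * (q - 1) + q := by
        obtain ⟨t, ht⟩ : ∃ t, q = t + 1 := ⟨q - 1, by omega⟩
        rw [ht, Nat.add_sub_cancel]
        ring
      rw [h6, ← add_assoc] at h5
      have h7 := Nat.add_right_cancel h5
      rw [h7]
      ring
    exact Nat.eq_of_mul_eq_mul_right (by omega) h3
  rw [hfin] at hsplit
  have h8 : ∑ W ∈ RR D, (univ.filter fun y : L => (x, y) ∈ W).card + q = (RR D).card := by
    have h9 : ∑ W ∈ RR D, (univ.filter fun y : L => (x, y) ∈ W).card + (q * b + q) =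
        (∑ W ∈ RR D, (univ.filter fun y : L => (x, y) ∈ W).card + q) + q * b := by ring
    rw [h9] at hsplit
    exact Nat.add_right_cancel hsplit
  rw [← h8, ← hsum]
  ring

end Pool.Agent.MP8bT
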