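import Pool.Agent.Lib.MP_8b575b_co.Tor.Spec

/-!
# MP_8b575b_co: codes with a split torus, the orbits
-/

set_option autoImplicit false

namespace Pool.Agent.MP8bT

open Finset

open scoped Classical

section

variable {K L : Type} [Field K] [Field L] [Algebra K L]

private theorem Or_sc (a b : L) (v : L × L) : sc K a b v = (a * v.1, b * v.2) := rfl

private theorem Or_comp (a b a' b' : L) :
    (sc K a b).comp (sc K a' b') = sc K (a * a') (b * b') := by
  ext v <;> simp [Or_sc, mul_assoc]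

private theorem Or_map (a b a' b' : L) (U : Submodule K (L × L)) :
    (U.map (sc K a' b')).map (sc K a b) = U.map (sc K (a * a') (b * b')) := by
  rw [← Submodule.map_comp, Or_comp]

private theorem Or_one (U : Submodule K (L × L)) : U.map (sc K 1 1) = U := by
  have h : sc K (1 : L) 1 = LinearMap.id := by
    ext v <;> simp [Or_sc]
  rw [h, Submodule.map_id]

private theorem Or_inv {a b : L} (ha : a ≠ 0) (hb : b ≠ 0) (U : Submodule K (L × L)) :
    (U.map (sc K a b)).map (sc K a⁻¹ b⁻¹) = U := by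
  rw [Or_map, inv_mul_cancel₀ ha, inv_mul_cancel₀ hb, Or_one]

private theorem Or_inv' {a b : L} (ha : a ≠ 0) (hb : b ≠ 0) (U : Submodule K (L × L)) :
    (U.map (sc K a⁻¹ b⁻¹)).map (sc K a b) = U := by
  rw [Or_map, mul_inv_cancel₀ ha, mul_inv_cancel₀ hb, Or_one]

private theorem Or_mem_ax1 (v : L × L) : v ∈ ax1 K L ↔ v.2 = 0 := by
  unfold ax1
  rw [LinearMap.mem_range]
  constructor
  · rintro ⟨x, rfl⟩
    rfl
  · intro h
    exact ⟨v.1, Prod.ext rfl h.symm⟩

private theorem Or_mem_ax2 (v : L × L) : v ∈ ax2 K L ↔ v.1 = 0 := by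
  unfold ax2
  rw [LinearMap.mem_range]
  constructor
  · rintro ⟨x, rfl⟩
    rfl
  · intro h
    exact ⟨v.2, Prod.ext h.symm rfl⟩

private theorem Or_ax1 {a b : L} (ha : a ≠ 0) : (ax1 K L).map (sc K a b) = ax1 K L := by
  ext v
  rw [Submodule.mem_map, Or_mem_ax1]
  constructor
  · rintro ⟨w, hw, rfl⟩
    rw [Or_mem_ax1] at hw
    rw [Or_sc, hw, mul_zero]
  · intro h
    refine ⟨(a⁻¹ * v.1, 0), (Or_mem_ax1 _).mpr rfl, ?_⟩
    rw [Or_sc]
    exact Prod.ext (mul_inv_cancel_left₀ ha _) (by rw [mul_zero, h])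

private theorem Or_ax2 {a b : L} (hb : b ≠ 0) : (ax2 K L).map (sc K a b) = ax2 K L := by
  ext v
  rw [Submodule.mem_map, Or_mem_ax2]
  constructor
  · rintro ⟨w, hw, rfl⟩
    rw [Or_mem_ax2] at hw
    rw [Or_sc, hw, mul_zero]
  · intro h
    refine ⟨(0, b⁻¹ * v.2), (Or_mem_ax2 _).mpr rfl, ?_⟩
    rw [Or_sc]
    exact Prod.ext (by rw [mul_zero, h]) (mul_inv_cancel_left₀ hb _)

private theorem Or_gr (σ : L ≃ₐ[K] L) (a : L) (ha : a ≠ 0) :
    (gr σ).map (sc K a (σ a)) = gr σ := by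
  ext v
  rw [Submodule.mem_map]
  constructor
  · rintro ⟨w, hw, rfl⟩
    have hw' : w.2 = σ w.1 := hw
    show σ a * w.2 = σ (a * w.1)
    rw [hw', map_mul]
  · intro h
    have h' : v.2 = σ v.1 := h
    refine ⟨(a⁻¹ * v.1, σ (a⁻¹ * v.1)), rfl, ?_⟩
    rw [Or_sc]
    refine Prod.ext (mul_inv_cancel_left₀ ha _) ?_
    show σ a * σ (a⁻¹ * v.1) = v.2
    rw [← map_mul, mul_inv_cancel_left₀ ha, h']

/-- Only the scalars stabilize `U`. -/
private def OrSb (U : Submodule K (L × L)) : Prop :=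
  ∀ a b : L, a ≠ 0 → b ≠ 0 → U.map (sc K a b) = U →
    ∃ c : K, algebraMap K L c = a ∧ algebraMap K L c = b

private theorem Or_Sb {a b : L} (ha : a ≠ 0) (hb : b ≠ 0) {U : Submodule K (L × L)}
    (h : OrSb U) : OrSb (U.map (sc K a b)) := by
  intro a' b' ha' hb' he
  refine h a' b' ha' hb' ?_
  have h1 := congrArg (fun W => Submodule.map (sc K a⁻¹ b⁻¹) W) he
  simp only [Or_map] at h1
  rw [inv_mul_cancel₀ ha, inv_mul_cancel₀ hb, Or_one] at h1
  have h2 : a⁻¹ * (a' * a) = a' := by field_simp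
  have h3 : b⁻¹ * (b' * b) = b' := by field_simp
  rwa [h2, h3] at h1

private theorem Or_Sb_iff {a b : L} (ha : a ≠ 0) (hb : b ≠ 0) {U : Submodule K (L × L)} :
    OrSb (U.map (sc K a b)) ↔ OrSb U := by
  refine ⟨fun h => ?_, Or_Sb ha hb⟩
  have h1 := Or_Sb (inv_ne_zero ha) (inv_ne_zero hb) h
  rwa [Or_inv ha hb] at h1

private theorem Or_scal (c : K) (hc : c ≠ 0) (U : Submodule K (L × L)) :
    U.map (sc K (algebraMap K L c) (algebraMap K L c)) = U := by
  have h : ∀ (c : K) (v : L × L),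
      sc K (algebraMap K L c) (algebraMap K L c) v = c • v := by
    intro c v
    rw [Or_sc]
    exact Prod.ext (Algebra.smul_def c v.1).symm (Algebra.smul_def c v.2).symm
  ext v
  rw [Submodule.mem_map]
  constructor
  · rintro ⟨w, hw, rfl⟩
    rw [h]
    exact U.smul_mem c hw
  · intro hv
    refine ⟨c⁻¹ • v, U.smul_mem _ hv, ?_⟩
    rw [h, smul_inv_smul₀ hc]

end

section

variable {K L : Type} [Field K] [Fintype K] [Field L] [Fintype L] [Algebra K L]

omit [Fintype K] [Fintype L] in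
private theorem Or_Do {k : ℕ} {D : Finset (Submodule K (L × L))} (h : Tor k D) {a b : L}
    (ha : a ≠ 0) (hb : b ≠ 0) {U : Submodule K (L × L)} (hU : U ∈ Do D) :
    U.map (sc K a b) ∈ Do D := by
  rw [Do, Finset.mem_filter] at hU ⊢
  refine ⟨h.2.2.2.2 a b ha hb U hU.1, fun h1 => hU.2.1 ?_, fun h1 => hU.2.2 ?_⟩
  · rw [← Or_inv ha hb U, h1, Or_ax1 (inv_ne_zero ha)]
  · rw [← Or_inv ha hb U, h1, Or_ax2 (inv_ne_zero hb)]

/-- The codewords with a small stabilizer. -/
private noncomputable def OrD3 (D : Finset (Submodule K (L × L))) :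
    Finset (Submodule K (L × L)) := (Do D).filter fun U => OrSb U

/-- The codewords with a large stabilizer. -/
private noncomputable def OrD4 (D : Finset (Submodule K (L × L))) :
    Finset (Submodule K (L × L)) := (Do D).filter fun U => ¬ OrSb U

omit [Fintype K] [Fintype L] in
private theorem Or_mem3 {D : Finset (Submodule K (L × L))} {U : Submodule K (L × L)} :
    U ∈ OrD3 D ↔ U ∈ Do D ∧ OrSb U := by
  unfold OrD3
  rw [Finset.mem_filter]

@[reducible] private noncomputable def OrAct {k : ℕ} {D : Finset (Submodule K (L × L))}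
    (h : Tor k D) : MulAction (Lˣ × Lˣ) {U : Submodule K (L × L) // U ∈ OrD3 D} where
  smul g U := ⟨U.1.map (sc K (g.1 : L) (g.2 : L)), by
    have hU := Or_mem3.mp U.2
    rw [Or_mem3]
    exact ⟨Or_Do h g.1.ne_zero g.2.ne_zero hU.1, Or_Sb g.1.ne_zero g.2.ne_zero hU.2⟩⟩
  one_smul U := Subtype.ext (Or_one U.1)
  mul_smul g g' U := Subtype.ext (Or_map (g.1 : L) (g.2 : L) (g'.1 : L) (g'.2 : L) U.1).symm

private theorem Or_D3 {k : ℕ} {D : Finset (Submodule K (L × L))} (h : Tor k D) :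
    ∃ m : ℕ, (OrD3 D).card =
      (Fintype.card K ^ k - 1) * (m * ∑ i ∈ range k, Fintype.card K ^ i) := by
  let _ := OrAct h
  have hL : Fintype.card L = Fintype.card K ^ k := by
    rw [Module.card_eq_pow_finrank (K := K) (V := L), h.2.1]
  have hq : 1 < Fintype.card K := Fintype.one_lt_card
  have hgeo : (∑ i ∈ range k, Fintype.card K ^ i) * (Fintype.card K - 1) =
      Fintype.card K ^ k - 1 := by
    have h1 := geom_sum_mul_add (Fintype.card K - 1) k
    rw [Nat.sub_add_cancel hq.le] at h1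
    omega
  have hst : ∀ U : {U : Submodule K (L × L) // U ∈ OrD3 D},
      Fintype.card (MulAction.stabilizer (Lˣ × Lˣ) U) = Fintype.card K - 1 := by
    intro U
    have hU := Or_mem3.mp U.2
    rw [← Fintype.card_units]
    symm
    refine Fintype.card_of_bijective (f := fun c : Kˣ =>
      (⟨(Units.map (algebraMap K L).toMonoidHom c, Units.map (algebraMap K L).toMonoidHom c), ?_⟩ :
        MulAction.stabilizer (Lˣ × Lˣ) U)) ⟨?_, ?_⟩
    · rw [MulAction.mem_stabilizer_iff]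
      exact Subtype.ext (Or_scal (c : K) c.ne_zero U.1)
    · intro c c' hcc
      have h1 := congrArg (fun z : MulAction.stabilizer (Lˣ × Lˣ) U => ((z.1.1 : Lˣ) : L)) hcc
      exact Units.ext ((algebraMap K L).injective h1)
    · rintro ⟨g, hg⟩
      rw [MulAction.mem_stabilizer_iff] at hg
      obtain ⟨c, hc1, hc2⟩ := hU.2 g.1 g.2 g.1.ne_zero g.2.ne_zero (congrArg Subtype.val hg)
      have hc0 : c ≠ 0 := by
        rintro rfl
        rw [map_zero] at hc1
        exact g.1.ne_zero hc1.symm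
      refine ⟨Units.mk0 c hc0, Subtype.ext (Prod.ext (Units.ext hc1) (Units.ext hc2))⟩
  refine ⟨Fintype.card (Quotient (MulAction.orbitRel (Lˣ × Lˣ)
    {U : Submodule K (L × L) // U ∈ OrD3 D})), ?_⟩
  have h2 := MulAction.card_eq_sum_card_group_div_card_stabilizer (Lˣ × Lˣ)
    {U : Submodule K (L × L) // U ∈ OrD3 D}
  rw [Fintype.card_coe] at h2
  rw [h2, Finset.sum_congr rfl fun ω _ => by rw [hst], Finset.sum_const, smul_eq_mul,
    Finset.card_univ, Fintype.card_prod, Fintype.card_units, hL]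
  have h3 : (Fintype.card K ^ k - 1) * (Fintype.card K ^ k - 1) / (Fintype.card K - 1) =
      (Fintype.card K ^ k - 1) * ∑ i ∈ range k, Fintype.card K ^ i := by
    rw [← hgeo]
    rw [← mul_assoc, Nat.mul_div_cancel _ (by omega)]
  rw [h3]
  ring

omit [Fintype K] in
private theorem Or_regular {k : ℕ} {D : Finset (Submodule K (L × L))} (h : Tor k D)
    {U : Submodule K (L × L)} (hU : U ∈ Do D) : ∃ v ∈ U, v.1 ≠ 0 ∧ v.2 ≠ 0 := by
  rw [Do, Finset.mem_filter] at hU
  have hk : Module.finrank K U = k := h.2.2.1 U hU.1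
  have h1 : ∃ v ∈ U, v.2 ≠ 0 := by
    by_contra hno
    push Not at hno
    apply hU.2.1
    refine Submodule.eq_of_le_of_finrank_eq (fun v hv => (Or_mem_ax1 v).mpr (hno v hv)) ?_
    rw [hk, ax1, LinearMap.finrank_range_of_inj LinearMap.inl_injective, h.2.1]
  have h2 : ∃ v ∈ U, v.1 ≠ 0 := by
    by_contra hno
    push Not at hno
    apply hU.2.2
    refine Submodule.eq_of_le_of_finrank_eq (fun v hv => (Or_mem_ax2 v).mpr (hno v hv)) ?_
    rw [hk, ax2, LinearMap.finrank_range_of_inj LinearMap.inr_injective, h.2.1]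
  obtain ⟨v, hv, hv2⟩ := h1
  obtain ⟨w, hw, hw1⟩ := h2
  by_cases hv1 : v.1 = 0
  · by_cases hw2 : w.2 = 0
    · refine ⟨v + w, U.add_mem hv hw, ?_, ?_⟩
      · rw [Prod.fst_add, hv1, zero_add]
        exact hw1
      · rw [Prod.snd_add, hw2, add_zero]
        exact hv2
    · exact ⟨w, hw, hw1, hw2⟩
  · exact ⟨v, hv, hv1, hv2⟩

private theorem Or_D4 (hSt : S_St) {k : ℕ} {D : Finset (Submodule K (L × L))} (h : Tor k D) :
    (OrD4 D).card = (Fintype.card K ^ k - 1) * {σ : L ≃ₐ[K] L | gr σ ∈ D}.ncard := by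
  have hL : Fintype.card L = Fintype.card K ^ k := by
    rw [Module.card_eq_pow_finrank (K := K) (V := L), h.2.1]
  have hout : ∃ a : L, a ∉ Set.range (algebraMap K L) := by
    by_contra hno
    push Not at hno
    have h1 : Fintype.card L ≤ Fintype.card K :=
      Fintype.card_le_of_surjective (algebraMap K L) hno
    rw [hL] at h1
    have h2 : Fintype.card K ^ 1 < Fintype.card K ^ k :=
      Nat.pow_lt_pow_right Fintype.one_lt_card (by have := h.1; omega)
    rw [pow_one] at h2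
    omega
  obtain ⟨a, ha⟩ := hout
  have ha0 : a ≠ 0 := by
    rintro rfl
    exact ha ⟨0, map_zero _⟩
  have : Fintype (L ≃ₐ[K] L) := Fintype.ofFinite _
  have hS : {σ : L ≃ₐ[K] L | gr σ ∈ D}.ncard =
      (univ.filter fun σ : L ≃ₐ[K] L => gr σ ∈ D).card := by
    rw [← Set.ncard_coe_finset]
    congr 1
    ext σ
    simp
  have hC : Fintype.card K ^ k - 1 = (univ.filter fun c : L => c ≠ 0).card := by
    rw [Finset.filter_ne', Finset.card_erase_of_mem (Finset.mem_univ _), Finset.card_univ, hL]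
  rw [hS, hC, ← Finset.card_product]
  symm
  refine Finset.card_bij (fun z _ => (gr z.2).map (sc K 1 z.1)) ?_ ?_ ?_
  · rintro ⟨c, σ⟩ hz
    rw [Finset.mem_product, Finset.mem_filter, Finset.mem_filter] at hz
    obtain ⟨⟨-, hc⟩, -, hσ⟩ := hz
    have hmem : ((1, c) : L × L) ∈ (gr σ).map (sc K 1 c) := by
      refine ⟨(1, 1), ?_, ?_⟩
      · show (1 : L) = σ 1
        rw [map_one]
      · rw [Or_sc]
        exact Prod.ext (mul_one _) (mul_one _)
    rw [OrD4, Finset.mem_filter, Do, Finset.mem_filter]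
    refine ⟨⟨h.2.2.2.2 1 c one_ne_zero hc _ hσ, fun h1 => ?_, fun h1 => ?_⟩, fun h1 => ?_⟩
    · rw [h1, Or_mem_ax1] at hmem
      exact hc hmem
    · rw [h1, Or_mem_ax2] at hmem
      exact one_ne_zero hmem
    · have hσa : σ a ≠ 0 := fun h2 => ha0 ((map_eq_zero_iff σ σ.injective).mp h2)
      obtain ⟨c', hc', -⟩ := h1 a (σ a) ha0 hσa (by
        rw [Or_map, mul_comm a 1, mul_comm (σ a) c, ← Or_map, Or_gr σ a ha0])
      exact ha ⟨c', hc'⟩
  · rintro ⟨c, σ⟩ hz ⟨d, τ⟩ hz' he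
    rw [Finset.mem_product, Finset.mem_filter, Finset.mem_filter] at hz hz'
    obtain ⟨⟨-, hc⟩, -, -⟩ := hz
    obtain ⟨⟨-, hd⟩, -, -⟩ := hz'
    simp only at he hc hd
    have key : ∀ z : L, c * σ z = d * τ z := by
      intro z
      have h1 : ((z, c * σ z) : L × L) ∈ (gr σ).map (sc K 1 c) := by
        refine ⟨(z, σ z), rfl, ?_⟩
        rw [Or_sc]
        exact Prod.ext (one_mul _) rfl
      rw [he] at h1
      obtain ⟨w, hw, hw'⟩ := h1
      have h2 : w.2 = τ w.1 := hw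
      rw [Or_sc] at hw'
      have h3 : 1 * w.1 = z := congrArg Prod.fst hw'
      have h4 : d * w.2 = c * σ z := congrArg Prod.snd hw'
      rw [one_mul] at h3
      rw [← h4, h2, h3]
    have hcd : c = d := by
      have h1 := key 1
      rwa [map_one, map_one, mul_one, mul_one] at h1
    subst hcd
    have hστ : σ = τ := AlgEquiv.ext fun z => mul_left_cancel₀ hc (key z)
    rw [hστ]
  · intro U hU
    rw [OrD4, Finset.mem_filter] at hU
    obtain ⟨v, hv, hv1, hv2⟩ := Or_regular h hU.1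
    have hW : U.map (sc K v.1⁻¹ v.2⁻¹) ∈ Do D :=
      Or_Do h (inv_ne_zero hv1) (inv_ne_zero hv2) hU.1
    have h11 : ((1, 1) : L × L) ∈ U.map (sc K v.1⁻¹ v.2⁻¹) := by
      refine ⟨v, hv, ?_⟩
      rw [Or_sc]
      exact Prod.ext (inv_mul_cancel₀ hv1) (inv_mul_cancel₀ hv2)
    have hnS : ¬ OrSb (U.map (sc K v.1⁻¹ v.2⁻¹)) := fun h1 =>
      hU.2 ((Or_Sb_iff (inv_ne_zero hv1) (inv_ne_zero hv2)).mp h1)
    unfold OrSb at hnS
    push Not at hnS
    obtain ⟨a', b', ha', hb', he, hno⟩ := hnS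
    obtain ⟨σ, hσ⟩ := hSt K L k D h _ hW h11 a' b' ha' hb' he (by
      rintro ⟨c, hc, hc'⟩
      exact hno c hc hc')
    have hσv : σ v.1 ≠ 0 := fun h2 => hv1 ((map_eq_zero_iff σ σ.injective).mp h2)
    refine ⟨(v.2 * (σ v.1)⁻¹, σ), ?_, ?_⟩
    · rw [Finset.mem_product, Finset.mem_filter, Finset.mem_filter]
      refine ⟨⟨Finset.mem_univ _, mul_ne_zero hv2 (inv_ne_zero hσv)⟩, Finset.mem_univ _, ?_⟩
      show gr σ ∈ D
      rw [← hσ]
      rw [Do, Finset.mem_filter] at hW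
      exact hW.1
    · show (gr σ).map (sc K 1 (v.2 * (σ v.1)⁻¹)) = U
      rw [← Or_gr σ v.1 hv1, Or_map, one_mul, inv_mul_cancel_right₀ hσv, ← hσ]
      exact Or_inv' hv1 hv2 U

end

theorem tOr : S_Ax → S_St → S_Or := by
  intro _ hSt K L _ _ _ _ _ k D h
  obtain ⟨m, hm⟩ := Or_D3 h
  refine ⟨m, ?_⟩
  have h1 : (Do D).card = (OrD3 D).card + (OrD4 D).card := by
    rw [OrD3, OrD4, Finset.card_filter_add_card_filter_not]
  rw [h1, hm, Or_D4 hSt h]
  ring

end Pool.Agent.MP8bT
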