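import Pool.Agent.Lib.MP_8b575b_co.Tor.SpecB

set_option autoImplicit false

namespace Pool.Agent.MP8bT

open Finset Polynomial

open scoped Classical

private theorem p1_prod {L : Type} [Field L] [Fintype L] :
    (∏ y : L, (X - C y) : L[X]) = X ^ Fintype.card L - X := by
  have h2 := FiniteField.roots_X_pow_card_sub_X L
  have h3 : Multiset.card (X ^ Fintype.card L - X : L[X]).roots =
      (X ^ Fintype.card L - X : L[X]).natDegree := by
    rw [h2, FiniteField.X_pow_card_sub_X_natDegree_eq L Fintype.one_lt_card]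
    rfl
  have h4 : (X ^ Fintype.card L - X : L[X]).Monic := by
    apply Polynomial.monic_X_pow_sub
    rw [Polynomial.degree_X]
    exact_mod_cast Fintype.one_lt_card
  have h5 := Polynomial.prod_multiset_X_sub_C_of_monic_of_roots_card_eq h4 h3
  rw [h2] at h5
  exact h5

/-- The product over all elements. -/
private theorem p1_all {L : Type} [Field L] [Fintype L] :
    (∏ y : L, (1 - C y * X) : L[X]) = 1 - X ^ (Fintype.card L - 1) := by
  have hn : 1 < Fintype.card L := Fintype.one_lt_card
  have hP : (∏ y ∈ univ.erase (0 : L), (X - C y) : L[X]) = X ^ (Fintype.card L - 1) - 1 := by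
    have h := p1_prod (L := L)
    rw [← Finset.mul_prod_erase univ _ (Finset.mem_univ (0 : L)), map_zero, sub_zero] at h
    have h' : (X : L[X]) * ∏ y ∈ univ.erase (0 : L), (X - C y) =
        X * (X ^ (Fintype.card L - 1) - 1) := by
      rw [h, mul_sub, ← pow_succ', Nat.sub_add_cancel (by omega), mul_one]
    exact mul_left_cancel₀ X_ne_zero h'
  have h1 : (∏ y : L, (1 - C y * X) : L[X]) = ∏ y ∈ univ.erase (0 : L), (1 - C y * X) := by
    rw [← Finset.mul_prod_erase univ _ (Finset.mem_univ (0 : L))]
    simp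
  have h2 : (∏ y ∈ univ.erase (0 : L), (1 - C y * X) : L[X]) =
      C (∏ y ∈ univ.erase (0 : L), (-y)) * ∏ y ∈ univ.erase (0 : L), (X - C (y⁻¹)) := by
    rw [map_prod, ← Finset.prod_mul_distrib]
    refine Finset.prod_congr rfl fun y hy => ?_
    have hy0 : y ≠ 0 := (Finset.mem_erase.1 hy).1
    rw [mul_sub, ← C_mul, neg_mul, mul_inv_cancel₀ hy0]
    simp only [map_neg, map_one]
    ring
  have h3 : (∏ y ∈ univ.erase (0 : L), (X - C (y⁻¹)) : L[X]) =
      ∏ y ∈ univ.erase (0 : L), (X - C y) := by
    refine Finset.prod_bij (fun y _ => y⁻¹) ?_ ?_ ?_ ?_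
    · intro y hy
      exact Finset.mem_erase.2 ⟨inv_ne_zero (Finset.mem_erase.1 hy).1, Finset.mem_univ _⟩
    · intro a _ b _ h; exact inv_injective h
    · intro b hb
      exact ⟨b⁻¹, Finset.mem_erase.2 ⟨inv_ne_zero (Finset.mem_erase.1 hb).1,
        Finset.mem_univ _⟩, inv_inv b⟩
    · intro a _; rfl
  rw [h1, h2, h3, hP]
  have h4 : (∏ y ∈ univ.erase (0 : L), (-y)) = -1 := by
    have h := congrArg (Polynomial.eval 0) (h2.trans (by rw [h3, hP]))
    rw [Polynomial.eval_prod] at h
    simp only [eval_sub, eval_one, eval_mul, eval_C, eval_X, mul_zero, sub_zero,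
      Finset.prod_const_one, eval_pow, zero_pow (Nat.sub_ne_zero_of_lt hn)] at h
    linear_combination h
  rw [h4]
  simp only [map_neg, map_one]
  ring

/-- Shift of the product over all elements. -/
private theorem p1_shift {L : Type} [Field L] [Fintype L] :
    (∏ z : L, (1 - C (1 + z) * X) : L[X]) = 1 - X ^ (Fintype.card L - 1) := by
  rw [← p1_all]
  exact Fintype.prod_equiv (Equiv.addLeft (1 : L)) _ _ fun z => rfl

theorem tP1 : S_Ax → S_Ze → S_P1 := by
  intro _ hZe K L _ _ _ _ _ k D hT hF
  have hcard : Fintype.card L = Fintype.card K ^ k := by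
    have := Module.card_eq_pow_finrank (K := K) (V := L)
    rw [this, hT.2.1]
  -- the fibres over `1`
  have hpu : ∀ U ∈ RR D, pu U (1 : L) =
      (1 - X) * ∏ z ∈ univ.filter (fun z : L => z ≠ 0 ∧ ((0 : L), z) ∈ U),
        (1 - C (1 + z) * X) := by
    intro U hU
    have hU1 : ((1, 1) : L × L) ∈ U := (Finset.mem_filter.1 hU).2
    have h1 : pu U (1 : L) = ∏ z ∈ univ.filter (fun z : L => ((0 : L), z) ∈ U),
        (1 - C (1 + z) * X) := by
      unfold pu
      refine Finset.prod_bij (fun y _ => y - 1) ?_ ?_ ?_ ?_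
      · intro y hy
        rw [Finset.mem_filter] at hy ⊢
        refine ⟨Finset.mem_univ _, ?_⟩
        have := U.sub_mem hy.2 hU1
        simpa using this
      · intro a _ b _ h
        exact sub_left_injective h
      · intro z hz
        rw [Finset.mem_filter] at hz
        refine ⟨1 + z, ?_, by ring⟩
        rw [Finset.mem_filter]
        refine ⟨Finset.mem_univ _, ?_⟩
        have := U.add_mem hU1 hz.2
        simpa using this
      · intro y _
        rw [show (1 : L) + (y - 1) = y by ring]
    rw [h1]
    have h2 : univ.filter (fun z : L => ((0 : L), z) ∈ U) =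
        insert 0 (univ.filter (fun z : L => z ≠ 0 ∧ ((0 : L), z) ∈ U)) := by
      ext z
      simp only [Finset.mem_filter, Finset.mem_univ, true_and, Finset.mem_insert]
      constructor
      · intro h
        by_cases hz : z = 0
        · exact Or.inl hz
        · exact Or.inr ⟨hz, h⟩
      · rintro (rfl | h)
        · exact U.zero_mem
        · exact h.2
    rw [h2, Finset.prod_insert (by simp)]
    simp
  have hdisj : (RR D : Set (Submodule K (L × L))).PairwiseDisjoint
      fun U => univ.filter (fun z : L => z ≠ 0 ∧ ((0 : L), z) ∈ U) := by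
    intro U hU W hW hUW
    rw [Function.onFun, Finset.disjoint_left]
    intro z hz hz'
    rw [Finset.mem_filter] at hz hz'
    have hU' := Finset.mem_filter.1 (Finset.mem_coe.1 hU)
    have hW' := Finset.mem_filter.1 (Finset.mem_coe.1 hW)
    have h1 := hT.2.2.2.1 U hU'.1 W hW'.1 hUW
    have hli : LinearIndependent K ![(⟨((1, 1) : L × L), hU'.2, hW'.2⟩ : ↥(U ⊓ W)),
        ⟨((0, z) : L × L), hz.2.2, hz'.2.2⟩] := by
      rw [LinearIndependent.pair_iff]
      intro s t hst
      have h2 := congrArg (fun v : ↥(U ⊓ W) => (v : L × L).1) hst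
      have h2' := congrArg (fun v : ↥(U ⊓ W) => (v : L × L).2) hst
      simp only [Submodule.coe_add, Submodule.coe_smul, Prod.fst_add, Prod.smul_fst,
        ZeroMemClass.coe_zero, Prod.fst_zero, Prod.snd_add, Prod.smul_snd,
        Prod.snd_zero] at h2 h2'
      have hs : s = 0 := by
        rw [smul_zero, add_zero, Algebra.smul_def, mul_one] at h2
        exact (map_eq_zero _).1 h2
      refine ⟨hs, ?_⟩
      rw [hs, zero_smul, zero_add, Algebra.smul_def] at h2'
      rcases mul_eq_zero.1 h2' with h | h
      · exact (map_eq_zero _).1 h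
      · exact absurd h hz.2.1
    have h3 := hli.fintype_card_le_finrank
    simp at h3
    omega
  have hA : (∏ U ∈ RR D, pu U (1 : L)) = (1 - X) ^ rr D *
      ∏ z ∈ univ.filter (fun z : L => Ns K z), (1 - C (1 + z) * X) := by
    rw [Finset.prod_congr rfl hpu, Finset.prod_mul_distrib, Finset.prod_const,
      ← Finset.prod_biUnion hdisj]
    congr 1
    refine Finset.prod_congr ?_ fun _ _ => rfl
    ext z
    simp only [Finset.mem_biUnion, Finset.mem_filter, Finset.mem_univ, true_and]
    constructor
    · rintro ⟨U, hU, hz, hzU⟩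
      exact ((hZe K L k D hT hF z hz).1).1 ⟨U, hU, hzU⟩
    · intro hz
      have hz0 : z ≠ 0 := by
        rintro rfl
        exact hz ⟨0, map_zero _⟩
      obtain ⟨U, hU, hzU⟩ := ((hZe K L k D hT hF z hz0).1).2 hz
      exact ⟨U, hU, hz0, hzU⟩
  have hB : (∏ z ∈ univ.filter (fun z : L => ¬ Ns K z), (1 - C (1 + z) * X) : L[X]) =
      1 - X ^ (Fintype.card K - 1) := by
    have h1 : (∏ z ∈ univ.filter (fun z : L => ¬ Ns K z), (1 - C (1 + z) * X) : L[X]) =
        ∏ c : K, (1 - C (1 + algebraMap K L c) * X) := by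
      symm
      refine Finset.prod_bij (fun c _ => algebraMap K L c) ?_ ?_ ?_ ?_
      · intro c _
        rw [Finset.mem_filter]
        exact ⟨Finset.mem_univ _, fun h => h ⟨c, rfl⟩⟩
      · intro a _ b _ h; exact (algebraMap K L).injective h
      · intro z hz
        have hz' := (Finset.mem_filter.1 hz).2
        unfold Ns at hz'
        rw [not_not] at hz'
        obtain ⟨c, hc⟩ := hz'
        exact ⟨c, Finset.mem_univ _, hc⟩
      · intro c _; rfl
    rw [h1]
    have h2 := congrArg (Polynomial.map (algebraMap K L)) (p1_shift (L := K))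
    rw [Polynomial.map_prod] at h2
    simp only [Polynomial.map_sub, Polynomial.map_one, Polynomial.map_mul, Polynomial.map_C,
      Polynomial.map_X, Polynomial.map_pow, Polynomial.map_add, map_add, map_one] at h2
    simp only [map_add, map_one]
    exact h2
  rw [hA, ← hB, mul_assoc, Finset.prod_filter_mul_prod_filter_not, p1_shift, hcard]

end Pool.Agent.MP8bT
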