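import Pool.Agent.Lib.MP_8b575b_co.Tor.SpecB

set_option autoImplicit false

namespace Pool.Agent.MP8bT

open Finset Polynomial

open scoped Classical

private theorem pa_gen {K L : Type} [Field K] [Field L] [Algebra K L] (d : ℕ)
    (l : List (L →ₗ[K] K)) (h : l.length ≤ d) :
    (fun x : L => algebraMap K L ((l.map fun φ => φ x).prod)) ∈ Pd K L d :=
  Submodule.subset_span ⟨l, h, rfl⟩

private theorem pa_mul {K L : Type} [Field K] [Field L] [Algebra K L] (a b : ℕ) (f g : L → L)
    (hf : f ∈ Pd K L a) (hg : g ∈ Pd K L b) : (fun x => f x * g x) ∈ Pd K L (a + b) := by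
  change f * g ∈ Pd K L (a + b)
  induction hf using Submodule.span_induction with
  | mem f hf =>
    obtain ⟨l, hl, rfl⟩ := hf
    induction hg using Submodule.span_induction with
    | mem g hg =>
      obtain ⟨l', hl', rfl⟩ := hg
      have := pa_gen (K := K) (L := L) (a + b) (l ++ l') (by
        rw [List.length_append]; omega)
      convert this using 1
      funext x
      simp [List.map_append, List.prod_append, map_mul]
    | zero => simp
    | add x y _ _ hx hy => rw [mul_add]; exact Submodule.add_mem _ hx hy
    | smul c x _ hx => rw [mul_smul_comm]; exact Submodule.smul_mem _ c hx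
  | zero => simp
  | add x y _ _ hx hy => rw [add_mul]; exact Submodule.add_mem _ hx hy
  | smul c x _ hx => rw [smul_mul_assoc]; exact Submodule.smul_mem _ c hx

theorem tPa : S_Pa := by
  intro K L _ _ _ _ _
  refine ⟨?_, pa_mul, ?_, ?_, ?_⟩
  · intro c
    have h := pa_gen (K := K) (L := L) 0 [] (by simp)
    have := Submodule.smul_mem (Pd K L 0) c h
    convert this using 1
    funext x
    simp
  · intro a b hab
    apply Submodule.span_mono
    rintro f ⟨l, hl, rfl⟩
    exact ⟨l, hl.trans hab, rfl⟩
  · intro ψ
    have : Module.Finite K L := Module.Finite.of_finite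
    let B := Module.finBasis K L
    have h1 : (fun x => ψ x) = ∑ i, ψ (B i) • (fun x : L => algebraMap K L
        (([B.coord i].map fun φ => φ x).prod)) := by
      funext x
      conv_lhs => rw [← B.sum_repr x, map_sum]
      simp only [List.map_cons, List.map_nil, List.prod_cons, List.prod_nil, mul_one,
        Finset.sum_apply, Pi.smul_apply, smul_eq_mul, map_smul, Module.Basis.coord_apply]
      refine Finset.sum_congr rfl fun i _ => ?_
      rw [Algebra.smul_def, mul_comm]
    rw [h1]
    exact Submodule.sum_mem _ fun i _ => Submodule.smul_mem _ _ (pa_gen 1 _ (by simp))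
  · intro a ψ f hf
    induction hf using Submodule.span_induction generalizing ψ with
    | mem f hf =>
      obtain ⟨l, hl, rfl⟩ := hf
      have := Submodule.smul_mem (Pd K L a) (ψ 1) (pa_gen a l hl)
      convert this using 1
      funext x
      simp only [Pi.smul_apply, smul_eq_mul]
      rw [show algebraMap K L ((l.map fun φ => φ x).prod) =
        ((l.map fun φ => φ x).prod) • (1 : L) by rw [Algebra.smul_def, mul_one], map_smul,
        Algebra.smul_def, Algebra.smul_def]
      ring
    | zero =>
      have : (fun x : L => ψ ((0 : L → L) x)) = 0 := by funext x; simp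
      rw [this]; exact Submodule.zero_mem _
    | add f g _ _ hf hg =>
      have : (fun x : L => ψ ((f + g) x)) = (fun x => ψ (f x)) + fun x => ψ (g x) := by
        funext x; simp
      rw [this]; exact Submodule.add_mem _ (hf ψ) (hg ψ)
    | smul c f _ hf =>
      have := hf (ψ ∘ₗ LinearMap.mulLeft K c)
      simpa using this

end Pool.Agent.MP8bT
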