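import Pool.Agent.Lib.MP_8b575b_co.Tor.SpecB

set_option autoImplicit false

namespace Pool.Agent.MP8bT

open Finset Polynomial

open scoped Classical

private theorem pe_uniq {L : Type} [Field L] (P H : L[X]) (e : ℕ → L) (N : ℕ)
    (hP : P.coeff 0 = 1) (h0 : e 0 = H.coeff 0)
    (h1 : ∀ j, 1 ≤ j → j ≤ N → (P * ∑ i ∈ range (j + 1), C (e i) * X ^ i).coeff j = 0)
    (h2 : ∀ j, 1 ≤ j → j ≤ N → (P * H).coeff j = 0) : ∀ j ≤ N, e j = H.coeff j := by
  intro j
  induction j using Nat.strong_induction_on with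
  | _ j ih =>
    intro hj
    rcases Nat.eq_zero_or_pos j with rfl | hpos
    · exact h0
    have a1 := h1 j hpos hj
    have a2 := h2 j hpos hj
    rw [Finset.mul_sum, Polynomial.finsetSum_coeff, Finset.sum_range_succ] at a1
    have ha : ∀ i ≤ j, (P * (C (e i) * X ^ i)).coeff j = P.coeff (j - i) * e i := by
      intro i hi
      rw [← mul_assoc, Polynomial.coeff_mul_X_pow', if_pos hi, Polynomial.coeff_mul_C]
    rw [ha j le_rfl, Nat.sub_self, hP, one_mul] at a1
    rw [mul_comm, Polynomial.coeff_mul, Finset.Nat.sum_antidiagonal_eq_sum_range_succ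
      (fun a b => H.coeff a * P.coeff b), Finset.sum_range_succ, Nat.sub_self, hP, mul_one] at a2
    have hs : ∑ i ∈ range j, (P * (C (e i) * X ^ i)).coeff j =
        ∑ i ∈ range j, H.coeff i * P.coeff (j - i) := by
      refine Finset.sum_congr rfl fun i hi => ?_
      have hi' := Finset.mem_range.1 hi
      rw [ha i hi'.le, ih i hi' (by omega), mul_comm]
    rw [hs] at a1
    linear_combination a1 - a2

theorem tPe : S_Ax → S_Nx → S_Pi → S_Px → S_P1 → S_Pe := by
  intro hAx _ hPi hPx hP1 K L _ _ _ _ _ k n D hT hF hq hn hnr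
  have hRD : ∀ U ∈ RR D, U ∈ Do D := by
    intro U hU
    have hU' := Finset.mem_filter.1 hU
    refine Finset.mem_filter.2 ⟨hU'.1, ?_, ?_⟩
    · rintro rfl
      obtain ⟨y, hy⟩ := hU'.2
      have := congrArg Prod.snd hy
      simp at this
    · rintro rfl
      obtain ⟨y, hy⟩ := hU'.2
      have := congrArg Prod.fst hy
      simp at this
  obtain ⟨ε, e1, e2, e3, e4⟩ := hPi K L k (RR D) hq hT.2.1 (fun U hU =>
    ⟨hT.2.2.1 U (Finset.mem_filter.1 hU).1, (hAx K L k D hT U (hRD U hU)).2⟩)
  have hP0 : ∀ x : L, (∏ U ∈ RR D, pu U x).coeff 0 = 1 := by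
    intro x
    rw [Polynomial.coeff_zero_prod]
    refine Finset.prod_eq_one fun U _ => ?_
    unfold pu
    rw [Polynomial.coeff_zero_prod]
    exact Finset.prod_eq_one fun y _ => by simp
  have hk : 4 ≤ k := hT.1
  have hqk : Fintype.card K + 1 ≤ Fintype.card K ^ k - 1 := by
    have h1 : Fintype.card K ^ 2 ≤ Fintype.card K ^ k :=
      Nat.pow_le_pow_right (by omega) (by omega)
    have h2 : Fintype.card K + 2 ≤ Fintype.card K ^ 2 := by nlinarith
    omega
  refine ⟨ε, e1, e3, ?_, ?_⟩
  · intro x hx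
    refine pe_uniq (∏ U ∈ RR D, pu U x) _ (fun j => ε j x) _ (hP0 x) ?_
      (fun j hj _ => e4 x j hj) ?_
    · change ε 0 x = _
      rw [e2, Polynomial.coeff_zero_prod]
      symm
      exact Finset.prod_eq_one fun y _ => by simp
    · intro j hj hjq
      rw [hPx K L k D hT x hx, Polynomial.coeff_sub, Polynomial.coeff_one,
        if_neg (by omega), Polynomial.coeff_X_pow, if_neg (by omega), sub_zero]
  · intro j hj
    refine pe_uniq (∏ U ∈ RR D, pu U (1 : L)) _ (fun j => ε j 1) (Fintype.card K - 1) (hP0 1) ?_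
      (fun j hj _ => e4 1 j hj) ?_ j (by omega)
    · change ε 0 1 = _
      rw [e2, Polynomial.mul_coeff_zero]
      simp only [coeff_sub, coeff_one_zero, coeff_X_pow]
      rw [if_neg (by omega), sub_zero, mul_one, Polynomial.coeff_zero_eq_eval_zero]
      simp
    · intro j hj1 hjq
      obtain ⟨p, hp⟩ := CharP.exists K
      obtain ⟨e, hpp, he⟩ := FiniteField.card K p
      haveI : CharP L p := charP_of_injective_algebraMap (algebraMap K L).injective p
      haveI : Fact p.Prime := ⟨hpp⟩
      have hfr : ∀ m : ℕ, ((1 - X) ^ (Fintype.card K ^ m) : L[X]) =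
          1 - X ^ (Fintype.card K ^ m) := by
        intro m
        rw [he, ← pow_mul, sub_pow_char_pow, one_pow]
      have hmain : (∏ U ∈ RR D, pu U (1 : L)) *
          ((1 - X) ^ n * (1 - X ^ (Fintype.card K - 1))) =
          (1 - X ^ (Fintype.card K ^ k)) * (1 - X ^ Fintype.card K) *
            (1 - X ^ (Fintype.card K ^ k - 1)) := by
        have h1 := hP1 K L k D hT hF
        have h2 : ((1 - X) ^ n * (1 - X) ^ rr D : L[X]) =
            (1 - X ^ (Fintype.card K ^ k)) * (1 - X ^ Fintype.card K) := by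
          rw [← pow_add, hnr, pow_add, hfr, show (Fintype.card K) = Fintype.card K ^ 1 by
            rw [pow_one], hfr]
        calc (∏ U ∈ RR D, pu U (1 : L)) * ((1 - X) ^ n * (1 - X ^ (Fintype.card K - 1)))
            = (1 - X) ^ n * ((∏ U ∈ RR D, pu U (1 : L)) * (1 - X ^ (Fintype.card K - 1))) := by
              ring
          _ = ((1 - X) ^ n * (1 - X) ^ rr D) * (1 - X ^ (Fintype.card K ^ k - 1)) := by
              rw [h1]; ring
          _ = _ := by rw [h2]
      rw [hmain]
      obtain ⟨a, ha⟩ : ∃ a, Fintype.card K ^ k = Fintype.card K + a :=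
        ⟨Fintype.card K ^ k - Fintype.card K, by omega⟩
      obtain ⟨b, hb⟩ : ∃ b, Fintype.card K ^ k - 1 = Fintype.card K + b :=
        ⟨Fintype.card K ^ k - 1 - Fintype.card K, by omega⟩
      rw [hb, ha]
      have hS : ((1 - X ^ (Fintype.card K + a)) * (1 - X ^ Fintype.card K) *
          (1 - X ^ (Fintype.card K + b)) : L[X]) = 1 + X ^ Fintype.card K *
          (-(X ^ a + 1 + X ^ b) + X ^ Fintype.card K * (X ^ a + X ^ a * X ^ b + X ^ b) -
            (X ^ Fintype.card K) ^ 2 * (X ^ a * X ^ b)) := by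
        rw [pow_add, pow_add]; ring
      rw [hS, Polynomial.coeff_add, Polynomial.coeff_one, if_neg (by omega),
        Polynomial.coeff_X_pow_mul', if_neg (by omega), add_zero]

end Pool.Agent.MP8bT
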