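import Pool.Agent.Lib.MP_8b575b_co.Tor.SpecB

/-! Tor/Pf: the main step. -/

set_option autoImplicit false

namespace Pool.Agent.MP8bT

open Finset Polynomial

open scoped Classical

private theorem pf_deg {L : Type} [Field L] (S : Finset L) :
    (∏ y ∈ S, (1 - C y * X) : L[X]).natDegree ≤ S.card := by
  refine (natDegree_prod_le _ _).trans ?_
  calc ∑ y ∈ S, (1 - C y * X : L[X]).natDegree ≤ ∑ _y ∈ S, 1 :=
        Finset.sum_le_sum fun y _ => by compute_degree
    _ = S.card := by simp

private theorem pf_c {L : Type} [Field L] (a : L) (P : L[X]) (n : ℕ) :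
    ((1 - C a * X) * P).coeff n = P.coeff n - a * (X * P).coeff n := by
  rw [sub_mul, one_mul, coeff_sub, mul_assoc, coeff_C_mul]

private theorem pf_id {L : Type} [Field L] (S : Finset L) : (0 : L) ∉ S →
    (∏ y ∈ S, (1 - C y⁻¹ * X) : L[X]).coeff 1 *
        (∏ y ∈ S, (1 - C y * X) : L[X]).coeff S.card =
      (X * ∏ y ∈ S, (1 - C y * X) : L[X]).coeff S.card := by
  induction S using Finset.induction_on with
  | empty =>
    intro _
    simp [coeff_one]
  | insert a S ha ih =>
    intro h0
    have ha0 : a ≠ 0 := fun h => h0 (by rw [h]; exact Finset.mem_insert_self _ _)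
    have ih := ih fun h => h0 (Finset.mem_insert_of_mem h)
    rw [Finset.prod_insert ha, Finset.prod_insert ha, Finset.card_insert_of_notMem ha]
    obtain ⟨P, hP⟩ : ∃ P : L[X], P = ∏ y ∈ S, (1 - C y * X) := ⟨_, rfl⟩
    obtain ⟨Q, hQ⟩ : ∃ Q : L[X], Q = ∏ y ∈ S, (1 - C y⁻¹ * X) := ⟨_, rfl⟩
    rw [← hP, ← hQ] at ih ⊢
    have hQ0 : Q.coeff 0 = 1 := by
      rw [hQ, coeff_zero_eq_eval_zero, eval_prod]
      simp
    have hPn : P.coeff (S.card + 1) = 0 := by
      refine coeff_eq_zero_of_natDegree_lt ?_
      rw [hP]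
      exact Nat.lt_succ_of_le (pf_deg S)
    rw [pf_c, pf_c, coeff_X_mul, coeff_X_mul, coeff_X_mul, pf_c, hPn, ← ih, hQ0]
    field_simp
    ring

private theorem pf_m {L : Type} [Field L] (A : L[X]) (m : ℕ) :
    (A * (1 - X ^ m)).coeff m = A.coeff m - A.coeff 0 := by
  rw [mul_sub, mul_one, coeff_sub, coeff_mul_X_pow', if_pos le_rfl, Nat.sub_self]

private theorem pf_lt {L : Type} [Field L] (A : L[X]) {m j : ℕ} (h : j < m) :
    (A * (1 - X ^ m)).coeff j = A.coeff j := by
  rw [mul_sub, mul_one, coeff_sub, coeff_mul_X_pow', if_neg (not_le.2 h), sub_zero]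

private theorem pf_frob {K L : Type} [Field K] [Fintype K] [Field L] [Algebra K L] :
    ((1 - X) ^ Fintype.card K : L[X]) = 1 - X ^ Fintype.card K := by
  have h1 := FiniteField.expand_card (1 - X : K[X])
  have h2 := congrArg (Polynomial.map (algebraMap K L)) h1
  rw [Polynomial.map_pow] at h2
  simp only [map_sub, map_one, expand_X, Polynomial.map_sub, Polynomial.map_one,
    Polynomial.map_pow, map_X] at h2
  exact h2.symm

theorem tPf : S_Nx → S_In → S_Q2 → S_Pa → S_Pz → S_Pe → S_Pf := by
  intro hNx hIn hQ2 hPa hPz hPe K L _ _ _ _ _ k D hk hT hF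
  by_contra hr
  push Not at hr
  have hq := hQ2 K L k D hT hF
  have hfr : Module.finrank K L = k := hT.2.1
  obtain ⟨q, hqe⟩ : ∃ q, q = Fintype.card K := ⟨_, rfl⟩
  rw [← hqe] at hr hq
  -- a nonscalar element
  obtain ⟨x₀, hx₀⟩ : ∃ x₀ : L, Ns K x₀ := by
    by_contra hn
    push Not at hn
    have hsur : Function.Surjective (algebraMap K L) := by
      intro x
      have := hn x
      unfold Ns at this
      push Not at this
      exact this
    have h1 := Fintype.card_le_of_surjective _ hsur
    rw [Module.card_eq_pow_finrank (K := K) (V := L), hfr, ← hqe] at h1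
    have h2 : q ^ 1 < q ^ k := Nat.pow_lt_pow_right (by omega) (by omega)
    rw [pow_one] at h2
    omega
  have hns0 : ∀ x : L, Ns K x → x ≠ 0 := by
    rintro x hx rfl
    exact hx ⟨0, map_zero _⟩
  have hnsi : ∀ x : L, Ns K x → Ns K x⁻¹ := by
    rintro x hx ⟨c, hc⟩
    refine hx ⟨c⁻¹, ?_⟩
    rw [map_inv₀, hc, inv_inv]
  obtain ⟨n, hn0⟩ : ∃ n, n = (hl D x₀).card := ⟨_, rfl⟩
  have hn : n + rr D = q ^ k + q := by
    rw [hn0, hqe]
    exact hNx K L k D hT hF x₀ hx₀
  have hnq : n ≤ q := by omega
  have hcard : ∀ x : L, Ns K x → (hl D x).card = n := by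
    intro x hx
    have := hNx K L k D hT hF x hx
    rw [← hqe] at this
    omega
  obtain ⟨ε, hε, ⟨ψ, hψ⟩, hεx, hε1⟩ := hPe K L k n D hT hF (by rw [← hqe]; exact hq)
    (by rw [← hqe]; exact hnq) (by rw [← hqe]; exact hn)
  rw [← hqe] at hε hεx hε1
  obtain ⟨pa1, pa2, pa3, pa4, pa5⟩ := hPa K L
  have hA0 : ∀ m : ℕ, ((1 - X) ^ m : L[X]).coeff 0 = 1 := by
    intro m
    rw [coeff_zero_eq_eval_zero]
    simp
  by_cases hn1 : n + 1 < q
  · -- first case
    have h1 : ε (q - 1) 1 = 0 := by
      refine hPz K L k (q - 1) (ε (q - 1)) (by omega) hfr ?_ (hε _ (by omega)) ?_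
      · rw [← hqe]
        have h2 : (q - 1) * 2 ≤ (q - 1) * (k - 1) := Nat.mul_le_mul_left _ (by omega)
        omega
      · intro x hx
        rw [hεx x hx (q - 1) (by omega)]
        refine coeff_eq_zero_of_natDegree_lt (lt_of_le_of_lt (pf_deg _) ?_)
        rw [hcard x hx]
        omega
    have h2 := hε1 (q - 1) (by omega)
    rw [pf_m, hA0] at h2
    have h3 : ((1 - X) ^ n : L[X]).coeff (q - 1) = 0 := by
      refine coeff_eq_zero_of_natDegree_lt (lt_of_le_of_lt (natDegree_pow_le) ?_)
      have h4 : (1 - X : L[X]).natDegree ≤ 1 := by compute_degree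
      have h5 : n * (1 - X : L[X]).natDegree ≤ n * 1 := Nat.mul_le_mul_left _ h4
      omega
    rw [h1, h3, zero_sub, eq_comm, neg_eq_zero] at h2
    exact one_ne_zero h2
  · -- second case
    have hrel : ε 1 1 * ε n 1 = ε (n - 1) 1 := by
      obtain ⟨M, hM⟩ : ∃ M : L → L, ∀ x, M x = ∏ i ∈ range (k - 1), x ^ q ^ (i + 1) :=
        ⟨_, fun _ => rfl⟩
      have hfrob : ∀ i : ℕ, (fun x : L => x ^ q ^ i) ∈ Pd K L 1 := by
        intro i
        have h1 := pa4 ((FiniteField.frobeniusAlgHom K L) ^ i).toLinearMap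
        have h2 : (fun x : L => ((FiniteField.frobeniusAlgHom K L) ^ i).toLinearMap x) =
            fun x => x ^ q ^ i := by
          funext x
          rw [AlgHom.toLinearMap_apply, AlgHom.coe_pow, FiniteField.coe_frobeniusAlgHom,
            pow_iterate, hqe]
        rw [h2] at h1
        exact h1
      have hMm : (fun x => M x) ∈ Pd K L (k - 1) := by
        have h1 : ∀ m : ℕ, (fun x : L => ∏ i ∈ range m, x ^ q ^ (i + 1)) ∈ Pd K L m := by
          intro m
          induction m with
          | zero => exact pa1 1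
          | succ m ih =>
            simp only [Finset.prod_range_succ]
            exact pa2 m 1 _ _ ih (hfrob (m + 1))
        have h2 := h1 (k - 1)
        simp only [← hM] at h2
        exact h2
      have hN : ∀ x : L, x * M x = algebraMap K L (Algebra.norm K x) := by
        intro x
        rw [FiniteField.algebraMap_norm_eq_prod_pow, hfr, hM]
        have hk1 : k = (k - 1) + 1 := by omega
        rw [hk1, Finset.prod_range_succ', Nat.add_sub_cancel, pow_zero, pow_one, mul_comm,
          Nat.card_eq_fintype_card, hqe]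
      have hid1 : (fun x : L => x) ∈ Pd K L 1 := pa4 LinearMap.id
      have hF1 : (fun x => ψ (M x) * ε n x) ∈ Pd K L (k - 1 + q) :=
        pa3 _ _ (by omega) (pa2 (k - 1) n _ _ (pa5 _ ψ _ hMm) (hε n hnq))
      have hF2 : (fun x => (x * M x) * ε (n - 1) x) ∈ Pd K L (k - 1 + q) :=
        pa3 _ _ (by omega) (pa2 (1 + (k - 1)) (n - 1) _ _ (pa2 1 (k - 1) _ _ hid1 hMm)
          (hε (n - 1) (by omega)))
      have hF3 : (fun x => ψ (M x) * ε n x - (x * M x) * ε (n - 1) x) ∈ Pd K L (k - 1 + q) :=
        Submodule.sub_mem _ hF1 hF2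
      have h0 := hPz K L k (k - 1 + q) _ (by omega) hfr (by
        rw [← hqe]
        obtain ⟨a, rfl⟩ : ∃ a, q = a + 3 := ⟨q - 3, by omega⟩
        obtain ⟨b, rfl⟩ : ∃ b, k = b + 5 := ⟨k - 5, by omega⟩
        have e1 : a + 3 - 1 = a + 2 := by omega
        have e2 : b + 5 - 1 = b + 4 := by omega
        rw [e1, e2]
        nlinarith) hF3 (fun x hx => by
          have hx0 := hns0 x hx
          have hxi := hnsi x hx
          have e1 : M x = (Algebra.norm K x) • x⁻¹ := by
            rw [Algebra.smul_def, ← hN x]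
            field_simp
          have e2 : ψ (M x) = algebraMap K L (Algebra.norm K x) * ε 1 x⁻¹ := by
            rw [e1, map_smul, Algebra.smul_def, hψ]
          have e3 : ε 1 x⁻¹ * ε n x = ε (n - 1) x := by
            obtain ⟨hz, hinv⟩ := hIn K L k D hT hF x hx
            obtain ⟨hz', -⟩ := hIn K L k D hT hF x⁻¹ hxi
            have e4 : hl D x⁻¹ = (hl D x).image (fun y => y⁻¹) := by
              ext y
              rw [Finset.mem_image]
              constructor
              · intro hy
                have hy0 : y ≠ 0 := by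
                  rintro rfl
                  exact hz' hy
                refine ⟨y⁻¹, ?_, inv_inv y⟩
                rw [hinv _ (inv_ne_zero hy0), inv_inv]
                exact hy
              · rintro ⟨z, hz1, rfl⟩
                have hz0 : z ≠ 0 := by
                  rintro rfl
                  exact hz hz1
                exact (hinv z hz0).1 hz1
            rw [hεx _ hxi 1 (by omega), hεx _ hx n hnq, hεx _ hx (n - 1) (by omega), e4,
              Finset.prod_image fun a _ b _ hab => inv_injective hab]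
            have h5 := pf_id (hl D x) hz
            rw [hcard x hx] at h5
            rw [h5]
            have hn' : n = (n - 1) + 1 := by omega
            rw [hn', coeff_X_mul, Nat.add_sub_cancel]
          change ψ (M x) * ε n x - (x * M x) * ε (n - 1) x = 0
          rw [e2, hN x, ← e3]
          ring)
      have hM1 : M 1 = 1 := by
        rw [hM]
        simp
      change ψ (M 1) * ε n 1 - (1 * M 1) * ε (n - 1) 1 = 0 at h0
      rw [hM1, ← hψ, one_mul, one_mul] at h0
      exact sub_eq_zero.1 h0
    have hfr' : ((1 - X) ^ q : L[X]) = 1 - X ^ q := by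
      rw [hqe]
      exact pf_frob (K := K)
    rcases (show n = q ∨ n = q - 1 by omega) with hnn | hnn
    · have h1 := hε1 1 (by omega)
      have h2 := hε1 (q - 1) (by omega)
      rw [hnn, hfr', pf_lt _ (by omega)] at h1
      rw [hnn, hfr', pf_m] at h2
      have c1 : (1 - X ^ q : L[X]).coeff 1 = 0 := by
        rw [coeff_sub, coeff_one, coeff_X_pow, if_neg (by omega), if_neg (by omega), sub_zero]
      have c2 : (1 - X ^ q : L[X]).coeff (q - 1) = 0 := by
        rw [coeff_sub, coeff_one, coeff_X_pow, if_neg (by omega), if_neg (by omega), sub_zero]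
      have c3 : (1 - X ^ q : L[X]).coeff 0 = 1 := by
        rw [coeff_sub, coeff_one, coeff_X_pow, if_pos rfl, if_neg (by omega), sub_zero]
      rw [c1] at h1
      rw [c2, c3, zero_sub] at h2
      rw [h1, zero_mul, hnn, h2, eq_comm, neg_eq_zero] at hrel
      exact one_ne_zero hrel
    · have hA : ((1 - X) ^ (q - 1) : L[X]) = ∑ i ∈ range q, X ^ i := by
        have h1 : (1 - X : L[X]) ≠ 0 := by
          intro h
          have h2 := congrArg (fun P => P.coeff 0) h
          simp at h2
        refine mul_right_cancel₀ h1 ?_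
        have e1 : ((1 - X) ^ (q - 1) * (1 - X) : L[X]) = (1 - X) ^ q := by
          rw [← pow_succ]
          congr 1
          omega
        rw [e1, hfr', geom_sum_mul_neg]
      have hAc : ∀ i, i < q → ((1 - X) ^ (q - 1) : L[X]).coeff i = 1 := by
        intro i hi
        rw [hA, finsetSum_coeff, Finset.sum_eq_single i]
        · rw [coeff_X_pow, if_pos rfl]
        · intro j _ hj
          rw [coeff_X_pow, if_neg (Ne.symm hj)]
        · intro h
          exact absurd (Finset.mem_range.2 hi) h
      have h1 := hε1 (q - 1) (by omega)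
      have h2 := hε1 (q - 2) (by omega)
      rw [hnn, pf_m, hAc _ (by omega), hAc _ (by omega), sub_self] at h1
      rw [hnn, pf_lt _ (by omega), hAc _ (by omega)] at h2
      have e1 : n - 1 = q - 2 := by omega
      rw [e1, hnn, h1, h2, mul_zero] at hrel
      exact zero_ne_one hrel

end Pool.Agent.MP8bT
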