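import Pool.Agent.Lib.MP_8b575b_co.Tor.SpecB

/-! The case `q = 2` does not occur. -/

set_option autoImplicit false

namespace Pool.Agent.MP8bT

open Finset Polynomial

open scoped Classical

private theorem Q2_zero {K L : Type} [Field K] [Field L] [Algebra K L] {z : L} (h : Ns K z) :
    z ≠ 0 := by
  rintro rfl
  exact h ⟨0, map_zero _⟩

private theorem Q2_do {K L : Type} [Field K] [Field L] [Algebra K L]
    {D : Finset (Submodule K (L × L))} {U : Submodule K (L × L)} (h : U ∈ RR D) : U ∈ Do D := by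
  rw [RR, mem_filter] at h
  rw [Do, mem_filter]
  refine ⟨h.1, ?_, ?_⟩
  · rintro rfl
    obtain ⟨x, hx⟩ := h.2
    have h1 := congrArg Prod.snd hx
    exact zero_ne_one h1
  · rintro rfl
    obtain ⟨x, hx⟩ := h.2
    have h1 := congrArg Prod.fst hx
    exact zero_ne_one h1

/-- Two different nonzero vectors in a space of dimension at most one over the field with two
elements. -/
private theorem Q2_two {K V : Type} [Field K] [Fintype K] [AddCommGroup V] [Module K V]
    [Finite V] (hK : Fintype.card K = 2) (W : Submodule K V) (hW : Module.finrank K W ≤ 1)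
    (a b : V) (ha : a ∈ W) (hb : b ∈ W) (ha0 : a ≠ 0) (hb0 : b ≠ 0) : a = b := by
  by_contra hab
  have : Fintype W := Fintype.ofFinite _
  have h1 : Fintype.card W ≤ 2 := by
    rw [Module.card_eq_pow_finrank (K := K) (V := W), hK]
    exact (Nat.pow_le_pow_right (by norm_num) hW).trans (by norm_num)
  have h2 : ({0, ⟨a, ha⟩, ⟨b, hb⟩} : Finset W).card = 3 := by
    refine card_eq_three.2 ⟨_, _, _, ?_, ?_, ?_, rfl⟩
    · exact fun h => ha0 (congrArg Subtype.val h).symm
    · exact fun h => hb0 (congrArg Subtype.val h).symm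
    · exact fun h => hab (congrArg Subtype.val h)
  have h3 := card_le_univ ({0, ⟨a, ha⟩, ⟨b, hb⟩} : Finset W)
  omega

theorem tQ2 (h1 : S_Ax) (h2 : S_Lx) (h3 : S_Ze) (h4 : S_Nx) : S_Q2 := by
  intro K L _ _ _ _ _ k D hT hF
  by_contra hK
  have hK2 : Fintype.card K = 2 := by
    have h := Fintype.one_lt_card (α := K)
    omega
  have hk := hT.1
  have hL : Fintype.card L = 2 ^ k := by
    rw [Module.card_eq_pow_finrank (K := K) (V := L), hT.2.1, hK2]
  set S : Finset L := univ.filter fun z => Ns K z with hS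
  have hSc : 2 ^ k ≤ S.card + 2 := by
    have e1 : (univ : Finset L) ⊆ S ∪ univ.image (algebraMap K L) := by
      intro z _
      by_cases hz : Ns K z
      · exact mem_union_left _ (mem_filter.2 ⟨mem_univ _, hz⟩)
      · obtain ⟨c, hc⟩ := not_not.1 hz
        exact mem_union_right _ (mem_image.2 ⟨c, mem_univ _, hc⟩)
    have e2 := (card_le_card e1).trans (card_union_le _ _)
    have e3 : (univ.image (algebraMap K L)).card ≤ Fintype.card K := card_image_le
    rw [card_univ, hL] at e2
    omega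
  have g1 : ∀ z : L, Ns K z → ∃ U, U ∈ RR D ∧ ((0 : L), z) ∈ U := fun z hz =>
    (h3 K L k D hT hF z (Q2_zero hz)).1.2 hz
  have g2 : ∀ z : L, Ns K z → ∃ U, U ∈ RR D ∧ (z, (0 : L)) ∈ U := fun z hz =>
    (h3 K L k D hT hF z (Q2_zero hz)).2.2 hz
  choose! u hu using g1
  choose! w hw using g2
  have hui : Set.InjOn u (S : Set L) := by
    intro z hz z' hz' he
    have hz := (mem_filter.1 hz).2
    have hz' := (mem_filter.1 hz').2
    have e1 := Q2_two hK2 _ (h1 K L k D hT (u z) (Q2_do (hu z hz).1)).2 ((0 : L), z) (0, z')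
      ⟨(hu z hz).2, z, rfl⟩ ⟨by rw [he]; exact (hu z' hz').2, z', rfl⟩
      (fun h => Q2_zero hz (congrArg Prod.snd h)) (fun h => Q2_zero hz' (congrArg Prod.snd h))
    exact congrArg Prod.snd e1
  have hwi : Set.InjOn w (S : Set L) := by
    intro z hz z' hz' he
    have hz := (mem_filter.1 hz).2
    have hz' := (mem_filter.1 hz').2
    have e1 := Q2_two hK2 _ (h1 K L k D hT (w z) (Q2_do (hw z hz).1)).1 (z, (0 : L)) (z', 0)
      ⟨(hw z hz).2, z, rfl⟩ ⟨by rw [he]; exact (hw z' hz').2, z', rfl⟩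
      (fun h => Q2_zero hz (congrArg Prod.fst h)) (fun h => Q2_zero hz' (congrArg Prod.fst h))
    exact congrArg Prod.fst e1
  have hd : Disjoint (S.image u) (S.image w) := by
    rw [disjoint_left]
    intro U hU hU'
    obtain ⟨z, hz, rfl⟩ := mem_image.1 hU
    obtain ⟨z', hz', he⟩ := mem_image.1 hU'
    have hz := (mem_filter.1 hz).2
    have hz' := (mem_filter.1 hz').2
    refine h2 K L k D hT (u z) (Q2_do (hu z hz).1) z' z (Q2_zero hz') (Q2_zero hz) ?_ (hu z hz).2
    rw [← he]
    exact (hw z' hz').2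
  have hsub : S.image u ∪ S.image w ⊆ RR D := by
    intro U hU
    rcases mem_union.1 hU with hU | hU
    · obtain ⟨z, hz, rfl⟩ := mem_image.1 hU
      exact (hu z (mem_filter.1 hz).2).1
    · obtain ⟨z, hz, rfl⟩ := mem_image.1 hU
      exact (hw z (mem_filter.1 hz).2).1
  have hc := card_le_card hsub
  rw [card_union_of_disjoint hd, card_image_of_injOn hui, card_image_of_injOn hwi] at hc
  have h16 : 2 ^ 4 ≤ 2 ^ k := Nat.pow_le_pow_right (by norm_num) hk
  have hne : S.Nonempty := by
    rw [← card_pos]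
    omega
  obtain ⟨x, hx⟩ := hne
  have h5 := h4 K L k D hT hF x (mem_filter.1 hx).2
  have h6 : rr D = (RR D).card := rfl
  rw [hK2] at h5
  omega

end Pool.Agent.MP8bT
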