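import Mathlib

/-!
# MP_8b575b_co: codes with a split torus

THEOREM. Let `K` be a field with `q` elements, `k ≥ 4` even, `L` a field extension of degree `k`, `V = L × L`. A set of
`k`-dimensional `K`-subspaces of `V`, pairwise meeting in dimension at most one and invariant under all the maps
`(x, y) ↦ (a x, b y)` (`a`, `b ∈ L`, nonzero), has at most `q ^ (2 k) + 1` elements.

The proofs are complete in the docstrings; every module is independent (used statements are hypotheses):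
file `Tor/<Name>.lean` (import this file only), namespace `Pool.Agent.MP8bT`, `theorem t<Name> : S_X → .. → S_<Name>`
(hypotheses in the order of the docstring), all other declarations `private`. `q = Fintype.card K`; `#L = q ^ k`.
-/

set_option autoImplicit false

namespace Pool.Agent.MP8bT

open Finset

open scoped Classical

variable {K L : Type} [Field K] [Fintype K] [Field L] [Fintype L] [Algebra K L]

/-- The map `(x, y) ↦ (a x, b y)`. -/
def sc (K : Type) {L : Type} [Field K] [Field L] [Algebra K L] (a b : L) :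
    (L × L) →ₗ[K] (L × L) := (LinearMap.mulLeft K a).prodMap (LinearMap.mulLeft K b)

/-- The first axis. -/
def ax1 (K L : Type) [Field K] [Field L] [Algebra K L] : Submodule K (L × L) :=
  LinearMap.range (LinearMap.inl K L L)

/-- The second axis. -/
def ax2 (K L : Type) [Field K] [Field L] [Algebra K L] : Submodule K (L × L) :=
  LinearMap.range (LinearMap.inr K L L)

/-- The graph of an automorphism. -/
def gr {K L : Type} [Field K] [Field L] [Algebra K L] (σ : L ≃ₐ[K] L) : Submodule K (L × L) :=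
  LinearMap.graph σ.toLinearMap

/-- The setting. -/
def Tor (k : ℕ) (D : Finset (Submodule K (L × L))) : Prop :=
  4 ≤ k ∧ Module.finrank K L = k ∧ (∀ U ∈ D, Module.finrank K U = k) ∧
  (∀ U ∈ D, ∀ W ∈ D, U ≠ W → Module.finrank K ↥(U ⊓ W) ≤ 1) ∧
  ∀ a b : L, a ≠ 0 → b ≠ 0 → ∀ U ∈ D, U.map (sc K a b) ∈ D

/-- The codewords different from the axes. -/
noncomputable def Do (D : Finset (Submodule K (L × L))) : Finset (Submodule K (L × L)) :=
  D.filter fun U => U ≠ ax1 K L ∧ U ≠ ax2 K L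

/-- The number of the codewords through `(1, 1)`. -/
noncomputable def rr (D : Finset (Submodule K (L × L))) : ℕ :=
  (D.filter fun U => ((1, 1) : L × L) ∈ U).card

/-- **Ax** (100 lines). Intersections with the axes.

Proof. Suppose `dim (U ∩ A₁) ≥ 2` (`A₁ = ax1`). For `b ≠ 0` the map `sc 1 b` fixes `A₁` pointwise, so `sc 1 b U` and `U` have an
intersection of dimension at least two, and `sc 1 b U = U`. Take `(x, y) ∈ U` with `y ≠ 0` (otherwise `U ⊆ A₁`, `U = A₁`).
`(0, (1 - b) y) = (x, y) - (x, b y) ∈ U` for all `b ≠ 0`, so `(0, z) ∈ U` for all `z ≠ y`; as `#L > 2` (`y = z + (y - z)` with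
`z ≠ 0, y`) for all `z`. So `A₂ ⊆ U`, `U = A₂` (dimensions): contradiction. The second axis is similar. -/
def S_Ax : Prop :=
  ∀ (K L : Type) [Field K] [Fintype K] [Field L] [Fintype L] [Algebra K L] (k : ℕ)
    (D : Finset (Submodule K (L × L))), Tor k D → ∀ U ∈ Do D,
    Module.finrank K ↥(U ⊓ ax1 K L) ≤ 1 ∧ Module.finrank K ↥(U ⊓ ax2 K L) ≤ 1

/-- **Pt** (200 lines, uses `S_Ax`). The codewords through a vector of an axis.

Proof. `P = {U ∈ Do D | (1, 0) ∈ U}`. For `b ≠ 0` the map `sc 1 b` sends `P` to itself (it is bijective, fixes `(1, 0)`, and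
preserves both axes). This action of `Lˣ` is free: if `sc 1 b U = U`, `b ≠ 1`, then `(0, (1 - b) y) ∈ U` for all `(x, y) ∈ U`;
the second projection of `U` has the kernel `U ∩ A₁` of dimension at most one, so its image has dimension at least
`k - 1`, and `U ∩ A₂` has dimension at least `k - 1 ≥ 3`: contradiction to `S_Ax`. So `q ^ k - 1` divides `#P`. The sets
`U \ A₁`, `U ∈ P`, are pairwise disjoint (a common element and `(1, 0)` span a space of dimension two), have
`q ^ k - q` elements (`dim (U ∩ A₁) = 1`) and are contained in `V \ A₁`: `#P (q ^ k - q) ≤ q ^ (2 k) - q ^ k < 2 (q ^ k - 1)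
(q ^ k - q)`. So `#P < 2 (q ^ k - 1)`. The second axis is similar (or apply the first to the image of `D` under the
exchange of the coordinates). -/
def S_Pt : Prop :=
  ∀ (K L : Type) [Field K] [Fintype K] [Field L] [Fintype L] [Algebra K L] (k : ℕ)
    (D : Finset (Submodule K (L × L))), Tor k D → ∃ M₁ M₂ : ℕ, M₁ ≤ 1 ∧ M₂ ≤ 1 ∧
    ((Do D).filter fun U => ((1, 0) : L × L) ∈ U).card = M₁ * (Fintype.card K ^ k - 1) ∧
    ((Do D).filter fun U => ((0, 1) : L × L) ∈ U).card = M₂ * (Fintype.card K ^ k - 1)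

/-- **Cn** (200 lines, uses `S_Pt`). Counting.

Proof. Count the pairs `(v, U)`, `U ∈ Do D`, `0 ≠ v ∈ U`: each `U` has `q ^ k - 1` of them. For `v = (x, y)`, `x`, `y ≠ 0`, the number of
the `U` is `rr D` (the bijection `U ↦ sc x⁻¹ y⁻¹ U`; `v` is on no axis); for `v = (x, 0)`, `x ≠ 0`, it is
`#{U ∈ Do D | (1, 0) ∈ U} = M₁ (q ^ k - 1)` (bijection `sc x⁻¹ 1`, which preserves the axes), similarly for `(0, y)`. So
`#(Do D) (q ^ k - 1) = (q ^ k - 1) ^ 2 (rr D + M₁ + M₂)`. Second statement: the sets `U \ K (1, 1)`, `(1, 1) ∈ U ∈ D`, are pairwise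
disjoint with `q ^ k - q` elements. -/
def S_Cn : Prop :=
  ∀ (K L : Type) [Field K] [Fintype K] [Field L] [Fintype L] [Algebra K L] (k : ℕ)
    (D : Finset (Submodule K (L × L))), Tor k D → (∃ M : ℕ, M ≤ 2 ∧
    (Do D).card = (Fintype.card K ^ k - 1) * (rr D + M)) ∧
    rr D * (Fintype.card K ^ k - Fintype.card K) ≤ Fintype.card K ^ (2 * k) - Fintype.card K

/-- **St** (200 lines, uses `S_Ax`). Codewords with a large stabilizer.

Proof. Call `v = (x, y)` regular if `x ≠ 0`, `y ≠ 0`; write `v w` for the product in `L × L`. (1) For `v ∈ U` regular,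
`W = v⁻¹ U = sc x⁻¹ y⁻¹ U ∈ D` contains `(1, 1)` and `(a, b)` (as `(a x, b y) ∈ U`), and so does `U`; they are independent, so
`W = U`. Hence `v w ∈ U` for all `v ∈ U` regular and `w ∈ U`. (2) `U ∩ A₁ = 0`: let `(s, 0) ∈ U`, `s ≠ 0`. For `v = (x, y) ∈ U`
regular `(x s, 0) ∈ U`, so `x s ∈ K s` (`S_Ax`) and `x ∈ K`. So each element of `U` is in `A₁` or has its first coordinate
in `K`: `U` is the union of two subspaces, so equal to one of them; `U ⊆ A₁` is excluded by `S_Ax`; otherwise the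
first projection of `U` has an image of dimension at most one and the kernel `U ∩ A₂` has dimension at least
`k - 1 ≥ 3`: contradiction to `S_Ax`. Similarly `U ∩ A₂ = 0`. (3) So `U` is the graph of a bijective `K`-linear `σ : L → L`,
`σ 1 = 1`, and by (1) `σ (x x') = σ x σ x'` for nonzero `x`, `x'`: an automorphism (`AlgEquiv.ofBijective`). -/
def S_St : Prop :=
  ∀ (K L : Type) [Field K] [Fintype K] [Field L] [Fintype L] [Algebra K L] (k : ℕ)
    (D : Finset (Submodule K (L × L))), Tor k D → ∀ U ∈ Do D, ((1, 1) : L × L) ∈ U →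
    ∀ a b : L, a ≠ 0 → b ≠ 0 → U.map (sc K a b) = U →
    (¬ ∃ c : K, algebraMap K L c = a ∧ algebraMap K L c = b) → ∃ σ : L ≃ₐ[K] L, U = gr σ

/-- **Or** (250 lines, uses `S_Ax`, `S_St`). The orbits.

Proof. The group `G = Lˣ × Lˣ` of order `(q ^ k - 1) ^ 2` acts on `Do D` by `sc a b` (the axes are preserved). Let `D₃` be the set
of the `U ∈ Do D` whose stabilizer is `Kˣ = {(c, c)}`, `D₄` the rest; both are invariant. (1) By the orbit formula
(`MulAction.sum_card_fixedBy_eq_card_orbits_mul_card_group` or orbit-stabilizer) `(q - 1) #D₃ = m (q ^ k - 1) ^ 2`, and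
`q ^ k - 1 = (q - 1) θ` gives `#D₃ = m (q ^ k - 1) θ`. (2) Let `U ∈ D₄`; `U` has a regular element `v` (`U` has
`q ^ k - 1 > 2 (q - 1)` nonzero elements, at most `2 (q - 1)` on the axes by `S_Ax`). `v⁻¹ U ∈ Do D` has the same
stabilizer and contains `(1, 1)`, so it is `gr σ` by `S_St`, `gr σ ∈ D`, and `U = v gr σ = {(z, c σ z)}` with
`c = y (σ x)⁻¹`, `v = (x, y)`. Conversely for `gr σ ∈ D`, `c ≠ 0`, the space `{(z, c σ z)} = sc 1 c (gr σ)` is in `Do D` with
the stabilizer containing `(a, σ a)`, `a ∉ K` (`k ≥ 2`), so it is in `D₄`. `(σ, c) ↦ {(z, c σ z)}` is injective (`z = 1`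
gives `c`). So `#D₄ = #{σ | gr σ ∈ D} (q ^ k - 1)`. -/
def S_Or : Prop :=
  ∀ (K L : Type) [Field K] [Fintype K] [Field L] [Fintype L] [Algebra K L] (k : ℕ)
    (D : Finset (Submodule K (L × L))), Tor k D → ∃ m : ℕ, (Do D).card =
    (Fintype.card K ^ k - 1) * (m * (∑ i ∈ range k, Fintype.card K ^ i) +
      {σ : L ≃ₐ[K] L | gr σ ∈ D}.ncard)

/-- **Ga** (100 lines). The automorphisms.

Proof. `q ^ 2 - 1` divides `q ^ k - 1` (`k` even), so there is `θ ∈ L` with `θ ^ q ^ 2 = θ` and `θ ^ q ≠ θ` (`Lˣ` is cyclic of order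
`q ^ k - 1`; take an element of order `q ^ 2 - 1`). For `σ : L ≃ₐ[K] L` we have `σ θ ∈ {θ, θ ^ q}`: the polynomial
`(X - θ) (X - θ ^ q)` has coefficients fixed by `x ↦ x ^ q`, so in `K`, and `σ θ` is a root. So among three different
`σ` with `gr σ ∈ D` two, `σ ≠ τ`, agree on `θ` and on `1`, which are independent over `K` (`θ ∉ K`), so
`dim (gr σ ∩ gr τ) ≥ 2`: contradiction. -/
def S_Ga : Prop :=
  ∀ (K L : Type) [Field K] [Fintype K] [Field L] [Fintype L] [Algebra K L] (k : ℕ)
    (D : Finset (Submodule K (L × L))), Tor k D → Even k → {σ : L ≃ₐ[K] L | gr σ ∈ D}.ncard ≤ 2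

/-- **Tf** (80 lines, uses `S_Cn`, `S_Or`, `S_Ga`).

Proof. `θ = ∑_{i < k} q ^ i`, `(q - 1) θ = q ^ k - 1`, `r = rr D`, `s ≤ 2` the number of the `σ`. `r + M = m θ + s` (divide by `q ^ k - 1`).
`r ≤ q ^ k + q` since `(q ^ k + q + 1) (q ^ k - q) > q ^ (2 k) - q` (`k ≥ 3`). If `m ≥ q` then `r + 2 ≥ q θ = q ^ k - 1 + θ`, but
`θ ≥ 1 + q + q ^ 2 + q ^ 3 > q + 3`: contradiction. So `m ≤ q - 1`, `r + M ≤ q ^ k - 1 + 2`, `#(Do D) ≤ (q ^ k - 1) (q ^ k + 1)`, and
`#D ≤ #(Do D) + 2`. -/
def S_Tf : Prop :=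
  ∀ (K L : Type) [Field K] [Fintype K] [Field L] [Fintype L] [Algebra K L] (k : ℕ), 4 ≤ k →
    Even k → Module.finrank K L = k → ∀ D : Finset (Submodule K (L × L)),
    (∀ U ∈ D, Module.finrank K U = k) →
    (∀ U ∈ D, ∀ W ∈ D, U ≠ W → Module.finrank K ↥(U ⊓ W) ≤ 1) →
    (∀ a b : L, a ≠ 0 → b ≠ 0 → ∀ U ∈ D,
      U.map ((LinearMap.mulLeft K a).prodMap (LinearMap.mulLeft K b)) ∈ D) →
    D.card ≤ Fintype.card K ^ (2 * k) + 1

end Pool.Agent.MP8bT
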