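import Pool.Agent.Lib.MP_8b575b_co.Tor.Spec

/-!
# MP_8b575b_co: codes with a split torus, all k at least 4

THEOREM. Let `K` be a field with `q` elements, `k ≥ 4`, `L` a field extension of degree `k`. A set of `k`-dimensional
`K`-subspaces of `L × L`, pairwise meeting in dimension at most one and invariant under all the maps
`(x, y) ↦ (a x, b y)` (`a`, `b` nonzero), has at most `q ^ (2 k) + 1` elements.

For even `k` this is `S_Tf` of `Tor/Spec.lean` (proved). Here the case `k ≥ 5` is done by a new argument. Notation: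
`R` = the set of the codewords through `(1, 1)`, `r = rr D = #R`, `x ∉ K` means `Ns K x`. If some codeword (not an axis)
meets each axis (`Full D`), then the set `hl D x` of the `y` with `(x, y)` in no member of `R` has `q ^ k + q - r`
elements, and its elementary symmetric functions are polynomial functions of `x` of low degree over `K`; the
symmetry `hl D x⁻¹ = (hl D x)⁻¹` gives a contradiction if `r ≥ q ^ k`.

The proofs are complete in the docstrings; every module is independent (used statements are hypotheses):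
file `Tor/<Name>.lean` (import this file only), namespace `Pool.Agent.MP8bT`, `theorem t<Name> : S_X → .. → S_<Name>`
(hypotheses in the order of the docstring), all other declarations `private`. `q = Fintype.card K`; `#L = q ^ k`.
-/

set_option autoImplicit false

namespace Pool.Agent.MP8bT

open Finset Polynomial

open scoped Classical

/-- `x` is not a scalar. -/
def Ns (K : Type) {L : Type} [Field K] [Field L] [Algebra K L] (x : L) : Prop :=
  ¬ ∃ c : K, algebraMap K L c = x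

/-- Some codeword, not an axis, meets the first axis, and some meets the second. -/
def Full {K L : Type} [Field K] [Field L] [Algebra K L]
    (D : Finset (Submodule K (L × L))) : Prop :=
  (∃ U ∈ Do D, ((1, 0) : L × L) ∈ U) ∧ ∃ U ∈ Do D, ((0, 1) : L × L) ∈ U

/-- The codewords through `(1, 1)`. -/
noncomputable def RR {K L : Type} [Field K] [Field L] [Algebra K L]
    (D : Finset (Submodule K (L × L))) : Finset (Submodule K (L × L)) :=
  D.filter fun U => ((1, 1) : L × L) ∈ U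

/-- The `y` such that no codeword contains `(1, 1)` and `(x, y)`. -/
noncomputable def hl {K L : Type} [Field K] [Field L] [Fintype L] [Algebra K L]
    (D : Finset (Submodule K (L × L))) (x : L) : Finset L :=
  univ.filter fun y => ∀ U ∈ RR D, (x, y) ∉ U

/-- **Lx** (80 lines, uses `S_Ax`). A codeword (not an axis) does not meet both axes.

Proof. Suppose `(x, 0)`, `(0, y) ∈ U`, `x`, `y ≠ 0`. The second projection of `U` has the kernel `U ∩ A₁` of dimension at most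
one (`S_Ax`), so its image has dimension at least `k - 1 ≥ 2`; take `(u, w) ∈ U` with `w ∉ K y`. Then `(u, w + y) ∈ U`. Put
`b = (w + y) / w`, `b ≠ 0`, `1`, and `W = sc 1 b U ∈ D`. `W` contains `(x, 0)` and `sc 1 b (u, w) = (u, w + y)`; so does `U`, and
these are independent (`w + y ≠ 0`), so `W = U`. Then `(0, (1 - b) w') = (u', w') - (u', b w') ∈ U` for all `(u', w') ∈ U`, so
`U ∩ A₂` has dimension at least `k - 1 ≥ 2`: contradiction to `S_Ax`. -/
def S_Lx : Prop :=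
  ∀ (K L : Type) [Field K] [Fintype K] [Field L] [Fintype L] [Algebra K L] (k : ℕ)
    (D : Finset (Submodule K (L × L))), Tor k D → ∀ U ∈ Do D, ∀ x y : L, x ≠ 0 → y ≠ 0 →
    (x, (0 : L)) ∈ U → ((0 : L), y) ∉ U

/-- **Mo** (100 lines). If one axis is not met.

Proof. Let no `U ∈ Do D` contain `(0, 1)` (the other case is symmetric). Choose `x ∈ L` not in `K` (`k ≥ 2`). Each `U ∈ RR D` is
in `Do D` (the axes do not contain `(1, 1)`), and `U ∩ A₂ = 0`: if `(0, y) ∈ U`, `y ≠ 0`, then `sc 1 y⁻¹ U ∈ Do D` contains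
`(0, 1)`. So the first projection is bijective on `U` (dimension `k`), and there is `y_U` with `(x, y_U) ∈ U`. `U ↦ y_U` is
injective on `RR D`: two members containing `(1, 1)` and `(x, y)` meet in dimension at least two. So `rr D ≤ #L`. -/
def S_Mo : Prop :=
  ∀ (K L : Type) [Field K] [Fintype K] [Field L] [Fintype L] [Algebra K L] (k : ℕ)
    (D : Finset (Submodule K (L × L))), Tor k D → ¬ Full D → rr D ≤ Fintype.card K ^ k

/-- **Cm** (150 lines, uses `S_Pt`). Counting (a sharper form of `S_Cn`; compare the file `Tor/Cn.lean`).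

Proof. As for `S_Cn`: count the pairs `(v, U)`, `U ∈ Do D`, `0 ≠ v ∈ U`: `#(Do D) (q ^ k - 1) = (q ^ k - 1) ^ 2 (rr D + M₁ + M₂)`,
where `M₁ (q ^ k - 1)` is the number of the `U ∈ Do D` through `(1, 0)`, `M₂ (q ^ k - 1)` the number through `(0, 1)`, and
`M₁`, `M₂ ≤ 1` (`S_Pt`). If `Full D` fails, one of them is zero. -/
def S_Cm : Prop :=
  ∀ (K L : Type) [Field K] [Fintype K] [Field L] [Fintype L] [Algebra K L] (k : ℕ)
    (D : Finset (Submodule K (L × L))), Tor k D → ∃ M : ℕ, M ≤ 2 ∧ (¬ Full D → M ≤ 1) ∧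
    (Do D).card = (Fintype.card K ^ k - 1) * (rr D + M)

/-- **Ze** (120 lines, uses `S_Ax`, `S_Lx`). Which vectors of the axes are joined to `(1, 1)`.

Proof. Second axis. Let `U₂ ∈ Do D`, `(0, 1) ∈ U₂`; `U₂ ∩ A₂ = K (0, 1)` (`S_Ax`), `U₂ ∩ A₁ = 0` (`S_Lx`), so the second
projection is bijective on `U₂`. Let `z` be nonscalar. There is `(w, z⁻¹) ∈ U₂`, and `w ≠ 0` since `z⁻¹ ∉ K`. Then
`U = sc w⁻¹ z U₂ ∈ D` contains `(1, 1)` and `(0, z)`. If `z ∈ K`, `z ≠ 0`, and `(1, 1)`, `(0, z) ∈ U ∈ D`, then `U ∈ Do D`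
contains `(0, 1)` and `(1, 0)`, against `S_Lx`. The first axis is symmetric. -/
def S_Ze : Prop :=
  ∀ (K L : Type) [Field K] [Fintype K] [Field L] [Fintype L] [Algebra K L] (k : ℕ)
    (D : Finset (Submodule K (L × L))), Tor k D → Full D → ∀ z : L, z ≠ 0 →
    ((∃ U ∈ RR D, ((0 : L), z) ∈ U) ↔ Ns K z) ∧ ((∃ U ∈ RR D, (z, (0 : L)) ∈ U) ↔ Ns K z)

/-- **Nx** (250 lines, uses `S_Ax`, `S_Lx`). The number of the holes above `x`.

Proof. Let `U₂ ∈ Do D`, `(0, 1) ∈ U₂`, `Y` = the first projection of `U₂`, of dimension `k - 1` (`U₂ ∩ A₂ = K (0, 1)`, `S_Ax`);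
`U₂ ∩ A₁ = 0` (`S_Lx`). Let `B` be the set of the `U ∈ RR D` meeting `A₂` in a nonzero vector. (1) For `p ∈ U₂` with
`p₁ ≠ 0` (so `p₂ ≠ 0`) let `Φ p = sc p₁⁻¹ p₂⁻¹ U₂`; it is in `B` (contains `(1, 1)` and `(0, p₂⁻¹)`). Every `U ∈ B` is of
this form: let `(0, e) ∈ U`, `e ≠ 0`. The group `{sc a 1}` acts freely on `P = {W ∈ Do D | (0, 1) ∈ W}` (compare `Tor/Pt.lean`), so
`#P ≥ q ^ k - 1`, and `#P (q ^ k - q) ≤ q ^ (2 k) - q ^ k < 2 (q ^ k - 1) (q ^ k - q)`, so `P = {sc a 1 U₂}`; `sc 1 e⁻¹ U ∈ P`, so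
`U = sc a e U₂`, and `(1, 1) ∈ U` gives `p = (a⁻¹, e⁻¹) ∈ U₂`. `Φ p = Φ p'` iff `p' = c p` with `c ∈ K`: then `a = p' / p`
(componentwise) fixes `U₂`, `(0, a₂) ∈ U₂`, `a₂ ∈ K`, and `sc (a₁ / a₂) 1` fixes `U₂`, so `a₁ = a₂` by freeness. So
`(q - 1) #B = q ^ k - q`. (2) Let `x` be nonscalar. The first projection of `Φ p` is `p₁⁻¹ Y`, so it contains `x` iff
`x p₁ ∈ Y`. `Y ∩ x⁻¹ Y` has dimension `k - 2`: otherwise `x Y = Y` and `Y` is a vector space over the field `K(x)` whose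
degree `d > 1` divides `k` and `k - 1`. Each `p₁` belongs to `q` elements `p`. So the number `b` of the `U ∈ B` whose
first projection contains `x` satisfies `(q - 1) b = q (q ^ (k - 2) - 1)`. (3) The members of `RR D` are pairwise disjoint
above `x` (if `(x, y)` and `(1, 1)` are in two members, these are equal); a member not in `B` has exactly one element
above `x`, a member of `B` has `q` or none. So `#(hl D x) = q ^ k - (rr D - #B) - q b`, and `(q - 1) (#B - q b) =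
q ^ k - q - q ^ 2 (q ^ (k - 2) - 1) = q (q - 1)`. -/
def S_Nx : Prop :=
  ∀ (K L : Type) [Field K] [Fintype K] [Field L] [Fintype L] [Algebra K L] (k : ℕ)
    (D : Finset (Submodule K (L × L))), Tor k D → Full D → ∀ x : L, Ns K x →
    (hl D x).card + rr D = Fintype.card K ^ k + Fintype.card K

/-- **In** (60 lines, uses `S_Ze`). The inversion.

Proof. `(x, 0)` is joined to `(1, 1)` by `S_Ze`, so `0 ∉ hl D x`. For `y ≠ 0`: if `(1, 1)`, `(x, y) ∈ U ∈ D`, then
`sc x⁻¹ y⁻¹ U ∈ D` contains `(x⁻¹, y⁻¹)` and `(1, 1)`; and conversely. -/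
def S_In : Prop :=
  ∀ (K L : Type) [Field K] [Fintype K] [Field L] [Fintype L] [Algebra K L] (k : ℕ)
    (D : Finset (Submodule K (L × L))), Tor k D → Full D → ∀ x : L, Ns K x →
    (0 : L) ∉ hl D x ∧ ∀ y : L, y ≠ 0 → (y ∈ hl D x ↔ y⁻¹ ∈ hl D x⁻¹)

/-- **Q2** (80 lines, uses `S_Ax`, `S_Lx`, `S_Ze`, `S_Nx`). The case `q = 2` does not occur.

Proof. Let `q = 2` and let `B₂` be the set of the `U ∈ RR D` meeting `A₂` in a nonzero vector; each contains exactly one
nonzero vector `(0, z)` (`S_Ax`, `RR D ⊆ Do D`), and by `S_Ze` every nonscalar `z` occurs, so `#B₂ ≥ 2 ^ k - 2`; similarly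
`#B₁ ≥ 2 ^ k - 2` for the first axis, and `B₁`, `B₂` are disjoint (`S_Lx`). So `rr D ≥ 2 ^ (k + 1) - 4`. But
`rr D ≤ 2 ^ k + 2` (`S_Nx` for some nonscalar `x`), against `k ≥ 4`. -/
def S_Q2 : Prop :=
  ∀ (K L : Type) [Field K] [Fintype K] [Field L] [Fintype L] [Algebra K L] (k : ℕ)
    (D : Finset (Submodule K (L × L))), Tor k D → Full D → 3 ≤ Fintype.card K

/-- The functions `L → L` which are sums of products of at most `d` linear forms (with coefficients in `L`). -/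
def Pd (K L : Type) [Field K] [Field L] [Algebra K L] (d : ℕ) : Submodule L (L → L) :=
  Submodule.span L {f | ∃ l : List (L →ₗ[K] K), l.length ≤ d ∧
    f = fun x => algebraMap K L ((l.map fun φ => φ x).prod)}

/-- **Pa** (120 lines). Rules for `Pd`.

Proof. (1) The empty list. (2) Concatenate lists (`Submodule.span_induction` twice). (3) Clear. (4) `ψ x = ∑ b_j λ_j x`
for a basis `b_j` of `L` with the coordinate forms `λ_j`. (5) `ψ (∑ c_m κ_m(x)) = ∑ κ_m(x) ψ c_m` for `κ_m(x) ∈ K`. -/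
def S_Pa : Prop :=
  ∀ (K L : Type) [Field K] [Fintype K] [Field L] [Fintype L] [Algebra K L],
    (∀ c : L, (fun _ => c) ∈ Pd K L 0) ∧
    (∀ (a b : ℕ) (f g : L → L), f ∈ Pd K L a → g ∈ Pd K L b →
      (fun x => f x * g x) ∈ Pd K L (a + b)) ∧
    (∀ (a b : ℕ), a ≤ b → Pd K L a ≤ Pd K L b) ∧
    (∀ ψ : L →ₗ[K] L, (fun x => ψ x) ∈ Pd K L 1) ∧
    (∀ (a : ℕ) (ψ : L →ₗ[K] L) (f : L → L), f ∈ Pd K L a → (fun x => ψ (f x)) ∈ Pd K L a)

/-- **Pz** (120 lines). A function of low degree vanishing at all nonscalar elements vanishes at `1`.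

Proof. Choose a complement `W` of `K 1` in `L`, with a basis `w_i`, `i < k - 1`. For a product of `d < (q - 1) (k - 1)` linear
forms the sum over `x = 1 + ∑ t_i w_i`, `t ∈ K ^ (k - 1)`, is zero (`MvPolynomial.sum_eval_eq_zero`: each form is a polynomial
of degree at most one in `t`). So `∑_{x ∈ 1 + W} f x = 0` for `f ∈ Pd d`. The only scalar in `1 + W` is `1`. -/
def S_Pz : Prop :=
  ∀ (K L : Type) [Field K] [Fintype K] [Field L] [Fintype L] [Algebra K L] (k d : ℕ)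
    (f : L → L), 2 ≤ k → Module.finrank K L = k → d < (Fintype.card K - 1) * (k - 1) →
    f ∈ Pd K L d → (∀ x, Ns K x → f x = 0) → f 1 = 0

/-- The polynomial with the zeros `1 / y`, `(x, y) ∈ U`. -/
noncomputable def pu {K L : Type} [Field K] [Field L] [Fintype L] [Algebra K L]
    (U : Submodule K (L × L)) (x : L) : L[X] :=
  ∏ y ∈ univ.filter (fun y => (x, y) ∈ U), (1 - C y * X)

/-- **Pc** (200 lines, uses `S_Pa`). The coefficients of `pu U x` as functions of `x`.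

Proof. Let `U ∩ A₂ = 0`. Then `U` is the graph of a linear `ψ : L → L` and `pu U x = 1 - ψ(x) X`. Let `U ∩ A₂ = K (0, e)`,
`e ≠ 0`. The first projection of `U` is a hyperplane, the kernel of a linear form `λ : L → K`, and there is a `K`-linear
`χ : L → L` with `(x, χ x) ∈ U` for `λ x = 0` (extend a section from the hyperplane). For `λ x ≠ 0` `pu U x = 1`. For
`λ x = 0` the `y` are the `χ x + c e`, `c ∈ K`, and `∏_c (1 - χ X - c e X) = (1 - χ X) ^ q - (e X) ^ (q - 1) (1 - χ X) =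
1 - e ^ (q - 1) X ^ (q - 1) + (e ^ (q - 1) χ - χ ^ q) X ^ q` (`∏_c (A - c B) = A ^ q - B ^ (q - 1) A`, `q` a power of the
characteristic). So the coefficients are `1`, `(1 - λ(x) ^ (q - 1)) (- e ^ (q - 1))` (degree `q - 1`, if `q ≥ 3` this is not
the coefficient of `X`) and `(1 - λ(x) ^ (q - 1)) (e ^ (q - 1) χ x - (χ x) ^ q)` (degree `q`; `x ↦ (χ x) ^ q` is `K`-linear),
the others zero. The second statement: the coefficient of `X` is `- ψ` or `0`. -/
def S_Pc : Prop :=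
  ∀ (K L : Type) [Field K] [Fintype K] [Field L] [Fintype L] [Algebra K L] (k : ℕ)
    (U : Submodule K (L × L)), 3 ≤ Fintype.card K → Module.finrank K L = k →
    Module.finrank K U = k → Module.finrank K ↥(U ⊓ ax2 K L) ≤ 1 →
    (∀ j ≤ Fintype.card K, (fun x => (pu U x).coeff j) ∈ Pd K L j) ∧
    ∃ ψ : L →ₗ[K] L, ∀ x, (pu U x).coeff 1 = ψ x

/-- **Pi** (150 lines, uses `S_Pa`, `S_Pc`). The inverse of the product.

Proof. Let `a_j x` be the coefficient of `X ^ j` in `∏_{U ∈ R} pu U x`. By induction on `R` (`S_Pa`, `Polynomial.coeff_mul`) `a_j ∈ Pd j`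
for `j ≤ q`, `a_0 = 1` and `a_1` is `K`-linear (the sum of the coefficients of `X`). Define `ε 0 = 1`,
`ε j x = - ∑_{i < j} a_{j - i}(x) ε i x`. By induction `ε j ∈ Pd j` for `j ≤ q`; `ε 1 = - a_1`. -/
def S_Pi : Prop :=
  ∀ (K L : Type) [Field K] [Fintype K] [Field L] [Fintype L] [Algebra K L] (k : ℕ)
    (R : Finset (Submodule K (L × L))), 3 ≤ Fintype.card K → Module.finrank K L = k →
    (∀ U ∈ R, Module.finrank K U = k ∧ Module.finrank K ↥(U ⊓ ax2 K L) ≤ 1) →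
    ∃ ε : ℕ → L → L, (∀ j ≤ Fintype.card K, ε j ∈ Pd K L j) ∧ (∀ x, ε 0 x = 1) ∧
      (∃ ψ : L →ₗ[K] L, ∀ x, ε 1 x = ψ x) ∧
      ∀ x, ∀ j, 1 ≤ j → ((∏ U ∈ R, pu U x) *
        ∑ i ∈ range (j + 1), C (ε i x) * X ^ i).coeff j = 0

/-- **Px** (80 lines). The holes above a nonscalar `x`.

Proof. Every `y ∈ L` is in `hl D x` or `(x, y)` belongs to exactly one `U ∈ RR D` (`(1, 1)`, `(x, y)` are independent). So
the product is `∏_{y ∈ L} (1 - y X) = 1 - X ^ (#L - 1)` (reverse of `X ^ #L - X`). -/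
def S_Px : Prop :=
  ∀ (K L : Type) [Field K] [Fintype K] [Field L] [Fintype L] [Algebra K L] (k : ℕ)
    (D : Finset (Submodule K (L × L))), Tor k D → ∀ x : L, Ns K x →
    (∏ U ∈ RR D, pu U x) * ∏ y ∈ hl D x, (1 - C y * X) = 1 - X ^ (Fintype.card K ^ k - 1)

/-- **P1** (120 lines, uses `S_Ax`, `S_Ze`). The product at `x = 1`.

Proof. For `U ∈ RR D` the `y` with `(1, y) ∈ U` are the `1 + z`, `(0, z) ∈ U`: only `y = 1`, or `1 + c e`, `c ∈ K`. By `S_Ze` the
nonzero `z` with `(0, z)` in some `U ∈ RR D` are the nonscalar ones, each in exactly one `U`. So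
`∏_{U ∈ RR D} pu U 1 = (1 - X) ^ r ∏_{z nonscalar} (1 - (1 + z) X)`, and `∏_{z ∈ L} (1 - (1 + z) X) = ∏_{y ∈ L} (1 - y X) =
1 - X ^ (#L - 1)`, `∏_{z ∈ K} (1 - (1 + z) X) = 1 - X ^ (q - 1)`. -/
def S_P1 : Prop :=
  ∀ (K L : Type) [Field K] [Fintype K] [Field L] [Fintype L] [Algebra K L] (k : ℕ)
    (D : Finset (Submodule K (L × L))), Tor k D → Full D →
    (∏ U ∈ RR D, pu U (1 : L)) * (1 - X ^ (Fintype.card K - 1)) =
      (1 - X) ^ rr D * (1 - X ^ (Fintype.card K ^ k - 1))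

/-- **Pe** (120 lines, uses `S_Ax`, `S_Nx`, `S_Pi`, `S_Px`, `S_P1`). The functions `ε j`.

Proof. `R = RR D`, `ε` from `S_Pi` (`RR D ⊆ Do D`, `S_Ax`). (1) For nonscalar `x` the polynomial `∏_{y ∈ hl D x} (1 - y X)` is an
inverse of `∏ pu U x` modulo `X ^ (q + 1)` (`q ^ k - 1 > q`), and so is `∑_{i ≤ q} ε i x X ^ i`: the coefficients agree up
to `q` (induction, `ε 0 x = 1`). (2) At `x = 1` let `E = ∑_{i ≤ q} ε i 1 X ^ i`. Modulo `X ^ (q + 1)`: `E (1 - X) ^ r = 1 -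
X ^ (q - 1)` (`S_P1`), `r = q ^ k + q - n`, `(1 - X) ^ (q ^ k) = 1 - X ^ (q ^ k)`, so `E (1 - X) ^ (q - n) = 1 - X ^ (q - 1)`;
multiply by `(1 - X) ^ n`: `E (1 - X ^ q) = (1 - X) ^ n (1 - X ^ (q - 1))`; the coefficients of `X ^ j`, `j ≤ q - 1`. -/
def S_Pe : Prop :=
  ∀ (K L : Type) [Field K] [Fintype K] [Field L] [Fintype L] [Algebra K L] (k n : ℕ)
    (D : Finset (Submodule K (L × L))), Tor k D → Full D → 3 ≤ Fintype.card K →
    n ≤ Fintype.card K → n + rr D = Fintype.card K ^ k + Fintype.card K →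
    ∃ ε : ℕ → L → L, (∀ j ≤ Fintype.card K, ε j ∈ Pd K L j) ∧
      (∃ ψ : L →ₗ[K] L, ∀ x, ε 1 x = ψ x) ∧
      (∀ x, Ns K x → ∀ j ≤ Fintype.card K,
        ε j x = (∏ y ∈ hl D x, (1 - C y * X) : L[X]).coeff j) ∧
      ∀ j < Fintype.card K, ε j 1 =
        ((1 - X) ^ n * (1 - X ^ (Fintype.card K - 1)) : L[X]).coeff j

/-- **Pf** (200 lines, uses `S_Nx`, `S_In`, `S_Q2`, `S_Pa`, `S_Pz`, `S_Pe`). The main step.

Proof. Suppose `Full D` and `r = rr D ≥ q ^ k`; `q ≥ 3` by `S_Q2`. There is a nonscalar `x`; with `n = q ^ k + q - r ≤ q`, and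
`#(hl D x) = n` for all nonscalar `x` (`S_Nx`). Take `ε` from `S_Pe`. (1) `n ≤ q - 2`: `ε (q - 1) x = 0` for all nonscalar `x` (degree
`n < q - 1`), so `ε (q - 1) 1 = 0` by `S_Pz` (`q - 1 < (q - 1) (k - 1)`), but it is the coefficient of `X ^ (q - 1)` in
`(1 - X) ^ n (1 - X ^ (q - 1))`, which is `- 1`. (2) `n = q - 1` or `n = q`. For nonscalar `x` the set `hl D x` has `n` elements,
all nonzero, and `hl D x⁻¹` consists of their inverses (`S_In`; `x⁻¹` is nonscalar), so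
`ε 1 x⁻¹ * ε n x = (- ∑ y⁻¹) (- 1) ^ n ∏ y = (- 1) ^ (n - 1) ∑_y ∏_{y' ≠ y} y' = ε (n - 1) x`. Let
`N x = x ^ (1 + q + .. + q ^ (k - 1)) ∈ K` (norm, `N x ^ q = N x`), `M x = x ^ (q + .. + q ^ (k - 1))`. `ε 1 = ψ` is `K`-linear, so
`ψ (M x) = ψ (N x x⁻¹) = N x ψ(x⁻¹)`. The function `F x = ψ (M x) ε n x - N x ε (n - 1) x` is in `Pd (k - 1 + q)`
(`S_Pa`; `x ↦ x ^ q ^ i` is `K`-linear, `M ∈ Pd (k - 1)`, `N ∈ Pd k`, `n ≤ q`), vanishes at nonscalar `x`, and
`k - 1 + q < (q - 1) (k - 1)` as `k ≥ 5`, `q ≥ 3`. So `F 1 = 0` by `S_Pz`, i.e. `ε 1 1 * ε n 1 = ε (n - 1) 1`. If `n = q`: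
`(1 - X) ^ q (1 - X ^ (q - 1)) = (1 - X ^ q) (1 - X ^ (q - 1))`, so `ε 1 1 = 0` and `ε (q - 1) 1 = - 1`: contradiction. If
`n = q - 1`: `ε (q - 1) 1 = (- 1) ^ (q - 1) - 1 = 0` in `L` and `ε (q - 2) 1 = (- 1) ^ (q - 2) (q - 1) ≠ 0`: contradiction. -/
def S_Pf : Prop :=
  ∀ (K L : Type) [Field K] [Fintype K] [Field L] [Fintype L] [Algebra K L] (k : ℕ)
    (D : Finset (Submodule K (L × L))), 5 ≤ k → Tor k D → Full D → rr D < Fintype.card K ^ k

/-- **Tg** (60 lines, uses `S_Tf`, `S_Mo`, `S_Cm`, `S_Pf`).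

Proof. `k = 4` is even: `S_Tf`. Let `k ≥ 5`. `#(Do D) = (q ^ k - 1) (r + M)` (`S_Cm`). If `Full D`: `M ≤ 2`, `r ≤ q ^ k - 1`
(`S_Pf`). Otherwise `M ≤ 1`, `r ≤ q ^ k` (`S_Mo`). So `#(Do D) ≤ (q ^ k - 1) (q ^ k + 1) = q ^ (2 k) - 1`, and
`#D ≤ #(Do D) + 2`. -/
def S_Tg : Prop :=
  ∀ (K L : Type) [Field K] [Fintype K] [Field L] [Fintype L] [Algebra K L] (k : ℕ), 4 ≤ k →
    Module.finrank K L = k → ∀ D : Finset (Submodule K (L × L)),
    (∀ U ∈ D, Module.finrank K U = k) →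
    (∀ U ∈ D, ∀ W ∈ D, U ≠ W → Module.finrank K ↥(U ⊓ W) ≤ 1) →
    (∀ a b : L, a ≠ 0 → b ≠ 0 → ∀ U ∈ D,
      U.map ((LinearMap.mulLeft K a).prodMap (LinearMap.mulLeft K b)) ∈ D) →
    D.card ≤ Fintype.card K ^ (2 * k) + 1

end Pool.Agent.MP8bT
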