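import Pool.Agent.Lib.MP_8b575b_co.Cyc.Spec
import Pool.Agent.Lib.MP_8b575b_co.Tor.SpecB

/-!
# MP_8b575b_co: codes invariant under a maximal torus

THEOREM. Let `K` be a field with `q` elements, `k ≥ 4`, `A = ∏ F_i` a product of finitely many finite extension fields
of `K` with `dim A = 2 k`, each `F_i` with more than two elements. A set of `k`-dimensional `K`-subspaces of `A`, pairwise
meeting in dimension at most one and invariant under the multiplication by the units of `A`, has at most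
`q ^ (2 k) + 1` elements. (The groups of the units of these algebras are the maximal tori of `GL(2 k, q)`.)

One factor: `S_Fie` of `Cyc/Spec.lean`; two factors of degree `k`: `S_Tg` of `Tor/SpecB.lean`. The other cases are
easier.

The proofs are complete in the docstrings; every module is independent (used statements are hypotheses):
file `Tor/<Name>.lean` (import this file only), namespace `Pool.Agent.MP8bT`, `theorem t<Name> : S_X → .. → S_<Name>`
(hypotheses in the order of the docstring), all other declarations `private`. `q = Fintype.card K`.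
-/

set_option autoImplicit false

namespace Pool.Agent.MP8bT

open Finset Polynomial

open scoped Classical

/-- `D` is a code of `k`-dimensional subspaces of `A`, invariant under the units of `A`. -/
def Cd {K A : Type} [Field K] [CommRing A] [Algebra K A] (k : ℕ) (D : Finset (Submodule K A)) :
    Prop :=
  (∀ U ∈ D, Module.finrank K U = k) ∧
  (∀ U ∈ D, ∀ W ∈ D, U ≠ W → Module.finrank K ↥(U ⊓ W) ≤ 1) ∧
  ∀ a : A, IsUnit a → ∀ U ∈ D, U.map (LinearMap.mulLeft K a) ∈ D

/-- **Tr** (80 lines). Transport by an isomorphism of algebras.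

Proof. `D' = D.image (map φ)` (`φ` injective on submodules). The dimensions are preserved (`LinearEquiv.finrank_eq`,
`Submodule.map_inf` for the injective `φ`), a unit of `B` is `φ a` with `a` a unit, `φ (a x) = φ a φ x`. -/
def S_Tr : Prop :=
  ∀ (K A B : Type) [Field K] [CommRing A] [Algebra K A] [CommRing B] [Algebra K B] (k : ℕ)
    (_ : A ≃ₐ[K] B) (D : Finset (Submodule K A)), Cd k D →
    ∃ D' : Finset (Submodule K B), Cd k D' ∧ D'.card = D.card

/-- **Aa** (200 lines). A factor of degree at most `k - 2`.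

Proof. `W = {x | x i = 0}` has dimension `2 k - n ≥ k + 2`, `V₀ = {x | x j = 0 for j ≠ i}` has dimension `n ≥ 1`. For `U ∈ D`
`dim (U ∩ W) ≥ 2`. For `β ∈ F i`, `β ≠ 0`, the unit `a` with `a i = β`, `a j = 1` (`j ≠ i`) fixes `W` pointwise, so `a U` and `U`
meet in dimension at least two and `a U = U`. For `x ∈ U` the vector `a x - x`, with the coordinate `(β - 1) x i` and zeros, is
in `U`. If `x i ≠ 0` for some `x ∈ U`: all vectors of `V₀` with a coordinate different from `- x i` are in `U`, hence (more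
than two elements) `V₀ ⊆ U`. So `U ⊆ W` or `V₀ ⊆ U`. `D₁ = {U ⊆ W}`: every `U` contains `(q ^ k - 1) (q ^ k - q)` ordered pairs
of independent vectors, and each pair is in at most one `U`: `#D₁ (q ^ k - 1) (q ^ k - q) ≤ (#W) ^ 2 ≤ q ^ (4 k - 2)`. `D₂ =
{V₀ ⊆ U}`: with `0 ≠ v ∈ V₀` the sets `U \ K v` are disjoint: `#D₂ (q ^ k - q) ≤ q ^ (2 k)`. With `Q = q ^ k`:
`#D (Q - 1) (Q - q) ≤ Q ^ 4 / q ^ 2 + Q ^ 2 (Q - 1) ≤ Q ^ 2 (Q - 1) (Q - q)`, as `Q ^ 2 / q ^ 2 + Q - 1 ≤ Q ^ 2 - (q + 1) Q + q`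
(`Q ≥ q ^ 4`, `q ≥ 2`). -/
def S_Aa : Prop :=
  ∀ (K ι : Type) [Field K] [Fintype K] [Fintype ι] (F : ι → Type) [∀ i, Field (F i)]
    [∀ i, Fintype (F i)] [∀ i, Algebra K (F i)] (k : ℕ) (i : ι) (D : Finset (Submodule K (∀ i, F i))),
    4 ≤ k → Module.finrank K (∀ i, F i) = 2 * k → 2 < Fintype.card (F i) →
    Module.finrank K (F i) + 2 ≤ k → Cd k D → D.card ≤ Fintype.card K ^ (2 * k)

/-- **Ab** (300 lines). Two factors of degrees `k + 1` and `k - 1`.

Proof. `A₁ = M × 0`, `A₂ = 0 × N`. (1) Let `U ∈ D`; `dim (U ∩ A₁) ≥ 1`. Suppose it is at least two. Then `(1, b) U = U` for all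
nonzero `b ∈ N` (`A₁` is fixed pointwise), so `(0, (1 - b) y) ∈ U` for `(x, y) ∈ U`. If some `y ≠ 0`, then `A₂ ⊆ U` (`#N > 2`; all
elements except `y` are of the form `(1 - b) y`), and `dim U ≥ 2 + (k - 1)`: contradiction. So `U ⊆ A₁`; the `(a, 1) U`,
`a ≠ 0`, are in `A₁` (dimension `k + 1`), so meet `U` in dimension at least `k - 1 ≥ 2` and are equal to `U`; so `U` is
`M`-invariant and contains all of `A₁` (`U ≠ 0`): contradiction. So `dim (U ∩ A₁) = 1` for all `U ∈ D`, and the second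
projection maps `U` onto `N`. (2) `(1, b) U ≠ U` for `b ≠ 0, 1`: otherwise `A₂ ⊆ U`, and all `(a, 1) U` contain `A₂` (dimension
`k - 1 ≥ 2`), so are equal to `U`, and `U ∩ A₁` is `M`-invariant: contradiction. (3) `U ∩ A₂ = 0`: let `(0, y) ∈ U`, `y ≠ 0`,
`U ∩ A₁ = K (s, 0)`; choose `(u, w) ∈ U`, `w ∉ K y` (`k - 1 ≥ 2`), `b = (w + y) / w`; `(1, b) U` and `U` contain `(s, 0)` and
`(u, w + y)`, independent, so they are equal: contradiction to (2). (4) So each `U` has `q - 1` nonzero vectors in `A₁`,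
none in `A₂`, and `q ^ k - q` vectors `(x, y)` with `x`, `y ≠ 0`. The number `r` of the `U` containing such a vector does not
depend on it; the number `p` of the `U` containing `(x, 0)`, `x ≠ 0`, neither: `#D (q ^ k - q) = r (q ^ (k + 1) - 1)
(q ^ (k - 1) - 1)`, `#D (q - 1) = p (q ^ (k + 1) - 1)`. The group of the `(1, b)` acts freely (by (2)) on the `U` containing
`(1, 0)`: `p = j (q ^ (k - 1) - 1)`. So `r (q - 1) = j q (q ^ (k - 1) - 1)`. The sets `U \ K (1, 1)`, `(1, 1) ∈ U`, are disjoint: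
`r (q ^ k - q) ≤ q ^ (2 k) - q`. If `j ≥ q` then `r ≥ q ^ 2 (q ^ (k - 1) - 1) / (q - 1) ≥ q ^ k + q ^ (k - 1) + q ^ 2`, too large
(`r < q ^ k + q + 1`). So `j ≤ q - 1` and `#D = j (q ^ (k - 1) - 1) (q ^ (k + 1) - 1) / (q - 1) ≤ (q ^ (k - 1) - 1)
(q ^ (k + 1) - 1) ≤ q ^ (2 k)`. -/
def S_Ab : Prop :=
  ∀ (K M N : Type) [Field K] [Fintype K] [Field M] [Fintype M] [Algebra K M] [Field N]
    [Fintype N] [Algebra K N] (k : ℕ) (D : Finset (Submodule K (M × N))), 4 ≤ k →
    Module.finrank K M = k + 1 → Module.finrank K N + 1 = k → Cd k D →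
    D.card ≤ Fintype.card K ^ (2 * k)

/-- **Ac** (250 lines, uses `Pool.Agent.MP8b.S_Fie`, `S_Tg`, `S_Tr`, `S_Aa`, `S_Ab`).

Proof. `n i = finrank K (F i) ≥ 1`, `∑ n i = 2 k` (`Module.finrank_pi_fintype`). `D` satisfies `Cd k` for `A = ∀ i, F i`
(`Pi.isUnit_iff`). Let `i₀` have the least `n` (`ι` is not empty). (A) `n i₀ + 2 ≤ k`: `S_Aa`. (B) `n i ≥ k - 1` for all `i`; as
`3 (k - 1) > 2 k` there are at most two indices. (B1) One index: `A ≃ₐ[K] F i₀` (`AlgEquiv` of `Equiv.piUnique` type), `S_Tr`,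
`S_Fie` (`#F = q ^ (2 k)`). (B2) Two indices `i₀ ≠ i₁`: `A ≃ₐ[K] F i₁ × F i₀`, `S_Tr`. If `n i₀ = k - 1`: `S_Ab`. If `n i₀ = k`:
`n i₁ = k`, and `F i₀ ≃ₐ[K] F i₁` (finite fields of the same degree over `K`, for example
`FiniteField.algEquivOfCardEq`), so `A ≃ₐ[K] L × L`, `S_Tr`, `S_Tg` (`Prod.isUnit_iff`; `mulLeft (a, b)` is the `prodMap`).
`n i₀ > k` is impossible with two indices. -/
def S_Ac : Prop :=
  ∀ (K ι : Type) [Field K] [Fintype K] [Fintype ι] (F : ι → Type) [∀ i, Field (F i)]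
    [∀ i, Fintype (F i)] [∀ i, Algebra K (F i)] (k : ℕ), 4 ≤ k →
    Module.finrank K (∀ i, F i) = 2 * k → (∀ i, 2 < Fintype.card (F i)) →
    ∀ D : Finset (Submodule K (∀ i, F i)), (∀ U ∈ D, Module.finrank K U = k) →
    (∀ U ∈ D, ∀ W ∈ D, U ≠ W → Module.finrank K ↥(U ⊓ W) ≤ 1) →
    (∀ a : (∀ i, F i), (∀ i, a i ≠ 0) → ∀ U ∈ D, U.map (LinearMap.mulLeft K a) ∈ D) →
    D.card ≤ Fintype.card K ^ (2 * k) + 1

end Pool.Agent.MP8bT
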