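import Pool.Agent.Lib.MP_8b575b_co.Tor.Spec

set_option autoImplicit false

namespace Pool.Agent.MP8bT

open Finset

open scoped Classical

private theorem st_sc_apply (K : Type) {L : Type} [Field K] [Field L] [Algebra K L] (a b : L)
    (v : L × L) : sc K a b v = (a * v.1, b * v.2) := rfl

private theorem st_mem_ax1 {K L : Type} [Field K] [Field L] [Algebra K L] (v : L × L) :
    v ∈ ax1 K L ↔ v.2 = 0 := by
  unfold ax1
  rw [LinearMap.mem_range]
  constructor
  · rintro ⟨y, rfl⟩
    rfl
  · intro h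
    exact ⟨v.1, Prod.ext rfl h.symm⟩

private theorem st_mem_ax2 {K L : Type} [Field K] [Field L] [Algebra K L] (v : L × L) :
    v ∈ ax2 K L ↔ v.1 = 0 := by
  unfold ax2
  rw [LinearMap.mem_range]
  constructor
  · rintro ⟨y, rfl⟩
    rfl
  · intro h
    exact ⟨v.2, Prod.ext h.symm rfl⟩

/-- in a space of dimension at most one every vector is a multiple of a nonzero one -/
private theorem st_dim1 {K V : Type} [Field K] [AddCommGroup V] [Module K V]
    [FiniteDimensional K V] (W : Submodule K V) (h : Module.finrank K W ≤ 1) (s t : V)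
    (hs : s ∈ W) (ht : t ∈ W) (hs0 : s ≠ 0) : ∃ c : K, t = c • s := by
  by_contra hcon
  have hli : LinearIndependent K ![s, t] := by
    rw [LinearIndependent.pair_iff' hs0]
    intro a ha
    exact hcon ⟨a, ha.symm⟩
  have hli2 : LinearIndependent K (![⟨s, hs⟩, ⟨t, ht⟩] : Fin 2 → W) := by
    apply LinearIndependent.of_comp W.subtype
    have : (W.subtype ∘ (![⟨s, hs⟩, ⟨t, ht⟩] : Fin 2 → W)) = ![s, t] := by
      funext i
      fin_cases i <;> rfl
    rw [this]
    exact hli
  have := hli2.fintype_card_le_finrank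
  rw [Fintype.card_fin] at this
  omega

private theorem st_two {K V : Type} [Field K] [AddCommGroup V] [Module K V]
    [FiniteDimensional K V] (U W : Submodule K V) (hW : Module.finrank K W ≤ 1) (v : V)
    (hU : U ≤ Submodule.span K {v} ⊔ W) (h4 : 4 ≤ Module.finrank K U) : False := by
  have h1 := Submodule.finrank_mono hU
  have h2 := Submodule.finrank_add_le_finrank_add_finrank (Submodule.span K {v}) W
  have h3 : Module.finrank K (Submodule.span K {v}) ≤ 1 := by
    have := finrank_span_le_card (R := K) ({v} : Set V)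
    simpa using this
  omega

theorem tSt : S_Ax → S_St := by
  intro hAx K L _ _ _ _ _ k D hT U hU h11 a b ha hb hab hK
  obtain ⟨hA1, hA2⟩ := hAx K L k D hT U hU
  obtain ⟨hk4, hkL, hkU, hpair, hinv⟩ := hT
  have hUD : U ∈ D := by
    have := hU
    simp only [Do, mem_filter] at this
    exact this.1
  have hUk := hkU U hUD
  have hfd : FiniteDimensional K L := by
    apply FiniteDimensional.of_finrank_pos
    omega
  -- (a, b) is in U
  have hmapmem : ∀ w ∈ U, (a * w.1, b * w.2) ∈ U := by
    intro w hw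
    have : sc K a b w ∈ U.map (sc K a b) := Submodule.mem_map_of_mem hw
    rw [hab] at this
    exact this
  have habU : (a, b) ∈ U := by
    have := hmapmem _ h11
    simpa using this
  have hind : ∀ c : K, (a, b) ≠ c • ((1, 1) : L × L) := by
    intro c hc
    apply hK
    refine ⟨c, ?_, ?_⟩
    · have := congrArg Prod.fst hc
      simp only [Prod.smul_fst] at this
      rw [this, Algebra.algebraMap_eq_smul_one]
    · have := congrArg Prod.snd hc
      simp only [Prod.smul_snd] at this
      rw [this, Algebra.algebraMap_eq_smul_one]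
  -- (1)
  have hmul : ∀ v ∈ U, v.1 ≠ 0 → v.2 ≠ 0 → ∀ w ∈ U, (v.1 * w.1, v.2 * w.2) ∈ U := by
    intro v hv hv1 hv2 w hw
    have hWD := hinv v.1⁻¹ v.2⁻¹ (inv_ne_zero hv1) (inv_ne_zero hv2) U hUD
    set W := U.map (sc K v.1⁻¹ v.2⁻¹) with hW
    have h1W : ((1, 1) : L × L) ∈ W := by
      rw [hW, Submodule.mem_map]
      refine ⟨v, hv, ?_⟩
      rw [st_sc_apply, inv_mul_cancel₀ hv1, inv_mul_cancel₀ hv2]
    have hcW : (a, b) ∈ W := by
      rw [hW, Submodule.mem_map]
      refine ⟨(a * v.1, b * v.2), hmapmem v hv, ?_⟩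
      rw [st_sc_apply]
      simp only
      rw [mul_comm a, mul_comm b, ← mul_assoc, ← mul_assoc, inv_mul_cancel₀ hv1,
        inv_mul_cancel₀ hv2, one_mul, one_mul]
    have hWU : U = W := by
      by_contra hne
      have hdim := hpair U hUD W hWD hne
      obtain ⟨c, hc⟩ := st_dim1 (U ⊓ W) hdim (1, 1) (a, b) ⟨h11, h1W⟩ ⟨habU, hcW⟩ (by
        intro h
        have := congrArg Prod.fst h
        simp at this)
      exact hind c hc
    have hwW : w ∈ W := by rw [← hWU]; exact hw
    rw [hW, Submodule.mem_map] at hwW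
    obtain ⟨u, hu, hu'⟩ := hwW
    rw [st_sc_apply] at hu'
    have e : (v.1 * w.1, v.2 * w.2) = u := by
      rw [← hu']
      simp only
      rw [← mul_assoc, ← mul_assoc, mul_inv_cancel₀ hv1, mul_inv_cancel₀ hv2, one_mul, one_mul]
    rw [e]
    exact hu
  -- (2)
  have hfst : ∀ s : L, (s, (0 : L)) ∈ U → s = 0 := by
    intro s hs
    by_contra hs0
    have hs0' : ((s, 0) : L × L) ≠ 0 := by
      intro h
      exact hs0 (congrArg Prod.fst h)
    have hreg : ∀ v ∈ U, v.2 ≠ 0 → ∃ c : K, v.1 = c • (1 : L) := by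
      intro v hv hv2
      by_cases hv1 : v.1 = 0
      · exact ⟨0, by rw [hv1, zero_smul]⟩
      · have h1 := hmul v hv hv1 hv2 _ hs
        simp only [mul_zero] at h1
        obtain ⟨c, hc⟩ := st_dim1 (U ⊓ ax1 K L) hA1 (s, 0) (v.1 * s, 0)
          ⟨hs, (st_mem_ax1 _).2 rfl⟩ ⟨h1, (st_mem_ax1 _).2 rfl⟩ hs0'
        refine ⟨c, ?_⟩
        have h2 := congrArg Prod.fst hc
        simp only [Prod.smul_fst] at h2
        have h3 : v.1 * s = (c • (1 : L)) * s := by
          rw [h2, smul_mul_assoc, one_mul]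
        exact mul_right_cancel₀ hs0 h3
    have hall : ∀ v ∈ U, ∃ c : K, v.1 = c • (1 : L) := by
      intro v hv
      by_cases hv2 : v.2 = 0
      · obtain ⟨c, hc⟩ := hreg (v + (1, 1)) (U.add_mem hv h11) (by
          rw [Prod.snd_add, hv2, zero_add]
          exact one_ne_zero)
        refine ⟨c - 1, ?_⟩
        rw [Prod.fst_add] at hc
        rw [sub_smul, one_smul, ← hc]
        simp
      · exact hreg v hv hv2
    apply st_two U (U ⊓ ax2 K L) hA2 (1, 1) _ (by omega)
    intro v hv
    obtain ⟨c, hc⟩ := hall v hv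
    rw [Submodule.mem_sup]
    refine ⟨c • ((1, 1) : L × L), Submodule.smul_mem _ _ (Submodule.mem_span_singleton_self _),
      v - c • ((1, 1) : L × L), ⟨U.sub_mem hv (U.smul_mem _ h11), ?_⟩, by abel⟩
    rw [SetLike.mem_coe, st_mem_ax2, Prod.fst_sub, Prod.smul_fst, hc, sub_self]
  have hsnd : ∀ s : L, ((0 : L), s) ∈ U → s = 0 := by
    intro s hs
    by_contra hs0
    have hs0' : ((0, s) : L × L) ≠ 0 := by
      intro h
      exact hs0 (congrArg Prod.snd h)
    have hreg : ∀ v ∈ U, v.1 ≠ 0 → ∃ c : K, v.2 = c • (1 : L) := by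
      intro v hv hv1
      by_cases hv2 : v.2 = 0
      · exact ⟨0, by rw [hv2, zero_smul]⟩
      · have h1 := hmul v hv hv1 hv2 _ hs
        simp only [mul_zero] at h1
        obtain ⟨c, hc⟩ := st_dim1 (U ⊓ ax2 K L) hA2 (0, s) (0, v.2 * s)
          ⟨hs, (st_mem_ax2 _).2 rfl⟩ ⟨h1, (st_mem_ax2 _).2 rfl⟩ hs0'
        refine ⟨c, ?_⟩
        have h2 := congrArg Prod.snd hc
        simp only [Prod.smul_snd] at h2
        have h3 : v.2 * s = (c • (1 : L)) * s := by
          rw [h2, smul_mul_assoc, one_mul]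
        exact mul_right_cancel₀ hs0 h3
    have hall : ∀ v ∈ U, ∃ c : K, v.2 = c • (1 : L) := by
      intro v hv
      by_cases hv1 : v.1 = 0
      · obtain ⟨c, hc⟩ := hreg (v + (1, 1)) (U.add_mem hv h11) (by
          rw [Prod.fst_add, hv1, zero_add]
          exact one_ne_zero)
        refine ⟨c - 1, ?_⟩
        rw [Prod.snd_add] at hc
        rw [sub_smul, one_smul, ← hc]
        simp
      · exact hreg v hv hv1
    apply st_two U (U ⊓ ax1 K L) hA1 (1, 1) _ (by omega)
    intro v hv
    obtain ⟨c, hc⟩ := hall v hv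
    rw [Submodule.mem_sup]
    refine ⟨c • ((1, 1) : L × L), Submodule.smul_mem _ _ (Submodule.mem_span_singleton_self _),
      v - c • ((1, 1) : L × L), ⟨U.sub_mem hv (U.smul_mem _ h11), ?_⟩, by abel⟩
    rw [SetLike.mem_coe, st_mem_ax1, Prod.snd_sub, Prod.smul_snd, hc, sub_self]
  -- (3)
  have hinj1 : Function.Injective ((LinearMap.fst K L L).domRestrict U) := by
    rw [← LinearMap.ker_eq_bot, LinearMap.ker_eq_bot']
    rintro ⟨u, hu⟩ h
    have h1 : u.1 = 0 := h
    have h2 : u.2 = 0 := by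
      apply hsnd
      rw [← h1]
      exact hu
    apply Subtype.ext
    exact Prod.ext h1 h2
  have hinj2 : Function.Injective ((LinearMap.snd K L L).domRestrict U) := by
    rw [← LinearMap.ker_eq_bot, LinearMap.ker_eq_bot']
    rintro ⟨u, hu⟩ h
    have h2 : u.2 = 0 := h
    have h1 : u.1 = 0 := by
      apply hfst
      rw [← h2]
      exact hu
    apply Subtype.ext
    exact Prod.ext h1 h2
  have hfr : Module.finrank K U = Module.finrank K L := by rw [hUk, hkL]
  have hsurj1 : Function.Surjective ((LinearMap.fst K L L).domRestrict U) :=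
    (LinearMap.injective_iff_surjective_of_finrank_eq_finrank hfr).1 hinj1
  have hsurj2 : Function.Surjective ((LinearMap.snd K L L).domRestrict U) :=
    (LinearMap.injective_iff_surjective_of_finrank_eq_finrank hfr).1 hinj2
  let e1 : U ≃ₗ[K] L := LinearEquiv.ofBijective _ ⟨hinj1, hsurj1⟩
  let e2 : U ≃ₗ[K] L := LinearEquiv.ofBijective _ ⟨hinj2, hsurj2⟩
  let s : L ≃ₗ[K] L := e1.symm.trans e2
  have hs1 : ∀ u : U, s u.1.1 = u.1.2 := by
    intro u
    have h1 : e1 u = u.1.1 := rfl
    show e2 (e1.symm u.1.1) = u.1.2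
    rw [← h1, LinearEquiv.symm_apply_apply]
    rfl
  have hsU : ∀ v : L × L, v ∈ U → s v.1 = v.2 := fun v hv => hs1 ⟨v, hv⟩
  have hmemU : ∀ x : L, (x, s x) ∈ U := by
    intro x
    have h1 : (e1.symm x).1.1 = x := e1.apply_symm_apply x
    have h2 : (x, s x) = (e1.symm x).1 := by
      apply Prod.ext
      · exact h1.symm
      · show s x = (e1.symm x).1.2
        rw [← hs1 (e1.symm x), h1]
    rw [h2]
    exact (e1.symm x).2
  have hone : s 1 = 1 := hsU _ h11
  have hmulσ : ∀ x y : L, s (x * y) = s x * s y := by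
    intro x y
    by_cases hx : x = 0
    · rw [hx, zero_mul, map_zero, zero_mul]
    · have hsx : s x ≠ 0 := by
        intro h
        exact hx (s.map_eq_zero_iff.1 h)
      exact hsU _ (hmul _ (hmemU x) hx hsx _ (hmemU y))
  refine ⟨AlgEquiv.ofLinearEquiv s hone hmulσ, ?_⟩
  ext v
  unfold gr
  rw [LinearMap.mem_graph_iff]
  constructor
  · intro hv
    exact (hsU v hv).symm
  · intro hv
    have hv' : v.2 = s v.1 := hv
    have : v = (v.1, s v.1) := Prod.ext rfl hv'
    rw [this]
    exact hmemU _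

end Pool.Agent.MP8bT
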