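import Pool.Agent.Lib.MP_8b575b_co.Tor.Spec

/-! MP_8b575b_co, part Tor, module Tf: the assembly. -/

set_option autoImplicit false

namespace Pool.Agent.MP8bT

open Finset

open scoped Classical

private theorem Tf_geom (q n : ℕ) : (∑ i ∈ range n, q ^ i) * q + 1 = (∑ i ∈ range n, q ^ i) + q ^ n := by
  induction n with
  | zero => simp
  | succ n ih =>
    rw [Finset.sum_range_succ, add_mul, ← pow_succ]
    omega

private theorem Tf_theta (q k : ℕ) (hk : 4 ≤ k) : 1 + q + q ^ 2 + q ^ 3 ≤ ∑ i ∈ range k, q ^ i := by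
  have h1 : ∑ i ∈ range 4, q ^ i ≤ ∑ i ∈ range k, q ^ i :=
    Finset.sum_le_sum_of_subset (Finset.range_mono hk)
  have h2 : ∑ i ∈ range 4, q ^ i = 1 + q + q ^ 2 + q ^ 3 := by
    simp [Finset.sum_range_succ]
  omega

/-- the arithmetic -/
private theorem Tf_arith (q k r M m s c : ℕ) (hq : 2 ≤ q) (hk : 4 ≤ k) (hM : M ≤ 2) (hs : s ≤ 2)
    (h1 : c = (q ^ k - 1) * (r + M)) (h2 : r * (q ^ k - q) ≤ q ^ (2 * k) - q)
    (h3 : c = (q ^ k - 1) * (m * (∑ i ∈ range k, q ^ i) + s)) :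
    c + 2 ≤ q ^ (2 * k) + 1 := by
  obtain ⟨θ, hθ⟩ : ∃ θ, θ = ∑ i ∈ range k, q ^ i := ⟨_, rfl⟩
  have hg := Tf_geom q k
  have ht := Tf_theta q k hk
  rw [← hθ] at hg ht h3
  obtain ⟨Q, hQ⟩ : ∃ Q, Q = q ^ k := ⟨_, rfl⟩
  have hQ2 : q ^ (2 * k) = Q ^ 2 := by rw [hQ, ← pow_mul, mul_comm]
  rw [← hQ] at hg h1 h2 h3
  rw [hQ2] at h2 ⊢
  have hQq : q ^ 4 ≤ Q := by
    rw [hQ]
    exact Nat.pow_le_pow_right (by omega) hk
  have hq4 : 4 * q ^ 2 ≤ q ^ 4 := by
    have h5 : 2 * 2 ≤ q * q := Nat.mul_le_mul hq hq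
    calc 4 * q ^ 2 ≤ (q * q) * q ^ 2 := Nat.mul_le_mul_right _ h5
      _ = q ^ 4 := by ring
  have hqq : 2 * q ≤ q ^ 2 := by
    rw [sq]
    exact Nat.mul_le_mul_right _ hq
  obtain ⟨P, hP⟩ : ∃ P, Q = q + P := ⟨Q - q, by omega⟩
  have hr : r ≤ Q + q := by
    by_contra hcon
    have hcon' : Q + q + 1 ≤ r := by omega
    have h6 : Q - q = P := by omega
    rw [h6] at h2
    have h7 : (Q + q + 1) * P ≤ r * P := Nat.mul_le_mul_right _ hcon'
    have h8 : r * P + q ≤ Q ^ 2 := by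
      have : q ≤ Q ^ 2 := by nlinarith
      omega
    have h9 : (Q + q + 1) * P + q ≤ Q ^ 2 := by omega
    rw [hP] at h9
    have h10 : (q + P + q + 1) * P + q = (q + P) ^ 2 + P + q - q ^ 2 := by
      have h11 : (q + P + q + 1) * P + q + q ^ 2 = (q + P) ^ 2 + P + q := by ring
      omega
    have h12 : q ^ 2 ≤ P := by omega
    have h13 : (q + P) ^ 2 + P + q - q ^ 2 = (q + P) ^ 2 + (P - q ^ 2) + q := by omega
    omega
  have hQ1 : 0 < Q - 1 := by omega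
  have hrM : r + M = m * θ + s := by
    have h14 : (Q - 1) * (r + M) = (Q - 1) * (m * θ + s) := by rw [← h1, ← h3]
    exact Nat.eq_of_mul_eq_mul_left hQ1 h14
  have hm : m ≤ q - 1 := by
    by_contra hcon
    have hcon' : q ≤ m := by omega
    have h15 : q * θ ≤ m * θ := Nat.mul_le_mul_right _ hcon'
    have h16 : q * θ + 1 = θ + Q := by rw [mul_comm]; exact hg
    have h17 : 2 * 2 ≤ q ^ 2 := by
      rw [sq]
      exact Nat.mul_le_mul hq hq
    have h18 : 2 * q ^ 2 ≤ q ^ 3 := by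
      calc 2 * q ^ 2 ≤ q * q ^ 2 := Nat.mul_le_mul_right _ hq
        _ = q ^ 3 := by ring
    omega
  have hrM2 : r + M ≤ Q + 1 := by
    have h19 : m * θ ≤ (q - 1) * θ := Nat.mul_le_mul_right _ hm
    have h20 : (q - 1) * θ + θ = θ * q := by
      obtain ⟨a, ha⟩ : ∃ a, q = a + 1 := ⟨q - 1, by omega⟩
      rw [ha]
      simp only [Nat.add_sub_cancel]
      ring
    omega
  have h21 : c ≤ (Q - 1) * (Q + 1) := by
    rw [h1]
    exact Nat.mul_le_mul_left _ hrM2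
  have h22 : (Q - 1) * (Q + 1) + 1 = Q ^ 2 := by
    obtain ⟨a, ha⟩ : ∃ a, Q = a + 1 := ⟨Q - 1, by omega⟩
    rw [ha]
    simp only [Nat.add_sub_cancel]
    ring
  omega

theorem tTf : S_Cn → S_Or → S_Ga → S_Tf := by
  intro hCn hOr hGa K L _ _ _ _ _ k hk hev hfin D hD hpair hinv
  have hT : Tor k D := ⟨hk, hfin, hD, hpair, hinv⟩
  obtain ⟨⟨M, hM, h1⟩, h2⟩ := hCn K L k D hT
  obtain ⟨m, h3⟩ := hOr K L k D hT
  have h4 := hGa K L k D hT hev
  have hq : 2 ≤ Fintype.card K := Fintype.one_lt_card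
  have h5 : D ⊆ Do D ∪ {ax1 K L, ax2 K L} := by
    intro U hU
    rw [Finset.mem_union]
    by_cases hx : U = ax1 K L
    · exact Or.inr (by rw [hx]; exact Finset.mem_insert_self _ _)
    · by_cases hy : U = ax2 K L
      · exact Or.inr (by rw [hy]; exact Finset.mem_insert_of_mem (Finset.mem_singleton_self _))
      · refine Or.inl ?_
        unfold Do
        exact Finset.mem_filter.2 ⟨hU, hx, hy⟩
  have h6 : D.card ≤ (Do D).card + 2 := by
    refine (Finset.card_le_card h5).trans ((Finset.card_union_le _ _).trans ?_)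
    exact Nat.add_le_add_left Finset.card_le_two _
  exact h6.trans (Tf_arith (Fintype.card K) k (rr D) M m _ (Do D).card hq hk hM h4 h1 h2 h3)

end Pool.Agent.MP8bT
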