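import Pool.Agent.Lib.MP_8b575b_co.Tor.SpecB

set_option autoImplicit false

namespace Pool.Agent.MP8bT

open Finset Polynomial

open scoped Classical

theorem tTg : S_Tf → S_Mo → S_Cm → S_Pf → S_Tg := by
  intro hTf hMo hCm hPf K L _ _ _ _ _ k hk hfr D hdim hpair hinv
  rcases Nat.lt_or_ge k 5 with hk5 | hk5
  · have : k = 4 := by omega
    subst this
    exact hTf K L 4 le_rfl ⟨2, rfl⟩ hfr D hdim hpair hinv
  have hT : Tor k D := ⟨hk, hfr, hdim, hpair, fun a b ha hb U hU => hinv a b ha hb U hU⟩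
  obtain ⟨M, hM, hM', hc⟩ := hCm K L k D hT
  have hrM : rr D + M ≤ Fintype.card K ^ k + 1 := by
    by_cases hF : Full D
    · have := hPf K L k D hk5 hT hF
      omega
    · have h1 := hMo K L k D hT hF
      have h2 := hM' hF
      omega
  have hDo : D.card ≤ (Do D).card + 2 := by
    have : D ⊆ Do D ∪ {ax1 K L, ax2 K L} := by
      intro U hU
      by_cases h1 : U = ax1 K L
      · simp [h1]
      · by_cases h2 : U = ax2 K L
        · simp [h2]
        · exact Finset.mem_union_left _ (Finset.mem_filter.2 ⟨hU, h1, h2⟩)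
    refine (Finset.card_le_card this).trans ((Finset.card_union_le _ _).trans ?_)
    exact Nat.add_le_add_left (Finset.card_le_two) _
  have hq : 1 ≤ Fintype.card K ^ k := Nat.one_le_pow _ _ Fintype.card_pos
  have h3 : (Do D).card ≤ (Fintype.card K ^ k - 1) * (Fintype.card K ^ k + 1) := by
    rw [hc]; exact Nat.mul_le_mul_left _ hrM
  have h4 : (Fintype.card K ^ k - 1) * (Fintype.card K ^ k + 1) + 1 =
      Fintype.card K ^ (2 * k) := by
    obtain ⟨m, hm⟩ : ∃ m, Fintype.card K ^ k = m + 1 := ⟨_, (Nat.sub_add_cancel hq).symm⟩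
    rw [two_mul, pow_add, hm, Nat.add_sub_cancel]
    ring
  omega

end Pool.Agent.MP8bT
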