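import Pool.Agent.Lib.MP_8b575b_co.Tor.SpecC

/-! MP_8b575b_co, module `Tr`: transport by an isomorphism of algebras. -/

set_option autoImplicit false

namespace Pool.Agent.MP8bT

open Finset Polynomial

open scoped Classical

section aux

variable {K A B : Type} [Field K] [CommRing A] [Algebra K A] [CommRing B] [Algebra K B]

private theorem Tr_inj (φ : A ≃ₐ[K] B) :
    Function.Injective (Submodule.map (φ.toLinearEquiv : A →ₗ[K] B)) :=
  Submodule.map_injective_of_injective φ.injective

private theorem Tr_unit (φ : A ≃ₐ[K] B) (b : B) (U : Submodule K A) :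
    (U.map (φ.toLinearEquiv : A →ₗ[K] B)).map (LinearMap.mulLeft K b) =
      (U.map (LinearMap.mulLeft K (φ.symm b))).map (φ.toLinearEquiv : A →ₗ[K] B) := by
  rw [← Submodule.map_comp, ← Submodule.map_comp]
  congr 1
  ext x
  change b * φ x = φ (φ.symm b * x)
  rw [map_mul, AlgEquiv.apply_symm_apply]

end aux

theorem tTr : S_Tr := by
  intro K A B _ _ _ _ _ k φ D hD
  obtain ⟨h1, h2, h3⟩ := hD
  refine ⟨D.image (Submodule.map (φ.toLinearEquiv : A →ₗ[K] B)), ⟨?_, ?_, ?_⟩,
    Finset.card_image_of_injective D (Tr_inj φ)⟩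
  · intro U' hU'
    obtain ⟨U, hU, rfl⟩ := Finset.mem_image.1 hU'
    rw [LinearEquiv.finrank_map_eq]
    exact h1 U hU
  · intro U' hU' W' hW' hne
    obtain ⟨U, hU, rfl⟩ := Finset.mem_image.1 hU'
    obtain ⟨W, hW, rfl⟩ := Finset.mem_image.1 hW'
    rw [← Submodule.map_inf _ φ.injective, LinearEquiv.finrank_map_eq]
    exact h2 U hU W hW fun h => hne (by rw [h])
  · intro b hb U' hU'
    obtain ⟨U, hU, rfl⟩ := Finset.mem_image.1 hU'
    rw [Tr_unit]
    exact Finset.mem_image_of_mem _ (h3 _ (hb.map φ.symm) U hU)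

end Pool.Agent.MP8bT
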