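import Pool.Agent.Lib.MP_8b575b_co.Tor.SpecB

/-! # MP_8b575b_co, Tor/Ze (helper47) -/

set_option autoImplicit false
set_option linter.unusedSectionVars false

namespace Pool.Agent.MP8bT

open Finset Polynomial

open scoped Classical

variable {K L : Type} [Field K] [Fintype K] [Field L] [Fintype L] [Algebra K L]

private theorem Ze_mem {a b : L} (ha : a ≠ 0) (hb : b ≠ 0) (U : Submodule K (L × L)) (u v : L) :
    (u, v) ∈ U.map (sc K a b) ↔ (a⁻¹ * u, b⁻¹ * v) ∈ U := by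
  constructor
  · rintro ⟨w, hw, h⟩
    have h1 : a * w.1 = u := congrArg Prod.fst h
    have h2 : b * w.2 = v := congrArg Prod.snd h
    rw [← h1, ← h2, inv_mul_cancel_left₀ ha, inv_mul_cancel_left₀ hb]
    exact hw
  · intro h
    refine ⟨_, h, ?_⟩
    show (a * (a⁻¹ * u), b * (b⁻¹ * v)) = (u, v)
    rw [mul_inv_cancel_left₀ ha, mul_inv_cancel_left₀ hb]

private theorem Ze_ax1 (v : L × L) : v ∈ ax1 K L ↔ v.2 = 0 := by
  constructor
  · rintro ⟨x, rfl⟩
    rfl
  · intro h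
    exact ⟨v.1, Prod.ext rfl h.symm⟩

private theorem Ze_ax2 (v : L × L) : v ∈ ax2 K L ↔ v.1 = 0 := by
  constructor
  · rintro ⟨x, rfl⟩
    rfl
  · intro h
    exact ⟨v.2, Prod.ext h.symm rfl⟩

private theorem Ze_do {k : ℕ} {D : Finset (Submodule K (L × L))} (hT : Tor k D) {a b : L}
    (ha : a ≠ 0) (hb : b ≠ 0) {U : Submodule K (L × L)} (hU : U ∈ Do D) :
    U.map (sc K a b) ∈ Do D := by
  obtain ⟨h1, h2, h3⟩ := Finset.mem_filter.1 hU
  have key : ∀ v, v ∈ U ↔ (a * v.1, b * v.2) ∈ U.map (sc K a b) := by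
    intro v
    rw [Ze_mem ha hb, inv_mul_cancel_left₀ ha, inv_mul_cancel_left₀ hb]
  refine Finset.mem_filter.2 ⟨hT.2.2.2.2 a b ha hb U h1, fun h => h2 ?_, fun h => h3 ?_⟩
  · ext v
    rw [key v, h, Ze_ax1, Ze_ax1]
    simp [hb]
  · ext v
    rw [key v, h, Ze_ax2, Ze_ax2]
    simp [ha]

private theorem Ze_RR {D : Finset (Submodule K (L × L))} {U : Submodule K (L × L)}
    (hU : U ∈ RR D) : U ∈ Do D := by
  obtain ⟨h1, h2⟩ := Finset.mem_filter.1 hU
  refine Finset.mem_filter.2 ⟨h1, ?_, ?_⟩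
  · rintro rfl
    rw [Ze_ax1] at h2
    exact one_ne_zero h2
  · rintro rfl
    rw [Ze_ax2] at h2
    exact one_ne_zero h2

/-- in a space of dimension at most one every vector is a multiple of a nonzero one -/
private theorem Ze_dim1 (W : Submodule K (L × L)) (h : Module.finrank K W ≤ 1) (s t : L × L)
    (hs : s ∈ W) (ht : t ∈ W) (hs0 : s ≠ 0) : ∃ c : K, c • s = t := by
  by_contra hcon
  have hli : LinearIndependent K ![s, t] := by
    rw [LinearIndependent.pair_iff' hs0]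
    intro a ha
    exact hcon ⟨a, ha⟩
  have hli2 : LinearIndependent K (![⟨s, hs⟩, ⟨t, ht⟩] : Fin 2 → W) := by
    apply LinearIndependent.of_comp W.subtype
    have : (W.subtype ∘ (![⟨s, hs⟩, ⟨t, ht⟩] : Fin 2 → W)) = ![s, t] := by
      funext i
      fin_cases i <;> rfl
    rw [this]
    exact hli
  have := hli2.fintype_card_le_finrank
  rw [Fintype.card_fin] at this
  omega

/-- a linear map which is injective on a member of the code is onto -/
private theorem Ze_onto {k : ℕ} (hL : Module.finrank K L = k) (U : Submodule K (L × L))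
    (hU : Module.finrank K U = k) (g : (L × L) →ₗ[K] L) (hg : ∀ v ∈ U, g v = 0 → v = 0) (x : L) :
    ∃ v ∈ U, g v = x := by
  have h1 : Function.Injective (g.domRestrict U) := by
    rw [injective_iff_map_eq_zero]
    intro v hv
    exact Subtype.ext (hg v v.2 hv)
  have h2 : Function.Surjective (g.domRestrict U) :=
    (LinearMap.injective_iff_surjective_of_finrank_eq_finrank (by rw [hU, hL])).1 h1
  obtain ⟨v, hv⟩ := h2 x
  exact ⟨v, v.2, hv⟩

private theorem Ze_sc {z : L} (hz : z ≠ 0) {U : Submodule K (L × L)} (c : K)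
    (hc : algebraMap K L c = z) (w : L × L) (h : (z * w.1, z * w.2) ∈ U) : w ∈ U := by
  have hc0 : c ≠ 0 := by
    rintro rfl
    exact hz (by rw [← hc, map_zero])
  have h1 := U.smul_mem c⁻¹ h
  have h2 : c⁻¹ • ((z * w.1, z * w.2) : L × L) = w := by
    refine Prod.ext ?_ ?_
    · show c⁻¹ • (z * w.1) = w.1
      rw [← hc, Algebra.smul_def, map_inv₀, inv_mul_cancel_left₀]
      rw [hc]
      exact hz
    · show c⁻¹ • (z * w.2) = w.2
      rw [← hc, Algebra.smul_def, map_inv₀, inv_mul_cancel_left₀]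
      rw [hc]
      exact hz
  rwa [h2] at h1

theorem tZe : S_Ax → S_Lx → S_Ze := by
  intro hAx hLx K L _ _ _ _ _ k D hT hF z hz
  obtain ⟨⟨U₁, hU₁, h1⟩, U₂, hU₂, h2⟩ := hF
  constructor
  · constructor
    · rintro ⟨U, hU, hzU⟩ ⟨c, hc⟩
      obtain ⟨hUD, h11⟩ := Finset.mem_filter.1 hU
      have h01 : ((0 : L), (1 : L)) ∈ U := by
        refine Ze_sc hz c hc _ ?_
        simpa using hzU
      have h10 : ((1 : L), (0 : L)) ∈ U := by
        have h3 := U.sub_mem h11 h01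
        simpa using h3
      exact hLx K L k D hT U (Ze_RR hU) 1 1 one_ne_zero one_ne_zero h10 h01
    · intro hz'
      have hUD : U₂ ∈ D := (Finset.mem_filter.1 hU₂).1
      obtain ⟨v, hv, hv'⟩ := Ze_onto hT.2.1 U₂ (hT.2.2.1 U₂ hUD) (LinearMap.snd K L L) (by
        intro v hv h0
        have h0' : v.2 = 0 := h0
        by_contra hne
        have h3 : v.1 ≠ 0 := fun h => hne (Prod.ext h h0')
        refine hLx K L k D hT U₂ hU₂ v.1 1 h3 one_ne_zero ?_ h2
        rw [← h0']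
        exact hv) z⁻¹
      have hv2 : v.2 = z⁻¹ := hv'
      have hw : v.1 ≠ 0 := by
        intro hw
        obtain ⟨c, hc⟩ := Ze_dim1 (U₂ ⊓ ax2 K L) (hAx K L k D hT U₂ hU₂).2 (0, 1) v
          ⟨h2, (Ze_ax2 _).2 rfl⟩ ⟨hv, (Ze_ax2 _).2 hw⟩ (fun h => one_ne_zero (congrArg Prod.snd h))
        have h3 : c • (1 : L) = v.2 := congrArg Prod.snd hc
        rw [hv2, Algebra.smul_def, mul_one] at h3
        refine hz' ⟨c⁻¹, ?_⟩
        rw [map_inv₀, h3, inv_inv]
      have hd := Ze_do hT (inv_ne_zero hw) hz hU₂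
      refine ⟨U₂.map (sc K v.1⁻¹ z), Finset.mem_filter.2 ⟨(Finset.mem_filter.1 hd).1, ?_⟩, ?_⟩
      · rw [Ze_mem (inv_ne_zero hw) hz, inv_inv, mul_one, mul_one, ← hv2]
        exact hv
      · rw [Ze_mem (inv_ne_zero hw) hz, mul_zero, inv_mul_cancel₀ hz]
        exact h2
  · constructor
    · rintro ⟨U, hU, hzU⟩ ⟨c, hc⟩
      obtain ⟨hUD, h11⟩ := Finset.mem_filter.1 hU
      have h10 : ((1 : L), (0 : L)) ∈ U := by
        refine Ze_sc hz c hc _ ?_
        simpa using hzU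
      have h01 : ((0 : L), (1 : L)) ∈ U := by
        have h3 := U.sub_mem h11 h10
        simpa using h3
      exact hLx K L k D hT U (Ze_RR hU) 1 1 one_ne_zero one_ne_zero h10 h01
    · intro hz'
      have hUD : U₁ ∈ D := (Finset.mem_filter.1 hU₁).1
      obtain ⟨v, hv, hv'⟩ := Ze_onto hT.2.1 U₁ (hT.2.2.1 U₁ hUD) (LinearMap.fst K L L) (by
        intro v hv h0
        have h0' : v.1 = 0 := h0
        by_contra hne
        have h3 : v.2 ≠ 0 := fun h => hne (Prod.ext h0' h)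
        refine hLx K L k D hT U₁ hU₁ 1 v.2 one_ne_zero h3 h1 ?_
        rw [← h0']
        exact hv) z⁻¹
      have hv2 : v.1 = z⁻¹ := hv'
      have hw : v.2 ≠ 0 := by
        intro hw
        obtain ⟨c, hc⟩ := Ze_dim1 (U₁ ⊓ ax1 K L) (hAx K L k D hT U₁ hU₁).1 (1, 0) v
          ⟨h1, (Ze_ax1 _).2 rfl⟩ ⟨hv, (Ze_ax1 _).2 hw⟩ (fun h => one_ne_zero (congrArg Prod.fst h))
        have h3 : c • (1 : L) = v.1 := congrArg Prod.fst hc
        rw [hv2, Algebra.smul_def, mul_one] at h3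
        refine hz' ⟨c⁻¹, ?_⟩
        rw [map_inv₀, h3, inv_inv]
      have hd := Ze_do hT hz (inv_ne_zero hw) hU₁
      refine ⟨U₁.map (sc K z v.2⁻¹), Finset.mem_filter.2 ⟨(Finset.mem_filter.1 hd).1, ?_⟩, ?_⟩
      · rw [Ze_mem hz (inv_ne_zero hw), inv_inv, mul_one, mul_one, ← hv2]
        exact hv
      · rw [Ze_mem hz (inv_ne_zero hw), mul_zero, inv_mul_cancel₀ hz]
        exact h1

end Pool.Agent.MP8bT
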